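import Pool.Agent.Lib.MP_28d281_gt.Par

/-! The solution attached to a given fixed point. -/

open Complex Filter Topology Set

namespace Pool.Agent.Lib.MP_28d281_gt

theorem pde_of_fix {δ : ℝ} {τ : BC} {F : Al} (hfix : Phi δ τ F = F) : ∀ s, 0 ≤ s → ∀ θ,
      ((1 - (τ s : ℂ) ^ 2 + (ev (cS δ F) s θ - τ s * (1 + ev (cV δ F) s θ)) ^ 2) -
          (ev (cU δ F) s θ - τ s * ev (cT δ F) s θ) ^ 2 +
          (1 + ev (cV δ F) s θ - ev (cQ δ F) s θ) *
            (1 + ev (cV δ F) s θ - (ev F s θ + ev (cQ δ F) s θ))) ^ 2 =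
        4 * (1 + ev (cV δ F) s θ - ev (cQ δ F) s θ) ^ 2 *
          (1 - (τ s : ℂ) ^ 2 + (ev (cS δ F) s θ - τ s * (1 + ev (cV δ F) s θ)) ^ 2) ^ 3 := by
  intro s hs θ
  have h := congrArg (fun G => ev G s θ) hfix
  simp only [Phi, nR, nQ, nP, nAl, nD, nB, nA2, nA, nM, ev_add, ev_smul, ev_conv _ _ hs,
    ev_mulB] at h
  push_cast at h
  linear_combination 4 * h

theorem sol_of_fix {δ : ℝ} (hδ : 0 ≤ δ) (hδ' : δ ≤ 1 / 10 ^ 13) {τ : BC} {F : Al} (hF : F ∈ SS)
    (hfix : Phi δ τ F = F) : ∃ S : Sol τ δ, S.μ = mu F ∧ ∀ s, 0 ≤ s → ∀ θ,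
      S.v s θ = (ev (cV δ F) s θ).re ∧ S.vs s θ = (ev (cS δ F) s θ).re ∧
      S.vt s θ = (I * ev (cT δ F) s θ).re ∧ S.vtt s θ = (I * (I * ev (cQ δ F) s θ)).re := by
  have hpde := pde_of_fix hfix
  obtain ⟨C, hC, hp⟩ := p_bdd
  set β := δ * mu F with hβ
  set w0 := wr fun n => m0 n (F n) (β * ind n) with hw0
  set w1 := wr fun n => m1 n (F n) (β * ind n) with hw1
  set w2 := wr fun n => m2 n (F n) (β * ind n) with hw2
  have hFn : ∀ n, F (-n) = F n := fun n => by simpa using hF.2 n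
  have csum : Summable fun n => 6 * ‖F n‖ + 4 * C * (fa n ^ 2 * |β * ind n| + 2 * ‖F n‖) := by
    refine ((summ F).mul_left 6).add (Summable.mul_left _ (Summable.add ?_ ((summ F).mul_left 2)))
    refine summable_of_ne_finset_zero (s := {1, -1}) fun n hn => ?_
    simp only [Finset.mem_insert, Finset.mem_singleton] at hn
    simp [ind, hn]
  have cpos : ∀ n, 0 ≤ 6 * ‖F n‖ + 4 * C * (fa n ^ 2 * |β * ind n| + 2 * ‖F n‖) := fun n => by
    positivity
  have b0 : SBp 3 w0 := sbp_wr csum cpos fun n s => (m_bound hC hp n _ _ s).1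
  have b1 : SBp 2 w1 := sbp_wr (p := 1) csum cpos fun n s => by
    rw [pow_one]; exact (m_bound hC hp n _ _ s).2.1
  have b2 : SBp 1 w2 := sbp_wr (p := 0) csum cpos fun n s => by
    rw [pow_zero, one_mul]; exact (m_bound hC hp n _ _ s).2.2
  have d0 : ∀ n s, HasDerivAt (w0 n) (w1 n s) s := wr_deriv fun n s => m0_deriv n _ _ s
  have d1 : ∀ n s, HasDerivAt (w1 n) (w2 n s) s := wr_deriv fun n s => m1_deriv n _ _ s
  have c2 : ∀ n, Continuous (w2 n) := fun n => by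
    have := m2_cont n (F n) (β * ind n)
    simp only [hw2]
    unfold wr
    fun_prop
  have s0 : ∀ n s, w0 (-n) s = 1 * w0 n s := fun n s => by
    simp only [hw0, wr, hFn, ind_neg, m0_neg, wt_neg, one_mul]
  have s1 : ∀ n s, w1 (-n) s = 1 * w1 n s := fun n s => by
    simp only [hw1, wr, hFn, ind_neg, m1_neg, wt_neg, one_mul]
  have s2 : ∀ n s, w2 (-n) s = 1 * w2 n s := fun n s => by
    simp only [hw2, wr, hFn, ind_neg, m2_neg, wt_neg, one_mul]
  have sfr : ∀ {g : ℤ → ℝ → ℝ} {ε : ℝ}, (∀ n s, g (-n) s = ε * g n s) →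
      ∀ n s, fr g (-n) s = -ε * fr g n s := fun h n s => by
    simp only [fr, h]; push_cast; ring
  have r0 : ∀ u, ((ser w0 u).re : ℂ) = ser w0 u := fun u =>
    conj_eq_iff_re.mp (by simpa using conj_ser s0 u)
  have r1 : ∀ u, ((ser w1 u).re : ℂ) = ser w1 u := fun u =>
    conj_eq_iff_re.mp (by simpa using conj_ser s1 u)
  have r2 : ∀ u, ((ser w2 u).re : ℂ) = ser w2 u := fun u =>
    conj_eq_iff_re.mp (by simpa using conj_ser s2 u)
  have r3 : ∀ u, ((I * ser (fr w0) u).re : ℂ) = I * ser (fr w0) u := fun u =>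
    conj_eq_iff_re.mp (by rw [map_mul, conj_ser (sfr s0) u]; simp)
  have r4 : ∀ u, ((I * ser (fr w1) u).re : ℂ) = I * ser (fr w1) u := fun u =>
    conj_eq_iff_re.mp (by rw [map_mul, conj_ser (sfr s1) u]; simp)
  have r5 : ∀ u, ((I * (I * ser (fr (fr w0)) u)).re : ℂ) = -ser (fr (fr w0)) u := fun u => by
    have e : I * (I * ser (fr (fr w0)) u) = -ser (fr (fr w0)) u := by
      rw [← mul_assoc, I_mul_I]; ring
    rw [e]
    exact conj_eq_iff_re.mp (by rw [map_neg, conj_ser (sfr (sfr s0)) u]; simp)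
  have e0 : ∀ s, 0 ≤ s → ∀ θ, ser w0 (pt s θ) = ev (cV δ F) s θ := fun s hs =>
    ser_eq_ev fun n => by
      simp only [hw0, wr, m0_eq _ _ _ hs, cV, aff_apply, hβ, mul_one]
  have e1 : ∀ s, 0 ≤ s → ∀ θ, ser w1 (pt s θ) = ev (cS δ F) s θ := fun s hs =>
    ser_eq_ev fun n => by
      simp only [hw1, wr, m1_eq _ _ _ hs, cS, aff_apply, hβ]
  have e3 : ∀ s, 0 ≤ s → ∀ θ, ser (fr w0) (pt s θ) = ev (cT δ F) s θ := fun s hs =>
    ser_eq_ev fun n => by
      simp only [fr, hw0, wr, m0_eq _ _ _ hs, cT, aff_apply, hβ, _root_.smul_apply,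
        BoundedContinuousFunction.smul_apply, smul_eq_mul]
      ring
  have e4 : ∀ s, 0 ≤ s → ∀ θ, ser (fr w1) (pt s θ) = ev (cU δ F) s θ := fun s hs =>
    ser_eq_ev fun n => by
      simp only [fr, hw1, wr, m1_eq _ _ _ hs, cU, aff_apply, hβ, _root_.smul_apply,
        BoundedContinuousFunction.smul_apply, smul_eq_mul]
      ring
  have e5 : ∀ s, 0 ≤ s → ∀ θ, ser (fr (fr w0)) (pt s θ) = ev (cQ δ F) s θ := fun s hs =>
    ser_eq_ev fun n => by
      simp only [fr, hw0, wr, m0_eq _ _ _ hs, cQ, aff_apply, hβ, _root_.smul_apply,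
        BoundedContinuousFunction.smul_apply, smul_eq_mul, fa_sq]
      ring
  have e2 : ∀ s, 0 ≤ s → ∀ θ, ser w2 (pt s θ) = ev (F + cQ δ F) s θ := fun s hs =>
    ser_eq_ev fun n => by
      simp only [hw2, wr, m2_eq _ _ _ hs, m0_eq _ _ _ hs, cQ, lp.coeFn_add, Pi.add_apply,
        BoundedContinuousFunction.add_apply, aff_apply, hβ, _root_.smul_apply,
        BoundedContinuousFunction.smul_apply, smul_eq_mul]
      ring
  have k0 : Cls 2 16 (ser w0) :=
    ser_cls2 b0.sb b1.sb b2.sb b0.fr.sb b1.fr.sb b0.fr.fr.sb d0 d1 c2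
  have k1 : Cls 2 16 (ser (fr w0)) :=
    ser_cls2 b0.fr.sb b1.fr.sb b2.fr.sb b0.fr.fr.sb b1.fr.fr.sb b0.fr.fr.fr.sb (fr_deriv d0)
      (fr_deriv d1) (fr_cont c2)
  have k := k0.add (k1.cmul (-1))
  have hmu := abs_le.mp (abs_mu hF)
  refine ⟨{
    v := fun s θ => (ser w0 (pt s θ)).re
    vs := fun s θ => (ser w1 (pt s θ)).re
    vss := fun s θ => (ser w2 (pt s θ)).re
    vt := fun s θ => (I * ser (fr w0) (pt s θ)).re
    vst := fun s θ => (I * ser (fr w1) (pt s θ)).re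
    vtt := fun s θ => (I * (I * ser (fr (fr w0)) (pt s θ))).re
    vttt := fun s θ => (I * (I * (I * ser (fr (fr (fr w0))) (pt s θ)))).re
    Y := desc fun u => ser w0 u + -1 * ser (fr w0) u
    μ := mu F
    hY := desc_contDiff 2 k (by norm_num)
    Y0 := desc_zero _
    Yexp := fun s θ => ?_
    ds := fun s θ => re_deriv (ser_ds b0.sb b1.sb b0.fr.sb d0 s θ)
    dss := fun s θ => re_deriv (ser_ds b1.sb b2.sb b1.fr.sb d1 s θ)
    dt := fun s θ => re_deriv (ser_dt b0.sb b1.sb b0.fr.sb d0 s θ)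
    dtt := fun s θ =>
      re_deriv ((ser_dt b0.fr.sb b1.fr.sb b0.fr.fr.sb (fr_deriv d0) s θ).const_mul I)
    dttt := fun s θ =>
      re_deriv (((ser_dt b0.fr.fr.sb b1.fr.fr.sb b0.fr.fr.fr.sb (fr_deriv (fr_deriv d0))
        s θ).const_mul I).const_mul I)
    dst := fun s θ =>
      re_deriv ((ser_ds b0.fr.sb b1.fr.sb b0.fr.fr.sb (fr_deriv d0) s θ).const_mul I)
    bd := fun s hs θ => ?_
    pde := fun s hs θ => ?_
    bdry := fun θ => ?_
    hμ := ⟨by linarith [hmu.1], by linarith [hmu.2]⟩ }, rfl, fun s hs θ => ?_⟩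
  · rw [desc_exp k.zero.2.1, r0, r3, mul_comm I, mul_assoc, I_mul_I]
    ring
  · have a0 := ((good_cV hδ hδ').2.1 F hF).1
    have a1 := ((good_cS hδ hδ').2.1 F hF).1
    have a2 := ((good_cQ hδ hδ').2.1 F hF).1
    have a3 := hF.1
    have a4 := norm_add_le F (cQ δ F)
    unfold rho at a0 a1 a2 a3
    refine ⟨(abs_re_le_norm _).trans ?_, (abs_re_le_norm _).trans ?_,
      (abs_re_le_norm _).trans ?_, (abs_re_le_norm _).trans ?_⟩
    · rw [e0 s hs]; linarith [norm_ev (cV δ F) hs θ]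
    · rw [e1 s hs]; linarith [norm_ev (cS δ F) hs θ]
    · rw [e2 s hs]; linarith [norm_ev (F + cQ δ F) hs θ]
    · rw [norm_mul, norm_mul, norm_I, one_mul, one_mul, e5 s hs]
      linarith [norm_ev (cQ δ F) hs θ]
  · have h := hpde s hs θ
    rw [← ev_add F (cQ δ F), ← e0 s hs, ← e1 s hs, ← e2 s hs, ← e3 s hs, ← e4 s hs,
      ← e5 s hs] at h
    apply ofReal_injective
    push_cast
    rw [r0, r1, r2, r3, r4, r5]
    have e : (I * ser (fr w1) (pt s θ) - τ s * (I * ser (fr w0) (pt s θ))) ^ 2 =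
        -(ser (fr w1) (pt s θ) - τ s * ser (fr w0) (pt s θ)) ^ 2 := by
      linear_combination (ser (fr w1) (pt s θ) - τ s * ser (fr w0) (pt s θ)) ^ 2 * I_sq
    rw [e]
    linear_combination h
  · have h1 : ser w0 (pt 0 θ) = ∑ n ∈ ({0, 1, -1} : Finset ℤ), st w0 n (pt 0 θ) := by
      refine tsum_eq_sum fun n hn => ?_
      simp only [Finset.mem_insert, Finset.mem_singleton, not_or] at hn
      simp [st, hw0, wr, m0_bdry hn.1, ind, hn.2.1, hn.2.2]
    have h2 : m0 0 (F 0) 0 0 = mu F - 1 := by simp [m0, mu, G0_zero]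
    rw [h1, Finset.sum_insert (by decide), Finset.sum_pair (by decide)]
    simp only [st, hw0, wr, pt_re, pt_im, neg_neg, m0_bdry (one_ne_zero), m0_bdry (by decide : (-1 : ℤ) ≠ 0),
      ind, wt, ch, add_re, re_ofReal_mul, exp_ofReal_mul_I_re]
    simp [h2, hβ]
    ring
  · exact ⟨congrArg re (e0 s hs θ), congrArg re (e1 s hs θ),
      congrArg (fun z => (I * z).re) (e3 s hs θ), congrArg (fun z => (I * (I * z)).re) (e5 s hs θ)⟩

end Pool.Agent.Lib.MP_28d281_gt
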