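import Mathlib

open BoundedContinuousFunction

namespace Pool.Agent.Lib.MP_28d281_gt

abbrev BC := ℝ →ᵇ ℝ
noncomputable abbrev Al := lp (fun _ : ℤ => BC) 1

theorem summ (F : Al) : Summable fun n => ‖F n‖ := by
  have := (lp.memℓp F).summable (by simp)
  simpa using this

theorem norm_eq (F : Al) : ‖F‖ = ∑' n, ‖F n‖ := by
  have := lp.norm_eq_tsum_rpow (p := 1) (by simp) F
  simpa using this

noncomputable def mk1 (f : ℤ → BC) (h : Summable fun n => ‖f n‖) : Al :=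
  ⟨f, memℓp_gen (by simpa using h)⟩

@[simp] theorem mk1_apply (f : ℤ → BC) (h : Summable fun n => ‖f n‖) (n : ℤ) :
    (mk1 f h) n = f n := rfl

noncomputable def wt (n : ℤ) : ℝ := 1 + |(n : ℝ)|

theorem wt_ge (n : ℤ) : 1 ≤ wt n := by unfold wt; linarith [abs_nonneg (n : ℝ)]

theorem wt_pos (n : ℤ) : 0 < wt n := lt_of_lt_of_le one_pos (wt_ge n)

theorem wt_neg (n : ℤ) : wt (-n) = wt n := by simp [wt]

theorem wt_le (n m : ℤ) : wt n ≤ wt m * wt (n - m) := by
  unfold wt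
  have h : |(n : ℝ)| ≤ |(m : ℝ)| + |((n - m : ℤ) : ℝ)| := by
    have := abs_add_le (m : ℝ) ((n - m : ℤ) : ℝ)
    push_cast at this ⊢
    simpa using this
  nlinarith [abs_nonneg (m : ℝ), abs_nonneg ((n - m : ℤ) : ℝ)]

noncomputable def expPlus (b : ℝ) (hb : 0 ≤ b) : BC :=
  BoundedContinuousFunction.ofNormedAddCommGroup (fun s : ℝ => Real.exp (-b * max s 0))
    (by fun_prop) 1 (fun s => by
      rw [Real.norm_eq_abs, abs_of_pos (Real.exp_pos _)]
      apply Real.exp_le_one_iff.mpr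
      have := le_max_right s 0
      nlinarith)

theorem expPlus_apply (b : ℝ) (hb : 0 ≤ b) (s : ℝ) (hs : 0 ≤ s) :
    expPlus b hb s = Real.exp (-b * s) := by
  simp [expPlus, max_eq_left hs]

theorem norm_expPlus (b : ℝ) (hb : 0 ≤ b) : ‖expPlus b hb‖ ≤ 1 :=
  BoundedContinuousFunction.norm_ofNormedAddCommGroup_le _ zero_le_one _

noncomputable def damp : BC := expPlus 16 (by norm_num)

theorem norm_damp : ‖damp‖ ≤ 1 := norm_expPlus _ _

noncomputable def ct (F G : Al) (n m : ℤ) : BC :=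
  (wt n / (wt m * wt (n - m))) • (damp * F m * G (n - m))

theorem norm_ct (F G : Al) (n m : ℤ) : ‖ct F G n m‖ ≤ ‖F m‖ * ‖G (n - m)‖ := by
  unfold ct
  have h1 : 0 ≤ wt n / (wt m * wt (n - m)) :=
    div_nonneg (wt_pos n).le (mul_pos (wt_pos _) (wt_pos _)).le
  have h2 : wt n / (wt m * wt (n - m)) ≤ 1 :=
    (div_le_one (mul_pos (wt_pos _) (wt_pos _))).mpr (wt_le n m)
  rw [norm_smul, Real.norm_of_nonneg h1]
  have h3 : ‖damp * F m * G (n - m)‖ ≤ ‖F m‖ * ‖G (n - m)‖ := by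
    calc ‖damp * F m * G (n - m)‖ ≤ ‖damp * F m‖ * ‖G (n - m)‖ := norm_mul_le _ _
      _ ≤ (‖damp‖ * ‖F m‖) * ‖G (n - m)‖ := by gcongr; exact norm_mul_le _ _
      _ ≤ (1 * ‖F m‖) * ‖G (n - m)‖ := by gcongr; exact norm_damp
      _ = _ := by ring
  calc _ ≤ 1 * (‖F m‖ * ‖G (n - m)‖) := by gcongr
    _ = _ := one_mul _

def shear : ℤ × ℤ ≃ ℤ × ℤ where
  toFun p := (p.2, p.1 - p.2)
  invFun q := (q.1 + q.2, q.1)
  left_inv p := by simp
  right_inv q := by simp

theorem summ_pair (F G : Al) : Summable fun p : ℤ × ℤ => ‖F p.2‖ * ‖G (p.1 - p.2)‖ := by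
  have h := Summable.mul_of_nonneg (summ F) (summ G) (fun _ => norm_nonneg _)
    (fun _ => norm_nonneg _)
  exact (shear.summable_iff (f := fun q : ℤ × ℤ => ‖F q.1‖ * ‖G q.2‖)).mpr h

theorem tsum_pair (F G : Al) :
    ∑' n, ∑' m, ‖F m‖ * ‖G (n - m)‖ = ‖F‖ * ‖G‖ := by
  have h := Summable.mul_of_nonneg (summ F) (summ G) (fun _ => norm_nonneg _)
    (fun _ => norm_nonneg _)
  rw [← (summ_pair F G).tsum_prod, norm_eq F, norm_eq G,
    Summable.tsum_mul_tsum (summ F) (summ G) h]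
  exact shear.tsum_eq (fun q : ℤ × ℤ => ‖F q.1‖ * ‖G q.2‖)

theorem summ_ct_norm (F G : Al) (n : ℤ) : Summable fun m => ‖ct F G n m‖ :=
  Summable.of_nonneg_of_le (fun _ => norm_nonneg _) (fun m => norm_ct F G n m)
    ((summ_pair F G).prod_factor n)

theorem summ_ct (F G : Al) (n : ℤ) : Summable fun m => ct F G n m :=
  (summ_ct_norm F G n).of_norm

theorem norm_tsum_ct (F G : Al) (n : ℤ) :
    ‖∑' m, ct F G n m‖ ≤ ∑' m, ‖F m‖ * ‖G (n - m)‖ :=
  (norm_tsum_le_tsum_norm (summ_ct_norm F G n)).trans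
    ((summ_ct_norm F G n).tsum_le_tsum (fun m => norm_ct F G n m) ((summ_pair F G).prod_factor n))

noncomputable def conv (F G : Al) : Al :=
  mk1 (fun n => ∑' m, ct F G n m)
    (Summable.of_nonneg_of_le (fun _ => norm_nonneg _) (fun n => norm_tsum_ct F G n)
      (summ_pair F G).prod)

theorem conv_apply (F G : Al) (n : ℤ) : conv F G n = ∑' m, ct F G n m := rfl

theorem norm_conv (F G : Al) : ‖conv F G‖ ≤ ‖F‖ * ‖G‖ := by
  rw [norm_eq, ← tsum_pair]
  exact (summ (conv F G)).tsum_le_tsum (fun n => norm_tsum_ct F G n) (summ_pair F G).prod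

theorem conv_sub_left (F F' G : Al) : conv (F - F') G = conv F G - conv F' G := by
  ext1
  funext n
  rw [lp.coeFn_sub, Pi.sub_apply, conv_apply, conv_apply, conv_apply,
    ← (summ_ct F G n).tsum_sub (summ_ct F' G n)]
  congr 1
  funext m
  simp only [ct, lp.coeFn_sub, Pi.sub_apply, mul_sub, sub_mul, smul_sub]

theorem conv_sub_right (F G G' : Al) : conv F (G - G') = conv F G - conv F G' := by
  ext1
  funext n
  rw [lp.coeFn_sub, Pi.sub_apply, conv_apply, conv_apply, conv_apply,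
    ← (summ_ct F G n).tsum_sub (summ_ct F G' n)]
  congr 1
  funext m
  simp only [ct, lp.coeFn_sub, Pi.sub_apply, mul_sub, smul_sub]

theorem norm_conv_sub (F F' G G' : Al) :
    ‖conv F G - conv F' G'‖ ≤ ‖F - F'‖ * ‖G‖ + ‖F'‖ * ‖G - G'‖ := by
  have : conv F G - conv F' G' = conv (F - F') G + conv F' (G - G') := by
    rw [conv_sub_left, conv_sub_right]; abel
  rw [this]
  exact (norm_add_le _ _).trans (add_le_add (norm_conv _ _) (norm_conv _ _))

def Par (ε : ℝ) (F : Al) : Prop := ∀ n, F (-n) = ε • F n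

theorem Par.conv {ε₁ ε₂ : ℝ} {F G : Al} (hF : Par ε₁ F) (hG : Par ε₂ G) :
    Par (ε₁ * ε₂) (conv F G) := by
  intro n
  rw [conv_apply, conv_apply, ← (Equiv.neg ℤ).tsum_eq, ← (summ_ct F G n).tsum_const_smul]
  congr 1
  funext m
  have e : -n - -m = -(n - m) := by ring
  simp only [Equiv.neg_apply, ct, e, wt_neg, hF m, hG (n - m)]
  ext s
  simp
  ring

theorem Par.add {ε : ℝ} {F G : Al} (hF : Par ε F) (hG : Par ε G) : Par ε (F + G) := by
  intro n
  simp only [lp.coeFn_add, Pi.add_apply, hF n, hG n, smul_add]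

theorem Par.smul {ε : ℝ} {F : Al} (hF : Par ε F) (c : ℝ) : Par ε (c • F) := by
  intro n
  simp only [lp.coeFn_smul, Pi.smul_apply, hF n, smul_comm c ε]

theorem isClosed_par (ε : ℝ) : IsClosed {F : Al | Par ε F} := by
  have hc : ∀ n : ℤ, Continuous fun F : Al => F n := fun n =>
    (lp.lipschitzWith_one_eval (E := fun _ : ℤ => BC) 1 n).continuous
  simp only [Par, Set.ofPred_forall]
  exact isClosed_iInter fun n => isClosed_eq (hc _) ((hc n).const_smul ε)

def Bd (L : BC →L[ℝ] BC) (c : ℝ) : Prop := ∀ F, ‖L F‖ ≤ c * ‖F‖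

noncomputable def diag (L : ℤ → BC →L[ℝ] BC) (c : ℝ) (h : ∀ n, Bd (L n) c) (F : Al) : Al :=
  mk1 (fun n => L n (F n))
    (Summable.of_nonneg_of_le (fun _ => norm_nonneg _) (fun n => h n _) ((summ F).mul_left c))

theorem diag_apply (L : ℤ → BC →L[ℝ] BC) (c : ℝ) (h : ∀ n, Bd (L n) c) (F : Al) (n : ℤ) :
    diag L c h F n = L n (F n) := rfl

theorem norm_diag (L : ℤ → BC →L[ℝ] BC) (c : ℝ) (h : ∀ n, Bd (L n) c) (F : Al) :
    ‖diag L c h F‖ ≤ c * ‖F‖ := by
  rw [norm_eq, norm_eq F, ← tsum_mul_left]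
  exact (summ _).tsum_le_tsum (fun n => h n _) ((summ F).mul_left c)

theorem diag_sub (L : ℤ → BC →L[ℝ] BC) (c : ℝ) (h : ∀ n, Bd (L n) c) (F F' : Al) :
    diag L c h (F - F') = diag L c h F - diag L c h F' := by
  ext1
  funext n
  rw [lp.coeFn_sub, Pi.sub_apply, diag_apply, diag_apply, diag_apply, lp.coeFn_sub, Pi.sub_apply,
    map_sub]

theorem Par.diag {ε ε' : ℝ} {F : Al} (hF : Par ε F) (L : ℤ → BC →L[ℝ] BC) (c : ℝ)
    (h : ∀ n, Bd (L n) c) (hL : ∀ n, L (-n) = ε' • L n) : Par (ε' * ε) (diag L c h F) := by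
  intro n
  rw [diag_apply, diag_apply, hL n, hF n, _root_.smul_apply, map_smul, smul_smul]

noncomputable def ch (n : ℤ) (θ : ℝ) : ℂ := Complex.exp (((n * 64 * θ : ℝ) : ℂ) * Complex.I)

theorem norm_ch (n : ℤ) (θ : ℝ) : ‖ch n θ‖ = 1 := Complex.norm_exp_ofReal_mul_I _

theorem ch_add (n m : ℤ) (θ : ℝ) : ch (n + m) θ = ch n θ * ch m θ := by
  unfold ch
  rw [← Complex.exp_add]
  congr 1
  push_cast
  ring

theorem conj_ch (n : ℤ) (θ : ℝ) : (starRingEnd ℂ) (ch n θ) = ch (-n) θ := by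
  unfold ch
  rw [← Complex.exp_conj, map_mul, Complex.conj_ofReal, Complex.conj_I]
  congr 1
  push_cast
  ring

noncomputable def et (F : Al) (s θ : ℝ) (n : ℤ) : ℂ :=
  ((Real.exp (-16 * s) * F n s / wt n : ℝ) : ℂ) * ch n θ

noncomputable def ev (F : Al) (s θ : ℝ) : ℂ := ∑' n, et F s θ n

theorem norm_et (F : Al) (s θ : ℝ) (n : ℤ) : ‖et F s θ n‖ ≤ Real.exp (-16 * s) * ‖F n‖ := by
  unfold et
  rw [norm_mul, norm_ch, mul_one, Complex.norm_real, Real.norm_eq_abs, abs_div, abs_mul,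
    abs_of_pos (Real.exp_pos _), abs_of_pos (wt_pos n)]
  have h1 : |F n s| ≤ ‖F n‖ := by
    simpa using (F n).norm_coe_le_norm s
  calc _ ≤ Real.exp (-16 * s) * |F n s| := div_le_self (by positivity) (wt_ge n)
    _ ≤ _ := by gcongr

theorem summ_et_norm (F : Al) (s θ : ℝ) : Summable fun n => ‖et F s θ n‖ :=
  Summable.of_nonneg_of_le (fun _ => norm_nonneg _) (norm_et F s θ) ((summ F).mul_left _)

theorem summ_et (F : Al) (s θ : ℝ) : Summable (et F s θ) := (summ_et_norm F s θ).of_norm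

theorem norm_ev (F : Al) {s : ℝ} (hs : 0 ≤ s) (θ : ℝ) : ‖ev F s θ‖ ≤ ‖F‖ := by
  refine (norm_tsum_le_tsum_norm (summ_et_norm F s θ)).trans ?_
  rw [norm_eq]
  refine (summ_et_norm F s θ).tsum_le_tsum (fun n => (norm_et F s θ n).trans ?_) (summ F)
  have : Real.exp (-16 * s) ≤ 1 := Real.exp_le_one_iff.mpr (by linarith)
  nlinarith [norm_nonneg (F n)]

theorem ev_add (F G : Al) (s θ : ℝ) : ev (F + G) s θ = ev F s θ + ev G s θ := by
  unfold ev
  rw [← (summ_et F s θ).tsum_add (summ_et G s θ)]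
  congr 1
  funext n
  simp only [et, lp.coeFn_add, Pi.add_apply, BoundedContinuousFunction.add_apply]
  push_cast
  ring

theorem ev_smul (c : ℝ) (F : Al) (s θ : ℝ) : ev (c • F) s θ = c * ev F s θ := by
  unfold ev
  rw [← tsum_mul_left]
  congr 1
  funext n
  simp only [et, lp.coeFn_smul, Pi.smul_apply, BoundedContinuousFunction.smul_apply, smul_eq_mul]
  push_cast
  ring

theorem ev_conv (F G : Al) {s : ℝ} (hs : 0 ≤ s) (θ : ℝ) :
    ev (conv F G) s θ = ev F s θ * ev G s θ := by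
  have hsum : Summable fun q : ℤ × ℤ => et F s θ q.1 * et G s θ q.2 :=
    summable_mul_of_summable_norm (summ_et_norm F s θ) (summ_et_norm G s θ)
  have hsum2 : Summable fun p : ℤ × ℤ => et F s θ p.2 * et G s θ (p.1 - p.2) :=
    (shear.summable_iff (f := fun q : ℤ × ℤ => et F s θ q.1 * et G s θ q.2)).mpr hsum
  unfold ev
  rw [tsum_mul_tsum_of_summable_norm (summ_et_norm F s θ) (summ_et_norm G s θ),
    ← shear.tsum_eq (fun q : ℤ × ℤ => et F s θ q.1 * et G s θ q.2)]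
  change _ = ∑' p : ℤ × ℤ, et F s θ p.2 * et G s θ (p.1 - p.2)
  rw [hsum2.tsum_prod]
  congr 1
  funext n
  have h1 : conv F G n s = ∑' m, ct F G n m s := by
    rw [conv_apply]
    exact (BoundedContinuousFunction.evalCLM ℝ s).map_tsum (summ_ct F G n)
  simp only [et, h1]
  rw [← tsum_mul_left, ← tsum_div_const, Complex.ofReal_tsum, ← tsum_mul_right]
  congr 1
  funext m
  have h2 : ch n θ = ch m θ * ch (n - m) θ := by rw [← ch_add]; congr 1; ring
  have h3 : damp s = Real.exp (-16 * s) := expPlus_apply _ _ s hs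
  have hn : (wt n : ℂ) ≠ 0 := by exact_mod_cast (wt_pos n).ne'
  have hm : (wt m : ℂ) ≠ 0 := by exact_mod_cast (wt_pos m).ne'
  have hnm : (wt (n - m) : ℂ) ≠ 0 := by exact_mod_cast (wt_pos (n - m)).ne'
  simp only [ct, BoundedContinuousFunction.smul_apply, BoundedContinuousFunction.mul_apply,
    smul_eq_mul, h2, h3]
  push_cast
  field_simp

theorem Par.conj_ev {ε : ℝ} {F : Al} (hF : Par ε F) (s θ : ℝ) :
    (starRingEnd ℂ) (ev F s θ) = ε * ev F s θ := by
  unfold ev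
  rw [Complex.conj_tsum, ← (Equiv.neg ℤ).tsum_eq, ← tsum_mul_left]
  congr 1
  funext n
  simp only [et, Equiv.neg_apply, map_mul, Complex.conj_ofReal, conj_ch, neg_neg, wt_neg, hF n,
    BoundedContinuousFunction.smul_apply, smul_eq_mul]
  push_cast
  ring

noncomputable def mulB (τ : BC) (F : Al) : Al :=
  diag (fun _ => ContinuousLinearMap.mul ℝ BC τ) ‖τ‖
    (fun _ G => norm_mul_le τ G) F

theorem ev_mulB (τ : BC) (F : Al) (s θ : ℝ) : ev (mulB τ F) s θ = τ s * ev F s θ := by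
  unfold ev
  rw [← tsum_mul_left]
  congr 1
  funext n
  simp only [et, mulB, diag_apply, ContinuousLinearMap.mul_apply',
    BoundedContinuousFunction.mul_apply]
  push_cast
  ring

end Pool.Agent.Lib.MP_28d281_gt
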