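import Pool.Agent.Lib.MP_28d281_gt.Disk

/-! The continuous branch of disks. -/

open Matrix Metric Complex Filter Topology MeasureTheory Set
open scoped Real

namespace Pool.Agent.Lib.MP_28d281_gt

variable {κ δ : ℝ}

/-- the disk attached to a solution -/
noncomputable def dsk (κ : ℝ) (S : Sol (ta κ) δ) : ℂ → Fin 3 → ℝ := surf κ (sg κ 0 * S.μ)⁻¹ S.Y

theorem c_pos (hκ : 0 < κ) (S : Sol (ta κ) δ) : 0 < (sg κ 0 * S.μ)⁻¹ := by
  have hσ : 0 < sg κ 0 := by rw [sg_zero]; positivity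
  have hμ : 0 < S.μ := by linarith [S.hμ.1]
  positivity

theorem c_le (hκ : 0 < κ) (S : Sol (ta κ) δ) : (sg κ 0 * S.μ)⁻¹ ≤ (1 + κ ^ 2) / κ := by
  have hμ : 0 < S.μ := by linarith [S.hμ.1]
  rw [sg_zero, inv_le_comm₀ (by positivity) (by positivity), inv_div]
  calc _ = 2 * κ / (1 + κ ^ 2) * (1 / 2) := by ring
    _ ≤ _ := by gcongr; exact S.hμ.1

theorem dsk_cont (S : Sol (ta κ) δ) : Continuous fun x => dsk κ S x ⬝ᵥ nrm (dsk κ S) x := by
  have hX : ContDiff ℝ 2 (dsk κ S) := surf_smooth κ _ S.hY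
  have := nrm_cont hX
  have := hX.continuous
  fun_prop

theorem dens_bd (hκ : 0 < κ) (S : Sol (ta κ) δ) {x : ℂ} (hx : x ≠ 0) (hx1 : ‖x‖ ≤ 1) :
    0 < dsk κ S x ⬝ᵥ nrm (dsk κ S) x ∧
      dsk κ S x ⬝ᵥ nrm (dsk κ S) x ≤ 17 * (1 + κ ^ 2) ^ 3 * κ := by
  obtain ⟨b1, b2, -, b4⟩ := S.bd _ (log_nonneg' hx1) (arg x)
  have hc := c_pos hκ S
  obtain ⟨h1, h2⟩ := xn_bd hκ hc (norm_nonneg x) hx1 b1 b2 b4
  rw [dsk, (pw2 hκ S hc hx hx1).2.2]
  refine ⟨h1, h2.trans ?_⟩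
  calc _ ≤ 17 * ((1 + κ ^ 2) / κ) ^ 3 * κ ^ 4 := by gcongr; exact c_le hκ S
    _ = _ := by field_simp

theorem dsk_height (hκ : 0 < κ) (S : Sol (ta κ) δ) (z : ℂ) :
    dsk κ S z 2 = κ * (1 - normSq z) / (S.μ * (1 + κ ^ 2 * normSq z)) := by
  have hμ : 0 < S.μ := by linarith [S.hμ.1]
  have a := normSq_nonneg z
  have : dsk κ S z 2 = (sg κ 0 * S.μ)⁻¹ * ver κ z := by simp [dsk, surf]
  rw [this, ver, ta_zero, sg_zero]
  field_simp
  ring

theorem dsk_cmc (hκ : 0 < κ) (S : Sol (ta κ) δ) :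
    IsCMCDisk (dsk κ S) (range (crv (q0 δ) (q1 δ))) := by
  have hc := c_pos hκ S
  unfold dsk
  set c := (sg κ 0 * S.μ)⁻¹ with hcdef
  set X := surf κ c S.Y with hXdef
  have hX : ContDiff ℝ 2 X := surf_smooth κ c S.hY
  have cN : Continuous fun x => nrm X x ⬝ᵥ nrm X x := by
    have := nrm_cont hX
    fun_prop
  have cH : Continuous fun x => numer X x - 2 * (-c⁻¹) * √(nrm X x ⬝ᵥ nrm X x) ^ 3 :=
    (numer_cont hX).sub (continuous_const.mul (cN.sqrt.pow 3))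
  have all : ∀ {f : ℂ → ℝ}, Continuous f →
      (∀ x, x ≠ 0 → ‖x‖ ≤ 1 → 0 ≤ f x) → ∀ x ∈ closedBall (0 : ℂ) 1, 0 ≤ f x :=
    fun hf h x hx => by
      by_cases hx0 : x = 0
      · rw [hx0]; exact at_zero hf one_pos h
      · exact h x hx0 (mem_closedBall_zero_iff.mp hx)
  have p1 := all (cN.sub (continuous_const (y := c ^ 4 * (κ / (1 + κ ^ 2)) ^ 4)))
    fun x hx hx1 => sub_nonneg.mpr (pw2 hκ S hc hx hx1).1
  have p2 := all cH fun x hx hx1 => sub_nonneg.mpr (pw2 hκ S hc hx hx1).2.1.ge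
  have p2' := all cH.neg fun x hx hx1 =>
    neg_nonneg.mpr (sub_nonpos.mpr (pw2 hκ S hc hx hx1).2.1.le)
  have hpos : ∀ z ∈ closedBall (0 : ℂ) 1, 0 < nrm X z ⬝ᵥ nrm X z := fun z hz => by
    have a := p1 z hz
    have b : 0 < c ^ 4 * (κ / (1 + κ ^ 2)) ^ 4 := by positivity
    simp only [Pi.sub_apply] at a
    linarith
  refine ⟨hX, surf_inj2 hκ S hc, fun z hz e => ?_, ⟨-c⁻¹, fun z hz => ?_⟩, ?_⟩
  · have := hpos z hz
    rw [e, zero_dotProduct] at this
    exact lt_irrefl _ this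
  · refine meanCurv_eq (hpos z hz) ?_
    have a := p2 z hz
    have b := p2' z hz
    simp only [Pi.neg_apply] at b
    linarith
  · ext p
    constructor
    · rintro ⟨z, hz, rfl⟩
      rw [mem_sphere_zero_iff_norm] at hz
      have hz0 : z ≠ 0 := by rw [← norm_pos_iff, hz]; exact one_pos
      have a := exists_xp hz0
      rw [hz, Real.log_one, neg_zero] at a
      exact ⟨_, ⟨arg z, rfl⟩, by rw [← surf_bdry2 hκ S, a]⟩
    · rintro ⟨_, ⟨θ, rfl⟩, rfl⟩
      exact ⟨xp 0 θ, by rw [mem_sphere_zero_iff_norm, norm_xp]; simp, surf_bdry2 hκ S θ⟩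

theorem ae_ball {p : ℂ → Prop} (h : ∀ x, x ≠ 0 → ‖x‖ ≤ 1 → p x) :
    ∀ᵐ x ∂(volume.restrict (closedBall (0 : ℂ) 1)), p x := by
  rw [ae_restrict_iff' measurableSet_closedBall]
  filter_upwards [compl_mem_ae_iff.mpr (measure_singleton (0 : ℂ))] with x hx hx1
  exact h x hx (mem_closedBall_zero_iff.mp hx1)

theorem vol_ball {r : ℝ} (hr : 0 ≤ r) :
    (volume : Measure ℂ).real (closedBall (0 : ℂ) r) = r ^ 2 * π := by
  rw [Measure.real, Complex.volume_closedBall]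
  simp [ENNReal.toReal_ofReal hr]

theorem vol_up (hκ : 0 < κ) (S : Sol (ta κ) δ) : vol (dsk κ S) ≤ 23 * (1 + κ ^ 2) ^ 3 * κ := by
  have : IsFiniteMeasure (volume.restrict (closedBall (0 : ℂ) 1)) :=
    isFiniteMeasure_restrict.mpr measure_closedBall_lt_top.ne
  have h := norm_integral_le_of_norm_le_const (μ := volume.restrict (closedBall (0 : ℂ) 1))
    (f := fun x => dsk κ S x ⬝ᵥ nrm (dsk κ S) x) (C := 17 * (1 + κ ^ 2) ^ 3 * κ)
    (ae_ball fun x hx hx1 => by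
      rw [Real.norm_of_nonneg (dens_bd hκ S hx hx1).1.le]; exact (dens_bd hκ S hx hx1).2)
  rw [measureReal_restrict_apply_univ, vol_ball zero_le_one] at h
  have h2 := (le_abs_self _).trans h
  have h3 : 0 ≤ (1 + κ ^ 2) ^ 3 * κ := by positivity
  unfold vol
  nlinarith [Real.pi_le_four]

theorem vol_low (hκ : 1 ≤ κ) (S : Sol (ta κ) δ) : κ / 128 ≤ vol (dsk κ S) := by
  have hκ0 : 0 < κ := by linarith
  have hc := c_pos hκ0 S
  have cX := dsk_cont S
  have hμ : 0 < S.μ := by linarith [S.hμ.1]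
  have hκ1 : κ⁻¹ ≤ 1 := inv_le_one_of_one_le₀ hκ
  have p3 := ae_ball fun x hx hx1 => (dens_bd hκ0 S hx hx1).1.le
  unfold vol
  unfold dsk at *
  set c := (sg κ 0 * S.μ)⁻¹ with hcdef
  set X := surf κ c S.Y with hXdef
  have p4 : ∀ x ∈ closedBall (0 : ℂ) κ⁻¹, c ^ 3 * κ ^ 2 / 2 ≤ X x ⬝ᵥ nrm X x := fun x hx => by
    have h := fun x hx (hx1 : ‖x‖ ≤ κ⁻¹) =>
      sub_nonneg.mpr ((pointwise (x := x) hκ S hc hx (hx1.trans hκ1)).2.2.2 hx1)
    by_cases hx0 : x = 0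
    · rw [hx0]
      exact sub_nonneg.mp (at_zero (cX.sub continuous_const) (inv_pos.mpr hκ0) h)
    · exact sub_nonneg.mp (h x hx0 (mem_closedBall_zero_iff.mp hx))
  have i1 : IntegrableOn (fun x => X x ⬝ᵥ nrm X x) (closedBall (0 : ℂ) 1) :=
    cX.continuousOn.integrableOn_compact (isCompact_closedBall _ _)
  have i2 : ∫ z in closedBall (0 : ℂ) κ⁻¹, X z ⬝ᵥ nrm X z ≤
      ∫ z in closedBall (0 : ℂ) 1, X z ⬝ᵥ nrm X z :=
    setIntegral_mono_set i1 p3 (closedBall_subset_closedBall hκ1).eventuallyLE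
  have i3 : (c ^ 3 * κ ^ 2 / 2) * (volume : Measure ℂ).real (closedBall (0 : ℂ) κ⁻¹) ≤
      ∫ z in closedBall (0 : ℂ) κ⁻¹, X z ⬝ᵥ nrm X z :=
    setIntegral_ge_of_const_le_real measurableSet_closedBall measure_closedBall_lt_top.ne p4
      (i1.mono_set (closedBall_subset_closedBall hκ1))
  have i5 : κ / 4 ≤ c := by
    rw [hcdef, sg_zero, le_inv_comm₀ (by positivity) (by positivity)]
    calc _ ≤ 2 * κ / κ ^ 2 * 2 := by
          gcongr
          · linarith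
          · exact S.hμ.2
      _ = _ := by field_simp; norm_num
  have i6 : κ / 64 ≤ c ^ 3 := by
    calc κ / 64 ≤ (κ / 4) ^ 3 := by nlinarith [mul_le_mul hκ hκ zero_le_one (by linarith)]
      _ ≤ _ := by gcongr
  have i7 : c ^ 3 * κ ^ 2 / 2 * (κ⁻¹ ^ 2 * π) = c ^ 3 * π / 2 := by field_simp
  rw [vol_ball (inv_nonneg.mpr hκ0.le), i7] at i3
  nlinarith [Real.pi_gt_three, pow_pos hc 3]

theorem xn_cont {c v vs vtt : ℝ → ℝ} (E : ℝ) (h1 : ContinuousAt c κ) (h2 : ContinuousAt v κ)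
    (h3 : ContinuousAt vs κ) (h4 : ContinuousAt vtt κ) :
    ContinuousAt (fun a => xn a (c a) E (v a) (vs a) (vtt a)) κ := by
  have a1 : 1 + κ ^ 2 * E ^ 2 ≠ 0 := by positivity
  have a2 : 1 + κ ^ 2 ≠ 0 := by positivity
  unfold xn
  fun_prop (disch := assumption)

theorem branch (h0 : 0 ≤ δ) (h1 : δ ≤ 1 / 10 ^ 13) : ∃ S : ∀ κ, Sol (ta κ) δ,
    ContinuousOn (fun p : ℝ × ℂ => dsk p.1 (S p.1) p.2) (Ioi 0 ×ˢ closedBall 0 1) ∧
    ContinuousOn (fun κ => vol (dsk κ (S κ))) (Ioi 0) := by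
  obtain ⟨F, hF, cF⟩ := exists_branch h0 h1
  choose S hμ hS using fun κ => sol_of_fix h0 h1 (hF κ).1 (hF κ).2
  have hF1 := fun κ => (hF κ).1
  have cc : ∀ κ, 0 < κ → ContinuousAt (fun a => (sg a 0 * (S a).μ)⁻¹) κ := fun κ hκ => by
    have a1 := mu_cont (cF κ hκ)
    have a2 : 1 + κ ^ 2 ≠ 0 := by positivity
    have a3 := (inv_pos.mp (c_pos hκ (S κ))).ne'
    simp only [hμ, sg_zero] at a3 ⊢
    fun_prop (disch := assumption)
  refine ⟨S, fun p hp => ?_, fun κ hκ => ContinuousAt.continuousWithinAt ?_⟩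
  · have hκ : 0 < p.1 := hp.1
    have hY : ∀ a, ∀ x ∈ closedBall (0 : ℂ) 1,
        ‖(S a).Y x - (S p.1).Y x‖ ≤ 3 * ‖F a - F p.1‖ := fun a x hx => by
      by_cases hx0 : x = 0
      · rw [hx0, (S a).Y0, (S p.1).Y0, sub_zero, norm_zero]; positivity
      have hs := log_nonneg' (mem_closedBall_zero_iff.mp hx)
      have b1 := (good_cV h0 h1).ev_le (hF1 a) (hF1 p.1) hs (arg x)
      have b2 := (good_cT h0 h1).ev_le (hF1 a) (hF1 p.1) hs (arg x)
      rw [← exists_xp hx0, xp, (S a).Yexp, (S p.1).Yexp, (hS a _ hs _).1, (hS p.1 _ hs _).1,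
        (hS a _ hs _).2.2.1, (hS p.1 _ hs _).2.2.1, add_sub_add_comm, ← sub_mul, ← ofReal_sub,
        ← ofReal_sub, ← sub_re, ← sub_re, ← mul_sub]
      refine (norm_add_le _ _).trans ?_
      rw [norm_mul, norm_I, mul_one, norm_real, norm_real, Real.norm_eq_abs, Real.norm_eq_abs]
      refine (add_le_add (abs_re_le_norm _) (abs_re_le_norm _)).trans ?_
      rw [norm_mul, norm_I, one_mul]
      linarith [norm_nonneg (F a - F p.1)]
    have cY : ContinuousWithinAt (fun r : ℝ × ℂ => (S r.1).Y r.2) (Ioi 0 ×ˢ closedBall 0 1) p := by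
      have d1 : ContinuousAt (fun r : ℝ × ℂ => (S p.1).Y r.2) p :=
        ((S p.1).hY.continuous.comp continuous_snd).continuousAt
      have d2 : ContinuousAt (fun r : ℝ × ℂ => F r.1) p := (cF _ hκ).comp continuousAt_fst
      have d3 : Tendsto (fun r : ℝ × ℂ => (S r.1).Y r.2 - (S p.1).Y r.2)
          (𝓝[Ioi 0 ×ˢ closedBall 0 1] p) (𝓝 0) := by
        refine squeeze_zero_norm' ?_ (by
          simpa only [mul_zero] using ((tendsto_iff_norm_sub_tendsto_zero.mp d2).const_mul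
            3).mono_left nhdsWithin_le_nhds)
        filter_upwards [self_mem_nhdsWithin] with r hr using hY r.1 r.2 hr.2
      simpa [ContinuousWithinAt] using d3.add d1.continuousWithinAt
    have c1 : ContinuousWithinAt (fun r : ℝ × ℂ => (sg r.1 0 * (S r.1).μ)⁻¹)
        (Ioi 0 ×ˢ closedBall 0 1) p := ((cc _ hκ).comp continuousAt_fst).continuousWithinAt
    have q1 : ∀ r : ℝ × ℂ, 1 + r.1 ^ 2 * normSq r.2 ≠ 0 := fun r => by
      have := normSq_nonneg r.2
      positivity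
    have q2 : ∀ r : ℝ × ℂ, 1 + r.1 ^ 2 ≠ 0 := fun r => by positivity
    have c2 : Continuous fun r : ℝ × ℂ => ((2 * r.1 / (1 + r.1 ^ 2 * normSq r.2) : ℝ) : ℂ) * r.2 := by
      fun_prop (disch := assumption)
    have c3 : ContinuousWithinAt (fun r : ℝ × ℂ => hor r.1 (S r.1).Y r.2)
        (Ioi 0 ×ˢ closedBall 0 1) p := c2.continuousWithinAt.mul (cY.const_add 1)
    have c4 : Continuous fun r : ℝ × ℂ => ver r.1 r.2 := by
      simp only [ver, ta_zero]
      fun_prop (disch := assumption)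
    refine continuousWithinAt_pi.mpr fun i => ?_
    fin_cases i
    · exact c1.mul (continuous_re.continuousAt.comp_continuousWithinAt c3)
    · exact c1.mul (continuous_im.continuousAt.comp_continuousWithinAt c3)
    · exact c1.mul c4.continuousWithinAt
  · have hκ : 0 < κ := hκ
    refine continuousAt_const.mul (continuousAt_of_dominated
      (bound := fun _ => 17 * (1 + (κ + 1) ^ 2) ^ 3 * (κ + 1))
      (Eventually.of_forall fun a => (dsk_cont (S a)).aestronglyMeasurable) ?_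
      (integrableOn_const measure_closedBall_lt_top.ne) (ae_ball fun x hx hx1 => ?_))
    · filter_upwards [Ioo_mem_nhds hκ (lt_add_one κ)] with a ha
      refine ae_ball fun x hx hx1 => ?_
      obtain ⟨b1, b2⟩ := dens_bd ha.1 (S a) hx hx1
      rw [Real.norm_of_nonneg b1.le]
      refine b2.trans ?_
      have := ha.1.le
      have := ha.2.le
      gcongr
    · have hs := log_nonneg' hx1
      have e1 := (good_cV h0 h1).ev_cont hF1 (cF κ hκ) hs (arg x)
      have e2 := (good_cS h0 h1).ev_cont hF1 (cF κ hκ) hs (arg x)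
      have e3 := (good_cQ h0 h1).ev_cont hF1 (cF κ hκ) hs (arg x)
      refine (xn_cont ‖x‖ (cc κ hκ) (continuous_re.continuousAt.comp e1)
        (continuous_re.continuousAt.comp e2)
        (continuous_re.continuousAt.comp ((e3.const_mul I).const_mul I))).congr ?_
      filter_upwards [Ioi_mem_nhds hκ] with a ha
      rw [dsk, (pw2 ha (S a) (c_pos ha (S a)) hx hx1).2.2, (hS a _ hs _).1, (hS a _ hs _).2.1,
        (hS a _ hs _).2.2.2]
      rfl

theorem exists_branch_disk (h0 : 0 ≤ δ) (h1 : δ ≤ 1 / 10 ^ 13) : ∃ X : ℝ → ℂ → Fin 3 → ℝ,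
    (∀ t, 0 < t → IsCMCDisk (X t) (range (crv (q0 δ) (q1 δ))) ∧
      (∀ z ∈ ball (0 : ℂ) 1, 0 < X t z 2 ∧ X t z 2 ≤ 2 * t) ∧
      ∀ z ∈ sphere (0 : ℂ) 1, nrm (X t) z 0 ≠ 0 ∨ nrm (X t) z 1 ≠ 0) ∧
    ContinuousOn (fun p : ℝ × ℂ => X p.1 p.2) (Ioi 0 ×ˢ closedBall 0 1) ∧
    ContinuousOn (fun t => vol (X t)) (Ioi 0) ∧ Tendsto (fun t => vol (X t)) (𝓝[>] 0) (𝓝 0) ∧
    Tendsto (fun t => vol (X t)) atTop atTop ∧ ∀ V, 0 < V → ∃ t, 0 < t ∧ vol (X t) = V := by
  obtain ⟨S, c1, c2⟩ := branch h0 h1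
  refine ⟨fun t => dsk t (S t), fun t ht => ⟨dsk_cmc ht _, fun z hz => ?_, fun z hz => ?_⟩, c1, c2,
    ?_, ?_, fun V hV => ?_⟩
  · have a := normSq_nonneg z
    have b : 0 < 1 - normSq z := by
      rw [normSq_eq_norm_sq, sub_pos]
      exact pow_lt_one₀ (norm_nonneg _) (mem_ball_zero_iff.mp hz) two_ne_zero
    have hμ := (S t).hμ.1
    have hμ0 : 0 < (S t).μ := by linarith
    simp only [dsk_height ht]
    refine ⟨by positivity, ?_⟩
    rw [div_le_iff₀ (by positivity)]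
    have d : 1 / 2 * 1 ≤ (S t).μ * (1 + t ^ 2 * normSq z) := by
      gcongr
      nlinarith [sq_nonneg t]
    nlinarith
  · rw [mem_sphere_zero_iff_norm] at hz
    have hz0 : z ≠ 0 := by rw [← norm_pos_iff, hz]; exact one_pos
    have a := (dens_bd ht (S t) hz0 hz.le).1
    have b : dsk t (S t) z 2 = 0 := by rw [dsk_height ht, normSq_eq_norm_sq, hz]; simp
    by_contra hc
    push Not at hc
    simp [dotProduct, Fin.sum_univ_three, b, hc.1, hc.2] at a
  · have a : Continuous fun t : ℝ => 23 * (1 + t ^ 2) ^ 3 * t := by fun_prop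
    refine squeeze_zero' ?_ ?_ (by simpa using (a.tendsto 0).mono_left nhdsWithin_le_nhds)
    · filter_upwards [self_mem_nhdsWithin] with t ht
      exact mul_nonneg (by norm_num)
        (integral_nonneg_of_ae (ae_ball fun x hx hx1 => (dens_bd ht (S t) hx hx1).1.le))
    · filter_upwards [self_mem_nhdsWithin] with t ht using vol_up ht _
  · refine tendsto_atTop_mono' _ ?_ (tendsto_id.atTop_div_const (by norm_num : (0 : ℝ) < 128))
    filter_upwards [eventually_ge_atTop 1] with t ht using vol_low ht _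
  · have ha : 0 < min 1 (V / 200) := lt_min one_pos (by positivity)
    have ha1 : min 1 (V / 200) ≤ 1 := min_le_left _ _
    have ha2 : min 1 (V / 200) ≤ V / 200 := min_le_right _ _
    have hb1 : 1 ≤ max 1 (128 * V) := le_max_left _ _
    have hb2 : 128 * V ≤ max 1 (128 * V) := le_max_right _ _
    generalize min 1 (V / 200) = a at *
    generalize max 1 (128 * V) = b at *
    have l1 : vol (dsk a (S a)) ≤ V := by
      refine (vol_up ha _).trans ?_
      calc _ ≤ 23 * (1 + 1 ^ 2) ^ 3 * (V / 200) := by gcongr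
        _ ≤ _ := by linarith
    have l2 : V ≤ vol (dsk b (S b)) := le_trans (by linarith) (vol_low hb1 _)
    obtain ⟨t, ht, e⟩ := intermediate_value_Icc (ha1.trans hb1)
      (c2.mono fun t ht => ha.trans_le ht.1) ⟨l1, l2⟩
    exact ⟨t, ha.trans_le ht.1, e⟩

end Pool.Agent.Lib.MP_28d281_gt
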