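import Mathlib

open Complex Set Metric Filter Topology
open scoped Real

namespace Pool.Agent.Lib.MP_28d281_gt

structure Supp (p p1 p2 : ℝ → ℝ) : Prop where
  d1 : ∀ θ, HasDerivAt p (p1 θ) θ
  d2 : ∀ θ, HasDerivAt p1 (p2 θ) θ
  pos : ∀ θ, 0 < p θ + p2 θ
  per : Function.Periodic p (2 * π)
  per1 : Function.Periodic p1 (2 * π)

noncomputable def crv (p p1 : ℝ → ℝ) (θ : ℝ) : ℂ := (p θ + p1 θ * I) * exp (θ * I)

theorem crv_re (p p1 : ℝ → ℝ) (θ : ℝ) :
    (crv p p1 θ).re = p θ * Real.cos θ - p1 θ * Real.sin θ := by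
  simp [crv, exp_ofReal_mul_I_re, exp_ofReal_mul_I_im]

theorem crv_im (p p1 : ℝ → ℝ) (θ : ℝ) :
    (crv p p1 θ).im = p θ * Real.sin θ + p1 θ * Real.cos θ := by
  simp [crv, exp_ofReal_mul_I_re, exp_ofReal_mul_I_im]

noncomputable def hgt (z : ℂ) (φ : ℝ) : ℝ := z.re * Real.cos φ + z.im * Real.sin φ

theorem hgt_crv (p p1 : ℝ → ℝ) (θ φ : ℝ) :
    hgt (crv p p1 θ) φ = p θ * Real.cos (θ - φ) - p1 θ * Real.sin (θ - φ) := by
  rw [hgt, crv_re, crv_im, Real.cos_sub, Real.sin_sub]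
  ring

theorem hgt_self (p p1 : ℝ → ℝ) (θ : ℝ) : hgt (crv p p1 θ) θ = p θ := by
  simp [hgt_crv]

theorem hgt_le (z : ℂ) (φ : ℝ) : hgt z φ ≤ ‖z‖ := by
  have : hgt z φ = (z * exp (((-φ : ℝ) : ℂ) * I)).re := by
    rw [mul_re, exp_ofReal_mul_I_re, exp_ofReal_mul_I_im, hgt]
    simp
  rw [this]
  refine (re_le_norm _).trans ?_
  rw [norm_mul, norm_exp_ofReal_mul_I, mul_one]

theorem hgt_add (z w : ℂ) (φ : ℝ) : hgt (z + w) φ = hgt z φ + hgt w φ := by
  simp [hgt]; ring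

variable {p p1 p2 : ℝ → ℝ}

theorem Supp.crv_per (h : Supp p p1 p2) : Function.Periodic (crv p p1) (2 * π) := fun θ => by
  simp only [crv, h.per θ, h.per1 θ]
  push_cast
  rw [add_mul (θ : ℂ), exp_add, exp_two_pi_mul_I, mul_one]

theorem Supp.hgt_lt (h : Supp p p1 p2) {θ φ : ℝ} (hne : ∀ n : ℤ, θ ≠ φ + n * (2 * π)) :
    hgt (crv p p1 θ) φ < p φ := by
  set g : ℝ → ℝ := fun θ => hgt (crv p p1 θ) φ with hg
  have hd : ∀ θ, HasDerivAt g (-(p θ + p2 θ) * Real.sin (θ - φ)) θ := fun θ => by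
    simp only [hg, hgt_crv]
    have a := ((hasDerivAt_id θ).sub_const φ).cos
    have b := ((hasDerivAt_id θ).sub_const φ).sin
    refine (((h.d1 θ).mul a).sub ((h.d2 θ).mul b)).congr_deriv ?_
    simp
    ring
  have hc : Continuous g := continuous_iff_continuousAt.mpr fun θ => (hd θ).continuousAt
  have hper : Function.Periodic g (2 * π) := fun θ => by simp only [hg, h.crv_per θ]
  have h0 : g φ = p φ := hgt_self _ _ _
  set t := toIocMod Real.two_pi_pos (φ - π) θ with ht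
  have ht1 := toIocMod_mem_Ioc Real.two_pi_pos (φ - π) θ
  have ht2 : t = θ - toIocDiv Real.two_pi_pos (φ - π) θ • (2 * π) := rfl
  have ht3 : g t = g θ := by rw [ht2]; exact hper.sub_zsmul_eq _
  have ht4 : t ≠ φ := fun e => hne (toIocDiv Real.two_pi_pos (φ - π) θ) (by
    rw [zsmul_eq_mul] at ht2; linarith)
  change g θ < p φ
  rw [← ht3, ← h0]
  rw [← ht] at ht1
  rcases lt_or_gt_of_ne ht4 with hlt | hgt'
  · have hm : StrictMonoOn g (Icc (φ - π) φ) := by
      refine strictMonoOn_of_deriv_pos (convex_Icc _ _) hc.continuousOn fun x hx => ?_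
      rw [interior_Icc] at hx
      rw [(hd x).deriv]
      have := Real.sin_neg_of_neg_of_neg_pi_lt (x := x - φ) (by linarith [hx.2])
        (by linarith [hx.1])
      nlinarith [h.pos x]
    exact hm ⟨ht1.1.le, hlt.le⟩ ⟨by linarith [Real.pi_pos], le_rfl⟩ hlt
  · have hm : StrictAntiOn g (Icc φ (φ + π)) := by
      refine strictAntiOn_of_deriv_neg (convex_Icc _ _) hc.continuousOn fun x hx => ?_
      rw [interior_Icc] at hx
      rw [(hd x).deriv]
      have := Real.sin_pos_of_pos_of_lt_pi (x := x - φ) (by linarith [hx.1])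
        (by linarith [hx.2])
      nlinarith [h.pos x]
    exact hm ⟨le_rfl, by linarith [Real.pi_pos]⟩ ⟨hgt'.le, by linarith [ht1.2]⟩ hgt'

theorem Supp.hgt_le (h : Supp p p1 p2) (θ φ : ℝ) : hgt (crv p p1 θ) φ ≤ p φ := by
  by_cases hne : ∀ n : ℤ, θ ≠ φ + n * (2 * π)
  · exact (h.hgt_lt hne).le
  · push Not at hne
    obtain ⟨n, hn⟩ := hne
    rw [hn, h.crv_per.int_mul n φ, hgt_self]

theorem Supp.inj (h : Supp p p1 p2) {θ φ : ℝ} (e : crv p p1 θ = crv p p1 φ) :
    ∃ n : ℤ, θ = φ + n * (2 * π) := by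
  by_contra hne
  push Not at hne
  have := h.hgt_lt hne
  rw [e, hgt_self] at this
  exact lt_irrefl _ this

def body (p : ℝ → ℝ) : Set ℂ := {z | ∀ φ, hgt z φ ≤ p φ}

theorem convex_body (p : ℝ → ℝ) : Convex ℝ (body p) := by
  intro x hx y hy a b ha hb hab φ
  have e : hgt (a • x + b • y) φ = a * hgt x φ + b * hgt y φ := by simp [hgt]; ring
  rw [e]
  calc _ ≤ a * p φ + b * p φ := by
        gcongr
        exacts [hx φ, hy φ]
    _ = p φ := by rw [← add_mul, hab, one_mul]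

theorem isClosed_body (p : ℝ → ℝ) : IsClosed (body p) := by
  simp only [body, Set.ofPred_forall]
  exact isClosed_iInter fun φ => isClosed_le (by unfold hgt; fun_prop) continuous_const

theorem isCompact_body {p : ℝ → ℝ} (hp : ∀ φ, p φ ≤ 2) : IsCompact (body p) := by
  refine (isCompact_closedBall (0 : ℂ) 2).of_isClosed_subset (isClosed_body p) fun z hz => ?_
  have h1 := hz (arg z)
  have h2 : hgt z (arg z) = ‖z‖ := by
    have a := norm_mul_cos_arg z
    have b := norm_mul_sin_arg z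
    have c := Real.sin_sq_add_cos_sq (arg z)
    unfold hgt
    linear_combination (-Real.cos (arg z)) * a - Real.sin (arg z) * b + ‖z‖ * c
  rw [mem_closedBall_zero_iff]
  linarith [hp (arg z)]

theorem interior_body {p : ℝ → ℝ} (hp : ∀ φ, 1 / 2 ≤ p φ) : (interior (body p)).Nonempty := by
  refine ⟨0, mem_interior_iff_mem_nhds.mpr (mem_of_superset (ball_mem_nhds 0 one_half_pos) ?_)⟩
  intro z hz φ
  rw [mem_ball_zero_iff] at hz
  linarith [hgt_le z φ, hp φ]

theorem Supp.frontier_body (h : Supp p p1 p2) : frontier (body p) = range (crv p p1) := by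
  rw [(isClosed_body p).frontier_eq]
  have hpc : Continuous p := continuous_iff_continuousAt.mpr fun θ => (h.d1 θ).continuousAt
  ext x
  constructor
  · rintro ⟨hx, hx'⟩
    have hex : ∃ φ, hgt x φ = p φ := by
      by_contra hne
      push Not at hne
      have hc : Continuous fun φ => p φ - hgt x φ := by unfold hgt; fun_prop
      obtain ⟨φ0, -, hmin⟩ := (isCompact_Icc (a := (0 : ℝ)) (b := 2 * π)).exists_isMinOn
        ⟨0, le_rfl, Real.two_pi_pos.le⟩ hc.continuousOn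
      have hm : 0 < p φ0 - hgt x φ0 := sub_pos.mpr (lt_of_le_of_ne (hx φ0) (hne φ0))
      have hper : Function.Periodic (fun φ => p φ - hgt x φ) (2 * π) := fun φ => by
        simp only [hgt, h.per φ, Real.cos_add_two_pi, Real.sin_add_two_pi]
      refine hx' (mem_interior_iff_mem_nhds.mpr (mem_of_superset (ball_mem_nhds x hm) ?_))
      intro z hz φ
      obtain ⟨ψ, hψ, e⟩ := hper.exists_mem_Ico₀ Real.two_pi_pos φ
      have h1 : p φ0 - hgt x φ0 ≤ p ψ - hgt x ψ := hmin ⟨hψ.1, hψ.2.le⟩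
      have h2 : hgt z φ = hgt x φ + hgt (z - x) φ := by rw [← hgt_add]; simp
      rw [mem_ball, dist_eq_norm] at hz
      have h3 := MP_28d281_gt.hgt_le (z - x) φ
      linarith
    obtain ⟨φ, hφ⟩ := hex
    have hmin : IsLocalMin (fun ψ => p ψ - hgt x ψ) φ :=
      Eventually.of_forall fun ψ => by simp only [hφ, sub_self, sub_nonneg]; exact hx ψ
    have hd : HasDerivAt (fun ψ => p ψ - hgt x ψ)
        (p1 φ - (x.re * -Real.sin φ + x.im * Real.cos φ)) φ :=
      (h.d1 φ).sub (((Real.hasDerivAt_cos φ).const_mul _).add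
        ((Real.hasDerivAt_sin φ).const_mul _))
    have h0 := hmin.hasDerivAt_eq_zero hd
    have c := Real.sin_sq_add_cos_sq φ
    unfold hgt at hφ
    refine ⟨φ, Complex.ext ?_ ?_⟩
    · rw [crv_re]
      linear_combination (-Real.cos φ) * hφ - Real.sin φ * h0 + x.re * c
    · rw [crv_im]
      linear_combination (-Real.sin φ) * hφ + Real.cos φ * h0 + x.im * c
  · rintro ⟨θ, rfl⟩
    refine ⟨fun φ => h.hgt_le θ φ, fun hi => ?_⟩
    obtain ⟨ε, hε, hb⟩ := Metric.mem_nhds_iff.mp (mem_interior_iff_mem_nhds.mp hi)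
    have h1 : crv p p1 θ + ((ε / 2 : ℝ) : ℂ) * exp (θ * I) ∈ ball (crv p p1 θ) ε := by
      rw [mem_ball, dist_eq_norm, add_sub_cancel_left, norm_mul, norm_exp_ofReal_mul_I, norm_real,
        Real.norm_of_nonneg (by positivity)]
      linarith
    have h2 := hb h1 θ
    rw [hgt_add, hgt_self] at h2
    have h3 : hgt (((ε / 2 : ℝ) : ℂ) * exp (θ * I)) θ = ε / 2 := by
      have c := Real.sin_sq_add_cos_sq θ
      rw [hgt, re_ofReal_mul, im_ofReal_mul, exp_ofReal_mul_I_re, exp_ofReal_mul_I_im]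
      linear_combination (ε / 2) * c
    linarith

theorem Supp.crv_deriv (h : Supp p p1 p2) (θ : ℝ) :
    HasDerivAt (crv p p1) (((p θ + p2 θ : ℝ) : ℂ) * I * exp (θ * I)) θ := by
  have a : HasDerivAt (fun θ : ℝ => exp (θ * I)) (exp (θ * I) * I) θ := by
    simpa using ((hasDerivAt_id θ).ofReal_comp.mul_const I).cexp
  refine (((h.d1 θ).ofReal_comp.add ((h.d2 θ).ofReal_comp.mul_const I)).mul a).congr_deriv ?_
  simp only [Pi.add_apply]
  push_cast
  linear_combination (p1 θ * exp (θ * I)) * I_mul_I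

noncomputable def q0 (δ θ : ℝ) : ℝ := 1 + δ * Real.cos (64 * θ)
noncomputable def q1 (δ θ : ℝ) : ℝ := -(64 * δ * Real.sin (64 * θ))
noncomputable def q2 (δ θ : ℝ) : ℝ := -(4096 * δ * Real.cos (64 * θ))

theorem q0_deriv (δ θ : ℝ) : HasDerivAt (q0 δ) (q1 δ θ) θ := by
  refine ((((hasDerivAt_id θ).const_mul 64).cos.const_mul δ).const_add 1).congr_deriv ?_
  simp [q1]; ring

theorem q1_deriv (δ θ : ℝ) : HasDerivAt (q1 δ) (q2 δ θ) θ := by
  refine ((((hasDerivAt_id θ).const_mul 64).sin.const_mul (64 * δ)).neg).congr_deriv ?_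
  simp [q2]; ring

theorem supp_q {δ : ℝ} (h0 : 0 ≤ δ) (h1 : δ ≤ 1 / 10 ^ 13) : Supp (q0 δ) (q1 δ) (q2 δ) where
  d1 := q0_deriv δ
  d2 := q1_deriv δ
  pos θ := by
    unfold q0 q2
    nlinarith [Real.cos_le_one (64 * θ)]
  per θ := by
    have : 64 * (θ + 2 * π) = 64 * θ + (64 : ℕ) * (2 * π) := by push_cast; ring
    simp only [q0, this, Real.cos_add_nat_mul_two_pi]
  per1 θ := by
    have : 64 * (θ + 2 * π) = 64 * θ + (64 : ℕ) * (2 * π) := by push_cast; ring
    simp only [q1, this, Real.sin_add_nat_mul_two_pi]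

theorem crv_q_smooth (δ : ℝ) : ContDiff ℝ ⊤ (crv (q0 δ) (q1 δ)) := by
  have hr : ContDiff ℝ ⊤ (fun x : ℝ => (x : ℂ)) := ofRealCLM.contDiff
  unfold crv q0 q1
  refine ContDiff.mul (ContDiff.add (hr.comp (by fun_prop))
    ((hr.comp (by fun_prop)).mul contDiff_const)) ?_
  exact (hr.mul contDiff_const).cexp

theorem crv_q_curv {δ : ℝ} (h0 : 0 ≤ δ) (h1 : δ ≤ 1 / 10 ^ 13) (t : ℝ) :
    0 < ((starRingEnd ℂ) (deriv (crv (q0 δ) (q1 δ)) t) *
      deriv (deriv (crv (q0 δ) (q1 δ))) t).im := by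
  have h := supp_q h0 h1
  have e : deriv (crv (q0 δ) (q1 δ)) =
      fun θ : ℝ => ((q0 δ θ + q2 δ θ : ℝ) : ℂ) * I * exp (θ * I) :=
    funext fun θ => (h.crv_deriv θ).deriv
  have a : HasDerivAt (fun θ : ℝ => exp (θ * I)) (exp (t * I) * I) t := by
    simpa using ((hasDerivAt_id t).ofReal_comp.mul_const I).cexp
  have b : DifferentiableAt ℝ (fun θ => q0 δ θ + q2 δ θ) t := by
    unfold q0 q2; fun_prop
  have c := ((b.hasDerivAt.ofReal_comp.mul_const I).mul a).deriv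
  rw [e]
  erw [c]
  beta_reduce
  have hp := h.pos t
  generalize deriv (fun θ => q0 δ θ + q2 δ θ) t = d
  generalize q0 δ t + q2 δ t = r at hp ⊢
  have c := Real.sin_sq_add_cos_sq t
  simp [exp_ofReal_mul_I_re, exp_ofReal_mul_I_im]
  nlinarith [mul_pos hp hp]

theorem not_circle {δ : ℝ} (h0 : 0 < δ) (h1 : δ ≤ 1 / 10 ^ 13) (c : ℂ) (r : ℝ) :
    range (crv (q0 δ) (q1 δ)) ≠ sphere c r := by
  intro e
  have h := supp_q h0.le h1
  have hm : ∀ θ, (c.re - (crv (q0 δ) (q1 δ) θ).re) ^ 2 + (c.im - (crv (q0 δ) (q1 δ) θ).im) ^ 2 =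
      r ^ 2 := fun θ => by
    have : crv (q0 δ) (q1 δ) θ ∈ sphere c r := e ▸ mem_range_self θ
    rw [mem_sphere, dist_comm, Complex.dist_eq_re_im] at this
    rw [← this, Real.sq_sqrt (by positivity)]
  have k : ∀ n : ℕ, Real.cos (n * (2 * π)) = 1 ∧ Real.sin (n * (2 * π)) = 0 := fun n =>
    ⟨Real.cos_nat_mul_two_pi n, by
      have : (n : ℝ) * (2 * π) = ((2 * n : ℕ) : ℝ) * π := by push_cast; ring
      rw [this, Real.sin_nat_mul_pi]⟩
  have a1 := hm 0
  have a2 := hm π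
  have a3 := hm (π / 2)
  have a4 := hm (π / 64)
  have b2 : 64 * π = (32 : ℕ) * (2 * π) := by push_cast; ring
  have b3 : 64 * (π / 2) = (16 : ℕ) * (2 * π) := by push_cast; ring
  have b4 : 64 * (π / 64) = π := by ring
  simp only [crv_re, crv_im, q0, q1, b2, b3, b4, (k _).1, (k _).2, mul_zero, Real.cos_zero,
    Real.sin_zero, Real.cos_pi, Real.sin_pi, Real.cos_pi_div_two, Real.sin_pi_div_two] at a1 a2 a3 a4
  have c1 : c.re = 0 := by nlinarith
  have c2 : c.im = 0 := by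
    rw [c1] at a1 a3
    nlinarith
  rw [c1, c2] at a1 a4
  have c := Real.sin_sq_add_cos_sq (π / 64)
  have : (1 + δ) ^ 2 = (1 - δ) ^ 2 := by nlinarith
  nlinarith

end Pool.Agent.Lib.MP_28d281_gt
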