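import Mathlib

open Matrix Metric

namespace Pool.Agent.Lib.MP_28d281_gt

/-- Partial derivative in direction `v` of a map from the parameter plane to 3-space. -/
noncomputable def pd (X : ℂ → Fin 3 → ℝ) (v : ℂ) (z : ℂ) : Fin 3 → ℝ := fderiv ℝ X z v

/-- The normal vector `X_u × X_v`. -/
noncomputable def nrm (X : ℂ → Fin 3 → ℝ) (z : ℂ) : Fin 3 → ℝ :=
  crossProduct (pd X 1 z) (pd X Complex.I z)

/-- Mean curvature `(EN - 2FM + GL) / (2 (EG - F^2))` for the unit normal `ν`. -/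
noncomputable def meanCurv (X : ℂ → Fin 3 → ℝ) (z : ℂ) : ℝ :=
  let E := pd X 1 z ⬝ᵥ pd X 1 z
  let F := pd X 1 z ⬝ᵥ pd X Complex.I z
  let G := pd X Complex.I z ⬝ᵥ pd X Complex.I z
  let ν := (√(nrm X z ⬝ᵥ nrm X z))⁻¹ • nrm X z
  let L := pd (pd X 1) 1 z ⬝ᵥ ν
  let M := pd (pd X 1) Complex.I z ⬝ᵥ ν
  let N := pd (pd X Complex.I) Complex.I z ⬝ᵥ ν
  (E * N - 2 * F * M + G * L) / (2 * (E * G - F ^ 2))

/-- The plane `P = {x₃ = 0}`, identified with `ℂ`. -/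
def inP (w : ℂ) : Fin 3 → ℝ := ![w.re, w.im, 0]

/-- `X` restricted to the closed unit disc is a `C²` embedded disc of constant mean curvature
whose boundary is the planar curve `C`. -/
structure IsCMCDisk (X : ℂ → Fin 3 → ℝ) (C : Set ℂ) : Prop where
  smooth : ContDiff ℝ 2 X
  inj : Set.InjOn X (closedBall 0 1)
  imm : ∀ z ∈ closedBall (0 : ℂ) 1, nrm X z ≠ 0
  cmc : ∃ H : ℝ, ∀ z ∈ closedBall (0 : ℂ) 1, meanCurv X z = H
  bdry : X '' sphere 0 1 = inP '' C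

/-- Algebraic volume `(1/3) ∫ ⟨p, N⟩ dA`. -/
noncomputable def vol (X : ℂ → Fin 3 → ℝ) : ℝ :=
  1 / 3 * ∫ z in closedBall (0 : ℂ) 1, X z ⬝ᵥ nrm X z

end Pool.Agent.Lib.MP_28d281_gt
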