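import Mathlib

open Complex Filter Topology
open scoped Real

namespace Pool.Agent.Lib.MP_28d281_gt

noncomputable def dd (a b : ℂ) : ℂ →L[ℝ] ℂ := reCLM.smulRight a + imCLM.smulRight b

theorem dd_apply (a b v : ℂ) : dd a b v = v.re * a + v.im * b := by
  simp [dd]

def Cls0 (γ : ℝ) (f : ℂ → ℂ) : Prop :=
  Continuous f ∧ Function.Periodic f (2 * π * I) ∧ ∃ C, 0 ≤ C ∧ ∀ u, ‖f u‖ ≤ C * Real.exp (γ * u.re)

def Cls : ℕ → ℝ → (ℂ → ℂ) → Prop
  | 0, γ, f => Cls0 γ f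
  | j + 1, γ, f => Cls0 γ f ∧ ∃ f1 f2, Cls j γ f1 ∧ Cls j γ f2 ∧
      ∀ u, HasFDerivAt f (dd (f1 u) (f2 u)) u

theorem Cls.zero {j : ℕ} {γ : ℝ} {f : ℂ → ℂ} (h : Cls j γ f) : Cls0 γ f := by
  cases j with
  | zero => exact h
  | succ j => exact h.1

theorem Cls.down : ∀ {j : ℕ} {γ : ℝ} {f : ℂ → ℂ}, Cls (j + 1) γ f → Cls j γ f
  | 0, _, _, h => h.1
  | _ + 1, _, _, ⟨h0, f1, f2, h1, h2, h⟩ => ⟨h0, f1, f2, h1.down, h2.down, h⟩

theorem Cls0.add {γ : ℝ} {f g : ℂ → ℂ} (hf : Cls0 γ f) (hg : Cls0 γ g) :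
    Cls0 γ (fun u => f u + g u) := by
  obtain ⟨a1, a2, C, hC, a3⟩ := hf
  obtain ⟨b1, b2, D, hD, b3⟩ := hg
  refine ⟨a1.add b1, fun u => by simp only [a2 u, b2 u], C + D, by positivity, fun u => ?_⟩
  have := norm_add_le (f u) (g u)
  linarith [a3 u, b3 u]

theorem Cls0.mul {γ γ' : ℝ} {f g : ℂ → ℂ} (hf : Cls0 γ f) (hg : Cls0 γ' g) :
    Cls0 (γ + γ') (fun u => f u * g u) := by
  obtain ⟨a1, a2, C, hC, a3⟩ := hf
  obtain ⟨b1, b2, D, hD, b3⟩ := hg
  refine ⟨a1.mul b1, fun u => by simp only [a2 u, b2 u], C * D, by positivity, fun u => ?_⟩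
  rw [norm_mul, add_mul, Real.exp_add]
  calc _ ≤ (C * Real.exp (γ * u.re)) * (D * Real.exp (γ' * u.re)) := by
        gcongr
        exacts [a3 u, b3 u]
    _ = _ := by ring

theorem Cls0.cmul {γ : ℝ} {f : ℂ → ℂ} (hf : Cls0 γ f) (c : ℂ) : Cls0 γ (fun u => c * f u) := by
  obtain ⟨a1, a2, C, hC, a3⟩ := hf
  refine ⟨continuous_const.mul a1, fun u => by simp only [a2 u], ‖c‖ * C, by positivity,
    fun u => ?_⟩
  rw [norm_mul, mul_assoc]
  gcongr
  exact a3 u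

theorem Cls.add : ∀ {j : ℕ} {γ : ℝ} {f g : ℂ → ℂ}, Cls j γ f → Cls j γ g →
    Cls j γ (fun u => f u + g u)
  | 0, _, _, _, hf, hg => Cls0.add hf hg
  | _ + 1, _, _, _, ⟨h0, f1, f2, h1, h2, h⟩, ⟨k0, g1, g2, k1, k2, k⟩ =>
    ⟨h0.add k0, _, _, h1.add k1, h2.add k2, fun u =>
      ((h u).add (k u)).congr_fderiv (by ext1 v; simp [dd_apply]; ring)⟩

theorem Cls.cmul : ∀ {j : ℕ} {γ : ℝ} {f : ℂ → ℂ}, Cls j γ f → ∀ c : ℂ,
    Cls j γ (fun u => c * f u)
  | 0, _, _, hf, c => Cls0.cmul hf c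
  | _ + 1, _, _, ⟨h0, f1, f2, h1, h2, h⟩, c =>
    ⟨h0.cmul c, _, _, h1.cmul c, h2.cmul c, fun u =>
      ((h u).const_mul c).congr_fderiv (by ext1 v; simp [dd_apply]; ring)⟩

theorem Cls.mul : ∀ {j : ℕ} {γ γ' : ℝ} {f g : ℂ → ℂ}, Cls j γ f → Cls j γ' g →
    Cls j (γ + γ') (fun u => f u * g u)
  | 0, _, _, _, _, hf, hg => Cls0.mul hf hg
  | j + 1, γ, γ', f, g, hf, hg => by
    have hf' := hf.down
    have hg' := hg.down
    obtain ⟨h0, f1, f2, h1, h2, h⟩ := hf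
    obtain ⟨k0, g1, g2, k1, k2, k⟩ := hg
    exact ⟨h0.mul k0, _, _, (hf'.mul k1).add (h1.mul hg'), (hf'.mul k2).add (h2.mul hg'), fun u =>
      ((h u).mul (k u)).congr_fderiv (by ext1 v; simp [dd_apply]; ring)⟩

noncomputable def cr (u : ℂ) : ℂ := ((exp (-u)).re : ℂ)
noncomputable def ci (u : ℂ) : ℂ := ((exp (-u)).im : ℂ)

theorem exp_neg_fderiv (u : ℂ) :
    HasFDerivAt (fun u : ℂ => exp (-u)) ((-exp (-u)) • (1 : ℂ →L[ℝ] ℂ)) u := by
  have : HasDerivAt (fun u : ℂ => exp (-u)) (-exp (-u)) u := by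
    simpa using (hasDerivAt_neg u).cexp
  exact this.complexToReal_fderiv

theorem cls0_c : Cls0 (-1) cr ∧ Cls0 (-1) ci := by
  have hp : ∀ u : ℂ, exp (-(u + 2 * π * I)) = exp (-u) := fun u => by
    rw [neg_add, exp_add, exp_neg (2 * π * I), exp_two_pi_mul_I]; simp
  have hn : ∀ u : ℂ, ‖exp (-u)‖ = 1 * Real.exp (-1 * u.re) := fun u => by
    rw [norm_exp]; simp
  refine ⟨⟨by unfold cr; fun_prop, fun u => by simp only [cr, hp], 1, zero_le_one, fun u => ?_⟩,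
    ⟨by unfold ci; fun_prop, fun u => by simp only [ci, hp], 1, zero_le_one, fun u => ?_⟩⟩
  · rw [← hn, cr, norm_real]; exact abs_re_le_norm _
  · rw [← hn, ci, norm_real]; exact abs_im_le_norm _

theorem cls_c : ∀ j : ℕ, Cls j (-1) cr ∧ Cls j (-1) ci
  | 0 => cls0_c
  | j + 1 => by
    obtain ⟨h1, h2⟩ := cls_c j
    refine ⟨⟨cls0_c.1, _, _, h1.cmul (-1), h2, fun u => ?_⟩,
      ⟨cls0_c.2, _, _, h2.cmul (-1), h1.cmul (-1), fun u => ?_⟩⟩
    · refine ((ofRealCLM ∘L reCLM).hasFDerivAt.comp u (exp_neg_fderiv u)).congr_fderiv ?_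
      ext1; simp [dd_apply, cr, ci]; ring
    · refine ((ofRealCLM ∘L imCLM).hasFDerivAt.comp u (exp_neg_fderiv u)).congr_fderiv ?_
      ext1; simp [dd_apply, cr, ci]; ring

noncomputable def desc (f : ℂ → ℂ) (x : ℂ) : ℂ := if x = 0 then 0 else f (log x)

theorem desc_zero (f : ℂ → ℂ) : desc f 0 = 0 := if_pos rfl

theorem desc_exp {f : ℂ → ℂ} (hf : Function.Periodic f (2 * π * I)) (u : ℂ) :
    desc f (exp u) = f u := by
  rw [desc, if_neg (exp_ne_zero u)]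
  obtain ⟨n, hn⟩ := exp_eq_exp_iff_exists_int.mp (exp_log (exp_ne_zero u))
  rw [hn]
  exact hf.int_mul n u

theorem desc_local {f : ℂ → ℂ} (hf : Function.Periodic f (2 * π * I)) {x : ℂ} (hx : x ≠ 0) :
    desc f =ᶠ[𝓝 x] fun y => f (log x + log (y / x)) := by
  filter_upwards [isOpen_ne.mem_nhds hx] with y hy
  rw [← desc_exp hf, exp_add, exp_log hx, exp_log (div_ne_zero hy hx), mul_div_cancel₀ _ hx]

theorem loc_deriv {x : ℂ} (hx : x ≠ 0) :
    HasDerivAt (fun y => log x + log (y / x)) x⁻¹ x := by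
  have h1 : HasDerivAt (fun y : ℂ => y / x) (1 / x) x := (hasDerivAt_id x).div_const x
  have h2 := h1.clog (by rw [div_self hx]; exact one_mem_slitPlane)
  simpa [div_self hx] using h2.const_add (log x)

theorem desc_bound {γ C : ℝ} {f : ℂ → ℂ} (hC : 0 ≤ C)
    (h : ∀ u, ‖f u‖ ≤ C * Real.exp (γ * u.re)) (x : ℂ) : ‖desc f x‖ ≤ C * ‖x‖ ^ γ := by
  by_cases hx : x = 0
  · rw [hx, desc_zero, norm_zero]
    positivity
  · rw [desc, if_neg hx]
    refine (h _).trans (le_of_eq ?_)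
    rw [log_re, Real.rpow_def_of_pos (norm_pos_iff.mpr hx), mul_comm γ]

theorem tendsto_rpow_zero {γ : ℝ} (hγ : 0 < γ) (C : ℝ) :
    Tendsto (fun x : ℂ => C * ‖x‖ ^ γ) (𝓝 0) (𝓝 0) := by
  have : Continuous fun x : ℂ => C * ‖x‖ ^ γ :=
    continuous_const.mul (continuous_norm.rpow_const fun _ => Or.inr hγ.le)
  simpa [Real.zero_rpow hγ.ne'] using this.tendsto 0

theorem desc_cont {γ : ℝ} {f : ℂ → ℂ} (h : Cls0 γ f) (hγ : 0 < γ) : Continuous (desc f) := by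
  obtain ⟨a1, a2, C, hC, a3⟩ := h
  refine continuous_iff_continuousAt.mpr fun x => ?_
  by_cases hx : x = 0
  · subst hx
    rw [ContinuousAt, desc_zero]
    exact squeeze_zero_norm (desc_bound hC a3) (tendsto_rpow_zero hγ C)
  · exact (a1.continuousAt.comp (loc_deriv hx).continuousAt).congr (desc_local a2 hx).symm

theorem desc_contDiff : ∀ (j : ℕ) {γ : ℝ} {f : ℂ → ℂ}, Cls j γ f → (j : ℝ) < γ →
    ContDiff ℝ j (desc f)
  | 0, γ, f, h, hγ => by
    simpa using desc_cont h (by simpa using hγ)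
  | j + 1, γ, f, ⟨h0, f1, f2, h1, h2, h⟩, hγ => by
    have c1 := (cls_c j).1
    have c2 := (cls_c j).2
    have k1 := (h1.mul c1).add (h2.mul c2)
    have k2 := ((h1.mul c2).cmul (-1)).add (h2.mul c1)
    have hγ' : (j : ℝ) < γ + -1 := by push_cast at hγ; linarith
    have d1 := desc_contDiff j k1 hγ'
    have d2 := desc_contDiff j k2 hγ'
    push_cast
    refine contDiff_succ_iff_hasFDerivAt.mpr
      ⟨fun x => dd (desc (fun u => f1 u * cr u + f2 u * ci u) x)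
        (desc (fun u => -1 * (f1 u * ci u) + f2 u * cr u) x),
        (contDiff_const.smulRight d1).add (contDiff_const.smulRight d2), fun x => ?_⟩
    obtain ⟨-, a2, C, hC, a3⟩ := h0
    by_cases hx : x = 0
    · subst hx
      have e : dd (desc (fun u => f1 u * cr u + f2 u * ci u) 0)
          (desc (fun u => -1 * (f1 u * ci u) + f2 u * cr u) 0) = 0 := by
        ext1; simp [dd_apply, desc_zero]
      beta_reduce
      rw [e, hasFDerivAt_iff_isLittleO_nhds_zero]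
      simp only [zero_add, desc_zero, sub_zero, _root_.zero_apply]
      have hγ1 : 0 < γ - 1 := by
        have : (0 : ℝ) ≤ j := Nat.cast_nonneg j
        linarith
      refine Asymptotics.isLittleO_iff.mpr fun c hc => ?_
      filter_upwards [(tendsto_rpow_zero hγ1 C).eventually (ge_mem_nhds hc)] with y hy
      refine (desc_bound hC a3 y).trans ?_
      have : ‖y‖ ^ γ = ‖y‖ ^ (γ - 1) * ‖y‖ := by
        rw [← Real.rpow_add_one' (norm_nonneg _) (by linarith)]; congr 1; ring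
      rw [this, ← mul_assoc]
      gcongr
    · have e : log x + log (x / x) = log x := by rw [div_self hx, log_one, add_zero]
      have h3 : HasFDerivAt f (dd (f1 (log x)) (f2 (log x))) (log x + log (x / x)) := by
        rw [e]; exact h _
      have h4 := h3.comp x (loc_deriv hx).complexToReal_fderiv
      refine (h4.congr_of_eventuallyEq (desc_local a2 hx)).congr_fderiv ?_
      have e2 : x⁻¹ = exp (-log x) := by rw [exp_neg, exp_log hx]
      rw [e2]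
      ext1; simp [dd_apply, desc, hx, cr, ci]; ring

end Pool.Agent.Lib.MP_28d281_gt
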