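import Pool.Agent.Lib.MP_28d281_gt.Main
import Pool.Agent.Lib.MP_28d281_gt.Sol2

/-! The disks for every value of the parameter. -/

open Matrix Metric Complex Filter Topology MeasureTheory Set
open scoped Real

namespace Pool.Agent.Lib.MP_28d281_gt

variable {κ δ : ℝ}

/-- the volume density -/
noncomputable def xn (κ c E v vs vtt : ℝ) : ℝ :=
  c ^ 3 * (2 * κ / (1 + κ ^ 2 * E ^ 2)) ^ 2 * (1 + v + vtt) *
    ((1 + v) * (1 - (1 - κ ^ 2 * E ^ 2) / (1 + κ ^ 2 * E ^ 2) * ((1 - κ ^ 2) / (1 + κ ^ 2))) -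
      vs * ((1 - κ ^ 2 * E ^ 2) / (1 + κ ^ 2 * E ^ 2) - (1 - κ ^ 2) / (1 + κ ^ 2)))

theorem xn_bd {c E v vs vtt : ℝ} (hκ : 0 < κ) (hc : 0 < c) (hE : 0 ≤ E) (hE1 : E ≤ 1)
    (b1 : |v| ≤ 1 / 100) (b2 : |vs| ≤ 1 / 100) (b3 : |vtt| ≤ 1 / 100) :
    0 < xn κ c E v vs vtt ∧ xn κ c E v vs vtt ≤ 17 * c ^ 3 * κ ^ 4 := by
  rw [abs_le] at b1 b2 b3
  have hE2 : E ^ 2 ≤ 1 := pow_le_one₀ hE hE1
  have e1 : 1 - (1 - κ ^ 2 * E ^ 2) / (1 + κ ^ 2 * E ^ 2) * ((1 - κ ^ 2) / (1 + κ ^ 2)) =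
      2 * κ ^ 2 / ((1 + κ ^ 2 * E ^ 2) * (1 + κ ^ 2)) * (1 + E ^ 2) := by
    field_simp
    ring
  have e2 : (1 - κ ^ 2 * E ^ 2) / (1 + κ ^ 2 * E ^ 2) - (1 - κ ^ 2) / (1 + κ ^ 2) =
      2 * κ ^ 2 / ((1 + κ ^ 2 * E ^ 2) * (1 + κ ^ 2)) * (1 - E ^ 2) := by
    field_simp
    ring
  rw [xn, e1, e2]
  have h0 : 0 ≤ κ ^ 2 * E ^ 2 := by positivity
  have h1 : 2 * κ ^ 2 / ((1 + κ ^ 2 * E ^ 2) * (1 + κ ^ 2)) ≤ 2 * κ ^ 2 :=
    div_le_self (by positivity) (by nlinarith [sq_nonneg κ])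
  have h2 : 0 < 2 * κ ^ 2 / ((1 + κ ^ 2 * E ^ 2) * (1 + κ ^ 2)) := by positivity
  have h3 : 2 * κ / (1 + κ ^ 2 * E ^ 2) ≤ 2 * κ := div_le_self (by positivity) (by linarith)
  have h4 : 0 < 2 * κ / (1 + κ ^ 2 * E ^ 2) := by positivity
  generalize 2 * κ ^ 2 / ((1 + κ ^ 2 * E ^ 2) * (1 + κ ^ 2)) = A at *
  generalize 2 * κ / (1 + κ ^ 2 * E ^ 2) = k at *
  have hD := sq_nonneg E
  generalize E ^ 2 = D at *
  have e3 : (1 + v) * (A * (1 + D)) - vs * (A * (1 - D)) =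
      A * ((1 + v) * (1 + D) - vs * (1 - D)) := by ring
  have h5 : 0 < (1 + v) * (1 + D) - vs * (1 - D) := by nlinarith
  have h6 : (1 + v) * (1 + D) - vs * (1 - D) ≤ 51 / 25 := by nlinarith
  have h7 : 0 < 1 + v + vtt := by linarith
  rw [e3]
  refine ⟨by positivity, ?_⟩
  calc _ ≤ c ^ 3 * (2 * κ) ^ 2 * (51 / 50) * (2 * κ ^ 2 * (51 / 25)) := by
        gcongr
        linarith
    _ ≤ _ := by
        have : 0 ≤ c ^ 3 * κ ^ 4 := by positivity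
        nlinarith

theorem pw2 (hκ : 0 < κ) (S : Sol (ta κ) δ) {c : ℝ} (hc : 0 < c) {x : ℂ} (hx : x ≠ 0)
    (hx1 : ‖x‖ ≤ 1) :
    c ^ 4 * (κ / (1 + κ ^ 2)) ^ 4 ≤ nrm (surf κ c S.Y) x ⬝ᵥ nrm (surf κ c S.Y) x ∧
    numer (surf κ c S.Y) x = 2 * (-c⁻¹) * √(nrm (surf κ c S.Y) x ⬝ᵥ nrm (surf κ c S.Y) x) ^ 3 ∧
    surf κ c S.Y x ⬝ᵥ nrm (surf κ c S.Y) x = xn κ c ‖x‖ (S.v (-Real.log ‖x‖) (arg x))
      (S.vs (-Real.log ‖x‖) (arg x)) (S.vtt (-Real.log ‖x‖) (arg x)) := by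
  have hs := log_nonneg' hx1
  obtain ⟨g1, g2, g3⟩ := local_geom S c (-Real.log ‖x‖) (arg x)
  obtain ⟨b1, b2, b3, b4⟩ := S.bd _ hs (arg x)
  have hp := S.pde _ hs (arg x)
  have hE : Real.exp (- -Real.log ‖x‖) = ‖x‖ := by
    rw [neg_neg, Real.exp_log (norm_pos_iff.mpr hx)]
  have hσ : sg κ (-Real.log ‖x‖) = 2 * κ * ‖x‖ / (1 + κ ^ 2 * ‖x‖ ^ 2) := by rw [sg, hE]
  have hτ : ta κ (-Real.log ‖x‖) = (1 - κ ^ 2 * ‖x‖ ^ 2) / (1 + κ ^ 2 * ‖x‖ ^ 2) := by rw [ta, hE]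
  have hsq := sg_sq κ (-Real.log ‖x‖)
  have hτ1 := abs_le.mp (abs_ta κ (-Real.log ‖x‖))
  have hτ0' := ta_zero κ
  rw [exists_xp hx, hE] at g1 g2 g3
  rw [← hsq] at hp
  have hE0 : 0 < ‖x‖ := norm_pos_iff.mpr hx
  generalize nrm (surf κ c S.Y) x ⬝ᵥ nrm (surf κ c S.Y) x = NN at *
  generalize surf κ c S.Y x ⬝ᵥ nrm (surf κ c S.Y) x = XN at *
  generalize numer (surf κ c S.Y) x = nu at *
  generalize S.v (-Real.log ‖x‖) (arg x) = v at *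
  generalize S.vs (-Real.log ‖x‖) (arg x) = vs at *
  generalize S.vss (-Real.log ‖x‖) (arg x) = vss at *
  generalize S.vtt (-Real.log ‖x‖) (arg x) = vtt at *
  generalize S.vst (-Real.log ‖x‖) (arg x) - ta κ (-Real.log ‖x‖) * S.vt (-Real.log ‖x‖) (arg x)
    = b at *
  generalize sg κ (-Real.log ‖x‖) = σ at *
  generalize ta κ (-Real.log ‖x‖) = τ at *
  generalize ta κ 0 = τ0 at *
  generalize ‖x‖ = E at *
  rw [abs_le] at b1 b2 b3 b4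
  have hq : 0 < 1 + κ ^ 2 * E ^ 2 := by positivity
  have hr : 49 / 50 ≤ 1 + v + vtt := by linarith
  set r := 1 + v + vtt
  have hw := aux_w hτ1 b1 b2 hsq
  set a := vs - τ * (1 + v) with ha
  set w2 := σ ^ 2 + a ^ 2
  set k := 2 * κ / (1 + κ ^ 2 * E ^ 2) with hk
  have hσk : σ = k * E := by rw [hσ, hk]; ring
  have hk0 : 0 < k := by positivity
  have hNN : NN = c ^ 4 * k ^ 4 * r ^ 2 * w2 := by
    apply mul_left_cancel₀ (a := (E ^ 2) ^ 2) (by positivity)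
    rw [g1, hσk]; ring
  have hXN : XN = c ^ 3 * k ^ 2 * r * (σ ^ 2 * (1 + v) - a * (τ - τ0)) := by
    apply mul_left_cancel₀ (a := E ^ 2) (by positivity)
    rw [g3]
    nth_rewrite 1 [hσk]
    ring
  refine ⟨?_, ?_, ?_⟩
  · have h1 : 2 * (κ / (1 + κ ^ 2)) ≤ k := by
      rw [hk, ← mul_div_assoc]
      have : E ^ 2 ≤ 1 := pow_le_one₀ hE0.le hx1
      have := mul_le_mul_of_nonneg_left this (sq_nonneg κ)
      exact div_le_div_of_nonneg_left (by positivity) hq (by linarith)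
    have h2 : 0 ≤ κ / (1 + κ ^ 2) := by positivity
    rw [hNN]
    calc _ = c ^ 4 * (2 * (κ / (1 + κ ^ 2))) ^ 4 * (1 / 2) ^ 2 * (1 / 4) := by ring
      _ ≤ _ := by gcongr <;> linarith
  · have hw0 : 0 ≤ w2 := by linarith
    have hA : w2 + b ^ 2 + r * (1 + v - vss) = 2 * r * √w2 ^ 3 := by
      have h1 : 0 ≤ w2 + b ^ 2 + r * (1 + v - vss) := by
        have : 0 ≤ r * (1 + v - vss) := mul_nonneg (by linarith) (by linarith)
        positivity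
      have h2 : 0 ≤ 2 * r * √w2 ^ 3 := by positivity
      rw [← sq_eq_sq₀ h1 h2, hp]
      have := Real.sq_sqrt hw0
      nth_rewrite 1 [← this]
      ring
    have hS : √NN = c ^ 2 * k ^ 2 * r * √w2 := by
      rw [hNN, show c ^ 4 * k ^ 4 * r ^ 2 * w2 = (c ^ 2 * k ^ 2 * r) ^ 2 * w2 by ring,
        Real.sqrt_mul (sq_nonneg _), Real.sqrt_sq (by positivity)]
    apply mul_left_cancel₀ (a := (E ^ 2) ^ 3) (by positivity)
    rw [g2, hA, hS, hσk]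
    field_simp
  · rw [hXN, xn, ← hτ, ← hτ0', ← hk, hsq, ha]
    ring

theorem surf_inj2 (hκ : 0 < κ) (S : Sol (ta κ) δ) {c : ℝ} (hc : 0 < c) :
    InjOn (surf κ c S.Y) (closedBall 0 1) := by
  intro x hx x' _ e
  have e0 := congrFun e 0
  have e1 := congrFun e 1
  have e2 := congrFun e 2
  simp only [surf, cons_val_zero, cons_val_one, cons_val, mul_eq_mul_left_iff, hc.ne',
    or_false] at e0 e1 e2
  have hn : normSq x = normSq x' := by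
    have a := normSq_nonneg x
    have b := normSq_nonneg x'
    unfold ver at e2
    rw [sub_left_inj, div_eq_div_iff (by positivity) (by positivity)] at e2
    have : κ ^ 2 * (normSq x - normSq x') = 0 := by linarith
    rcases mul_eq_zero.mp this with h | h
    · exact absurd h (by positivity)
    · linarith
  have hn' : ‖x‖ = ‖x'‖ := by rw [norm_def, norm_def, hn]
  by_cases h0 : x = 0
  · rw [h0, norm_zero] at hn'
    rw [h0, norm_eq_zero.mp hn'.symm]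
  · have h0' : x' ≠ 0 := by
      rw [← norm_pos_iff, ← hn']; exact norm_pos_iff.mpr h0
    have hh : hor κ S.Y x = hor κ S.Y x' := Complex.ext e0 e1
    have hs := log_nonneg' (mem_closedBall_zero_iff.mp hx)
    have a := exists_xp h0
    have a' := exists_xp h0'
    rw [← hn'] at a'
    rw [← a, ← a', hor_xp, hor_xp] at hh
    have hσ : (sg κ (-Real.log ‖x‖) : ℂ) ≠ 0 := by
      have : 0 < sg κ (-Real.log ‖x‖) := by unfold sg; positivity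
      exact_mod_cast this.ne'
    obtain ⟨n, hn⟩ := (S.supp hs).inj (mul_left_cancel₀ hσ hh)
    rw [← a, ← a', hn, xp_eq, xp_eq]
    congr 1
    exact exp_eq_exp_iff_exists_int.mpr ⟨n, by push_cast; ring⟩

theorem surf_bdry2 (hκ : 0 < κ) (S : Sol (ta κ) δ) (θ : ℝ) :
    surf κ (sg κ 0 * S.μ)⁻¹ S.Y (xp 0 θ) = inP (crv (q0 δ) (q1 δ) θ) := by
  have h1 : ∀ θ, 1 + S.v 0 θ = S.μ * q0 δ θ := S.bdry
  have h2 : S.vt 0 θ = S.μ * q1 δ θ := by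
    have a := (S.dt 0 θ).const_add 1
    simp only [h1] at a
    exact a.unique ((q0_deriv δ θ).const_mul _)
  have hσ : sg κ 0 ≠ 0 := by rw [sg_zero]; positivity
  have hμ : S.μ ≠ 0 := by linarith [S.hμ.1]
  simp only [surf, inP, hor_xp, ver_xp, re_ofReal_mul, im_ofReal_mul, crv_re, crv_im, h1, h2]
  congr 1
  · field_simp
  · congr 1
    · field_simp
    · simp

end Pool.Agent.Lib.MP_28d281_gt
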