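import Pool.Agent.Lib.MP_28d281_gt.Ode

open BoundedContinuousFunction Set

namespace Pool.Agent.Lib.MP_28d281_gt

noncomputable def rho : ℝ := 1 / 10 ^ 6

theorem rho_pos : 0 < rho := by unfold rho; positivity

def SS : Set Al := {F | ‖F‖ ≤ rho ∧ Par 1 F}

def Good (ε K : ℝ) (Φ : Al → Al) : Prop :=
  0 ≤ K ∧ (∀ F ∈ SS, ‖Φ F‖ ≤ K * rho ∧ Par ε (Φ F)) ∧
    ∀ F ∈ SS, ∀ F' ∈ SS, ‖Φ F - Φ F'‖ ≤ K * ‖F - F'‖

theorem Good.mono {ε K K' : ℝ} {Φ : Al → Al} (h : Good ε K Φ) (hK : K ≤ K') : Good ε K' Φ :=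
  ⟨h.1.trans hK, fun F hF => ⟨(h.2.1 F hF).1.trans (mul_le_mul_of_nonneg_right hK rho_pos.le),
    (h.2.1 F hF).2⟩, fun F hF F' hF' =>
      (h.2.2 F hF F' hF').trans (mul_le_mul_of_nonneg_right hK (norm_nonneg _))⟩

theorem good_id : Good 1 1 (fun F => F) :=
  ⟨zero_le_one, fun F hF => ⟨by simpa using hF.1, hF.2⟩, fun F _ F' _ => by simp⟩

theorem Good.add {ε K K' : ℝ} {Φ Ψ : Al → Al} (h : Good ε K Φ) (h' : Good ε K' Ψ) :
    Good ε (K + K') (fun F => Φ F + Ψ F) := by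
  refine ⟨add_nonneg h.1 h'.1, fun F hF => ⟨?_, (h.2.1 F hF).2.add (h'.2.1 F hF).2⟩,
    fun F hF F' hF' => ?_⟩
  · have := norm_add_le (Φ F) (Ψ F)
    linarith [(h.2.1 F hF).1, (h'.2.1 F hF).1]
  · have e : Φ F + Ψ F - (Φ F' + Ψ F') = (Φ F - Φ F') + (Ψ F - Ψ F') := by abel
    rw [e]
    have := norm_add_le (Φ F - Φ F') (Ψ F - Ψ F')
    linarith [h.2.2 F hF F' hF', h'.2.2 F hF F' hF']

theorem Good.smul {ε K : ℝ} {Φ : Al → Al} (h : Good ε K Φ) (c : ℝ) :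
    Good ε (|c| * K) (fun F => c • Φ F) := by
  refine ⟨mul_nonneg (abs_nonneg _) h.1, fun F hF => ⟨?_, (h.2.1 F hF).2.smul c⟩,
    fun F hF F' hF' => ?_⟩
  · rw [norm_smul, Real.norm_eq_abs, mul_assoc]
    exact mul_le_mul_of_nonneg_left (h.2.1 F hF).1 (abs_nonneg _)
  · rw [← smul_sub, norm_smul, Real.norm_eq_abs, mul_assoc]
    exact mul_le_mul_of_nonneg_left (h.2.2 F hF F' hF') (abs_nonneg _)

theorem Good.conv {ε ε' K K' : ℝ} {Φ Ψ : Al → Al} (h : Good ε K Φ) (h' : Good ε' K' Ψ) :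
    Good (ε * ε') (2 * K * K' * rho) (fun F => conv (Φ F) (Ψ F)) := by
  have hK := h.1
  have hK' := h'.1
  have hr := rho_pos.le
  refine ⟨by positivity, fun F hF => ⟨?_, (h.2.1 F hF).2.conv (h'.2.1 F hF).2⟩,
    fun F hF F' hF' => ?_⟩
  · calc _ ≤ ‖Φ F‖ * ‖Ψ F‖ := norm_conv _ _
      _ ≤ (K * rho) * (K' * rho) := by
          gcongr
          exacts [(h.2.1 F hF).1, (h'.2.1 F hF).1]
      _ ≤ _ := by nlinarith [mul_nonneg (mul_nonneg hK hK') (mul_nonneg hr hr)]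
  · calc _ ≤ _ := norm_conv_sub _ _ _ _
      _ ≤ (K * ‖F - F'‖) * (K' * rho) + (K * rho) * (K' * ‖F - F'‖) := by
          gcongr
          exacts [h.2.2 F hF F' hF', (h'.2.1 F hF).1, (h.2.1 F' hF').1, h'.2.2 F hF F' hF']
      _ = _ := by ring

theorem Good.mul {K K' : ℝ} {Φ Ψ : Al → Al} (h : Good 1 K Φ) (h' : Good 1 K' Ψ) :
    Good 1 (2 * K * K' * rho) (fun F => MP_28d281_gt.conv (Φ F) (Ψ F)) := by
  simpa using h.conv h'

theorem Good.mulB {ε K : ℝ} {Φ : Al → Al} (h : Good ε K Φ) {τ : BC} (hτ : ‖τ‖ ≤ 1) :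
    Good ε K (fun F => mulB τ (Φ F)) := by
  refine ⟨h.1, fun F hF => ⟨?_, ?_⟩, fun F hF F' hF' => ?_⟩
  · refine (norm_diag _ _ _ _).trans ?_
    nlinarith [(h.2.1 F hF).1, norm_nonneg (Φ F), norm_nonneg τ]
  · have := (h.2.1 F hF).2.diag (ε' := 1) (fun _ => ContinuousLinearMap.mul ℝ BC τ) ‖τ‖
      (fun _ G => norm_mul_le τ G) (fun _ => by simp)
    rw [one_mul] at this
    exact this
  · have e : MP_28d281_gt.mulB τ (Φ F) - MP_28d281_gt.mulB τ (Φ F') =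
        MP_28d281_gt.mulB τ (Φ F - Φ F') := (diag_sub _ _ _ _ _).symm
    refine (le_of_eq (congrArg _ e)).trans ((norm_diag _ _ _ _).trans ?_)
    nlinarith [h.2.2 F hF F' hF', norm_nonneg (Φ F - Φ F'), norm_nonneg τ]

noncomputable def hb (n : ℤ) : BC := if n = 1 ∨ n = -1 then eta n else 0

noncomputable def hc (e : ℤ → ℝ) : Al :=
  lp.single 1 1 (e 1 • eta 1) + lp.single 1 (-1) (e (-1) • eta (-1))

theorem hc_apply (e : ℤ → ℝ) (n : ℤ) : hc e n = e n • hb n := by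
  unfold hc hb
  rw [lp.coeFn_add, Pi.add_apply]
  by_cases h1 : n = 1
  · subst h1
    rw [lp.single_apply_self, lp.single_apply_ne _ _ _ (by norm_num)]
    simp
  · by_cases h2 : n = -1
    · subst h2
      rw [lp.single_apply_self, lp.single_apply_ne _ _ _ (by norm_num)]
      simp
    · rw [lp.single_apply_ne _ _ _ h1, lp.single_apply_ne _ _ _ h2]
      simp [h1, h2]

theorem hb_neg (n : ℤ) : hb (-n) = hb n := by
  unfold hb
  rw [eta_neg]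
  congr 1
  apply propext
  omega

theorem norm_hc (e : ℤ → ℝ) (h1 : |e 1| ≤ 4096) (h2 : |e (-1)| ≤ 4096) : ‖hc e‖ ≤ 8192 := by
  unfold hc
  refine (norm_add_le _ _).trans ?_
  rw [lp.norm_single one_pos, lp.norm_single one_pos, norm_smul, norm_smul, Real.norm_eq_abs,
    Real.norm_eq_abs]
  have a1 : ‖eta 1‖ ≤ 1 := norm_expPlus _ _
  have a2 : ‖eta (-1)‖ ≤ 1 := norm_expPlus _ _
  nlinarith [abs_nonneg (e 1), abs_nonneg (e (-1)), norm_nonneg (eta 1), norm_nonneg (eta (-1))]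

noncomputable def mu (F : Al) : ℝ := 1 + G0 0 (F 0) 0

theorem abs_mu_sub (F F' : Al) : |mu F - mu F'| ≤ 1 / 256 * ‖F - F'‖ := by
  have e : mu F - mu F' = G0 0 ((F - F') 0) 0 := by
    simp [mu]
  rw [e]
  have h1 : |G0 0 ((F - F') 0) 0| ≤ ‖G0 0 ((F - F') 0)‖ := by
    simpa using (G0 0 ((F - F') 0)).norm_coe_le_norm 0
  have h2 := lp.norm_apply_le_norm one_ne_zero (F - F') 0
  have h3 := norm_G0_le 0 ((F - F') 0)
  linarith

theorem abs_mu {F : Al} (hF : F ∈ SS) : |mu F - 1| ≤ 1 / 2 := by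
  have h := abs_mu_sub F 0
  have e : mu 0 = 1 := by simp [mu]
  rw [e, sub_zero] at h
  have := hF.1
  unfold rho at this
  linarith

noncomputable def aff (L : ℤ → BC →L[ℝ] BC) (c : ℝ) (h : ∀ n, Bd (L n) c) (e : ℤ → ℝ) (δ : ℝ)
    (F : Al) : Al := diag L c h F + (δ * mu F) • hc e

theorem aff_apply (L : ℤ → BC →L[ℝ] BC) (c : ℝ) (h : ∀ n, Bd (L n) c) (e : ℤ → ℝ) (δ : ℝ)
    (F : Al) (n : ℤ) (s : ℝ) : aff L c h e δ F n s = L n (F n) s + δ * mu F * e n * hb n s := by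
  unfold aff
  rw [lp.coeFn_add, Pi.add_apply, lp.coeFn_smul, Pi.smul_apply, hc_apply, diag_apply]
  simp [mul_assoc]

theorem good_aff {ε : ℝ} (L : ℤ → BC →L[ℝ] BC) (c : ℝ) (hc0 : 0 ≤ c) (h : ∀ n, Bd (L n) c)
    (e : ℤ → ℝ) {δ : ℝ} (hδ : 0 ≤ δ) (hδ' : δ ≤ 1 / 10 ^ 13) (hL : ∀ n, L (-n) = ε • L n)
    (he : ∀ n, e (-n) = ε * e n) (h1 : |e 1| ≤ 4096) (h2 : |e (-1)| ≤ 4096) :
    Good ε (c + 1 / 500) (aff L c h e δ) := by
  have hn := norm_hc e h1 h2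
  refine ⟨by positivity, fun F hF => ⟨?_, ?_⟩, fun F _ F' _ => ?_⟩
  · unfold aff
    refine (norm_add_le _ _).trans ?_
    have a1 := norm_diag L c h F
    have a2 : |mu F| ≤ 2 := by
      have := abs_mu hF
      rw [abs_le] at this ⊢
      constructor <;> linarith
    rw [norm_smul, Real.norm_eq_abs, abs_mul, abs_of_nonneg hδ]
    have a3 : δ * |mu F| * ‖hc e‖ ≤ 1 / 10 ^ 13 * 2 * 8192 := by gcongr
    have a4 : c * ‖F‖ ≤ c * rho := mul_le_mul_of_nonneg_left hF.1 hc0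
    have a5 : (1 : ℝ) / 10 ^ 13 * 2 * 8192 ≤ 1 / 500 * rho := by unfold rho; norm_num
    linarith
  · refine Par.add ?_ (Par.smul ?_ _)
    · simpa using hF.2.diag L c h hL
    · intro n
      rw [hc_apply, hc_apply, hb_neg, he, smul_smul]
  · have e1 : aff L c h e δ F - aff L c h e δ F' =
        diag L c h (F - F') + (δ * (mu F - mu F')) • hc e := by
      unfold aff
      rw [diag_sub, mul_sub, sub_smul]
      abel
    rw [e1]
    refine (norm_add_le _ _).trans ?_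
    have a1 := norm_diag L c h (F - F')
    rw [norm_smul, Real.norm_eq_abs, abs_mul, abs_of_nonneg hδ]
    have a3 : δ * |mu F - mu F'| * ‖hc e‖ ≤ 1 / 10 ^ 13 * (1 / 256 * ‖F - F'‖) * 8192 := by
      gcongr
      exact abs_mu_sub F F'
    nlinarith [norm_nonneg (F - F')]

noncomputable def cV (δ : ℝ) : Al → Al := aff G0 _ norm_G0_le (fun _ => 1) δ
noncomputable def cS (δ : ℝ) : Al → Al := aff G1 _ norm_G1_le (fun n => -fa n) δ
noncomputable def cT (δ : ℝ) : Al → Al :=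
  aff (fun n => (64 * (n : ℝ)) • G0 n) _ norm_G0_a (fun n => 64 * (n : ℝ)) δ
noncomputable def cU (δ : ℝ) : Al → Al :=
  aff (fun n => (64 * (n : ℝ)) • G1 n) _ norm_G1_a (fun n => 64 * (n : ℝ) * -fa n) δ
noncomputable def cQ (δ : ℝ) : Al → Al :=
  aff (fun n => (fa n ^ 2) • G0 n) _ norm_G0_aa (fun n => fa n ^ 2) δ

section
variable {δ : ℝ} (hδ : 0 ≤ δ) (hδ' : δ ≤ 1 / 10 ^ 13)
include hδ hδ'

theorem good_cV : Good 1 (1 / 100) (cV δ) :=
  (good_aff (ε := 1) G0 _ (by norm_num) norm_G0_le _ hδ hδ' (fun n => by rw [G0_neg, one_smul])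
    (fun n => by simp) (by norm_num) (by norm_num)).mono (by norm_num)

theorem good_cS : Good 1 (1 / 15) (cS δ) :=
  (good_aff (ε := 1) G1 _ (by norm_num) norm_G1_le _ hδ hδ' (fun n => by rw [G1_neg, one_smul])
    (fun n => by simp [fa_neg]) (by norm_num [fa]) (by norm_num [fa])).mono (by norm_num)

theorem good_cT : Good (-1) 2 (cT δ) :=
  (good_aff (ε := -1) _ _ (by norm_num) norm_G0_a _ hδ hδ'
    (fun n => by rw [G0_neg, smul_smul]; congr 1; push_cast; ring)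
    (fun n => by simp) (by norm_num) (by norm_num)).mono (by norm_num)

theorem good_cU : Good (-1) 4 (cU δ) :=
  (good_aff (ε := -1) _ _ (by norm_num) norm_G1_a _ hδ hδ'
    (fun n => by rw [G1_neg, smul_smul]; congr 1; push_cast; ring)
    (fun n => by simp [fa_neg]) (by norm_num [fa]) (by norm_num [fa])).mono (by norm_num)

theorem good_cQ : Good 1 4 (cQ δ) :=
  (good_aff (ε := 1) _ _ (by norm_num) norm_G0_aa _ hδ hδ'
    (fun n => by rw [G0_neg, fa_neg, one_smul])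
    (fun n => by simp [fa_neg]) (by norm_num [fa]) (by norm_num [fa])).mono (by norm_num)

end

noncomputable def nM (δ : ℝ) (τ : BC) (F : Al) : Al :=
  (2 : ℝ) • mulB τ (mulB τ (cV δ F)) + mulB τ (mulB τ (conv (cV δ F) (cV δ F))) +
    (-2 : ℝ) • mulB τ (cS δ F) + (-2 : ℝ) • mulB τ (conv (cV δ F) (cS δ F)) +
    conv (cS δ F) (cS δ F)

noncomputable def nA (δ : ℝ) (τ : BC) (F : Al) : Al := cU δ F + (-1 : ℝ) • mulB τ (cT δ F)
noncomputable def nA2 (δ : ℝ) (τ : BC) (F : Al) : Al := (-1 : ℝ) • conv (nA δ τ F) (nA δ τ F)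
noncomputable def nB (δ : ℝ) (F : Al) : Al := cV δ F + (-1 : ℝ) • cQ δ F
noncomputable def nD (δ : ℝ) (F : Al) : Al := nB δ F + (-1 : ℝ) • F
noncomputable def nAl (δ : ℝ) (τ : BC) (F : Al) : Al :=
  nM δ τ F + nA2 δ τ F + nB δ F + nD δ F + conv (nB δ F) (nD δ F)
noncomputable def nP (δ : ℝ) (F : Al) : Al := (2 : ℝ) • nB δ F + conv (nB δ F) (nB δ F)
noncomputable def nQ (δ : ℝ) (τ : BC) (F : Al) : Al :=
  (3 : ℝ) • conv (nM δ τ F) (nM δ τ F) + conv (nM δ τ F) (conv (nM δ τ F) (nM δ τ F))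
noncomputable def nR (δ : ℝ) (τ : BC) (F : Al) : Al :=
  conv (nB δ F) (nB δ F) + (3 : ℝ) • conv (nP δ F) (nM δ τ F) + nQ δ τ F +
    conv (nP δ F) (nQ δ τ F)
noncomputable def Phi (δ : ℝ) (τ : BC) (F : Al) : Al :=
  (-2 : ℝ) • nM δ τ F + nA2 δ τ F + conv (nB δ F) (nD δ F) +
    (1 / 4 : ℝ) • conv (nAl δ τ F) (nAl δ τ F) + (-1 : ℝ) • nR δ τ F

theorem good_Phi {δ : ℝ} (hδ : 0 ≤ δ) (hδ' : δ ≤ 1 / 10 ^ 13) {τ : BC} (hτ : ‖τ‖ ≤ 1) :
    Good 1 (1 / 2) (Phi δ τ) := by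
  have hV := good_cV hδ hδ'
  have hS := good_cS hδ hδ'
  have hT := good_cT hδ hδ'
  have hU := good_cU hδ hδ'
  have hQ := good_cQ hδ hδ'
  have hM : Good 1 (1 / 6) (nM δ τ) :=
    (((((((hV.mulB hτ).mulB hτ).smul 2).add (((hV.mul hV).mulB hτ).mulB hτ)).add
      ((hS.mulB hτ).smul (-2))).add (((hV.mul hS).mulB hτ).smul (-2))).add (hS.mul hS)).mono
      (by norm_num [rho])
  have hA : Good (-1) 6 (nA δ τ) := (hU.add ((hT.mulB hτ).smul (-1))).mono (by norm_num)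
  have hA2 : Good 1 (1 / 1000) (nA2 δ τ) := by
    have h := hA.conv hA
    rw [show (-1 : ℝ) * -1 = 1 by norm_num] at h
    exact (h.smul (-1)).mono (by norm_num [rho])
  have hB : Good 1 5 (nB δ) := (hV.add (hQ.smul (-1))).mono (by norm_num)
  have hD : Good 1 6 (nD δ) := (hB.add (good_id.smul (-1))).mono (by norm_num)
  have hAl : Good 1 12 (nAl δ τ) :=
    ((((hM.add hA2).add hB).add hD).add (hB.mul hD)).mono (by norm_num [rho])
  have hP : Good 1 11 (nP δ) := ((hB.smul 2).add (hB.mul hB)).mono (by norm_num [rho])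
  have hQ' : Good 1 (1 / 1000) (nQ δ τ) :=
    (((hM.mul hM).smul 3).add (hM.mul (hM.mul hM))).mono (by norm_num [rho])
  have hR : Good 1 (1 / 100) (nR δ τ) :=
    ((((hB.mul hB).add ((hP.mul hM).smul 3)).add hQ').add (hP.mul hQ')).mono (by norm_num [rho])
  exact (((((hM.smul (-2)).add hA2).add (hB.mul hD)).add ((hAl.mul hAl).smul (1 / 4))).add
    (hR.smul (-1))).mono (by norm_num [rho])

theorem exists_fixed {Φ : Al → Al} (h : Good 1 (1 / 2) Φ) : ∃ F ∈ SS, Φ F = F := by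
  have hcl : IsClosed SS :=
    (isClosed_le continuous_norm continuous_const).inter (isClosed_par 1)
  have hm : MapsTo Φ SS SS := fun F hF =>
    ⟨(h.2.1 F hF).1.trans (by linarith [rho_pos]), (h.2.1 F hF).2⟩
  have h0 : (0 : Al) ∈ SS := ⟨by simpa using rho_pos.le, fun n => by simp⟩
  have hc : ContractingWith (1 / 2) (hm.restrict Φ SS SS) := by
    refine ⟨by norm_num, LipschitzWith.of_dist_le_mul fun x y => ?_⟩
    have := h.2.2 x x.2 y y.2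
    simpa [Subtype.dist_eq, dist_eq_norm] using this
  obtain ⟨F, hF, hfix, -⟩ := hc.exists_fixedPoint' hcl.isComplete hm h0 (edist_ne_top _ _)
  exact ⟨F, hF, hfix⟩

theorem exists_fix {δ : ℝ} (hδ : 0 ≤ δ) (hδ' : δ ≤ 1 / 10 ^ 13) {τ : BC} (hτ : ‖τ‖ ≤ 1) :
    ∃ F ∈ SS, ∀ s, 0 ≤ s → ∀ θ,
      ((1 - (τ s : ℂ) ^ 2 + (ev (cS δ F) s θ - τ s * (1 + ev (cV δ F) s θ)) ^ 2) -
          (ev (cU δ F) s θ - τ s * ev (cT δ F) s θ) ^ 2 +
          (1 + ev (cV δ F) s θ - ev (cQ δ F) s θ) *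
            (1 + ev (cV δ F) s θ - (ev F s θ + ev (cQ δ F) s θ))) ^ 2 =
        4 * (1 + ev (cV δ F) s θ - ev (cQ δ F) s θ) ^ 2 *
          (1 - (τ s : ℂ) ^ 2 + (ev (cS δ F) s θ - τ s * (1 + ev (cV δ F) s θ)) ^ 2) ^ 3 := by
  obtain ⟨F, hF, hfix⟩ := exists_fixed (good_Phi hδ hδ' hτ)
  refine ⟨F, hF, fun s hs θ => ?_⟩
  have h := congrArg (fun G => ev G s θ) hfix
  simp only [Phi, nR, nQ, nP, nAl, nD, nB, nA2, nA, nM, ev_add, ev_smul, ev_conv _ _ hs,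
    ev_mulB] at h
  push_cast at h
  linear_combination 4 * h

end Pool.Agent.Lib.MP_28d281_gt
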