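import Pool.Agent.Lib.MP_28d281_gt.Alg
import Pool.Agent.Lib.MP_28d281_gt.Desc

open Complex Filter Topology Set
open scoped Real

namespace Pool.Agent.Lib.MP_28d281_gt

noncomputable def st (g : ℤ → ℝ → ℝ) (n : ℤ) (u : ℂ) : ℂ := (g n (-u.re) : ℂ) * ch n u.im

noncomputable def ser (g : ℤ → ℝ → ℝ) (u : ℂ) : ℂ := ∑' n, st g n u

def SB (g : ℤ → ℝ → ℝ) : Prop :=
  ∃ c : ℤ → ℝ, Summable c ∧ (∀ n, 0 ≤ c n) ∧ ∀ n s, |g n s| ≤ c n * Real.exp (-16 * s)

def fr (g : ℤ → ℝ → ℝ) : ℤ → ℝ → ℝ := fun n s => 64 * n * g n s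

theorem norm_st (g : ℤ → ℝ → ℝ) (n : ℤ) (u : ℂ) : ‖st g n u‖ = |g n (-u.re)| := by
  rw [st, norm_mul, norm_ch, mul_one, norm_real, Real.norm_eq_abs]

theorem SB.summ_norm {g : ℤ → ℝ → ℝ} (h : SB g) (u : ℂ) : Summable fun n => ‖st g n u‖ := by
  obtain ⟨c, hc, -, h⟩ := h
  refine Summable.of_nonneg_of_le (fun _ => norm_nonneg _) (fun n => ?_)
    (hc.mul_right (Real.exp (-16 * -u.re)))
  rw [norm_st]; exact h n _

theorem SB.summ {g : ℤ → ℝ → ℝ} (h : SB g) (u : ℂ) : Summable fun n => st g n u :=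
  (h.summ_norm u).of_norm

theorem exp_ball {u y : ℂ} (hy : y ∈ Metric.ball u 1) :
    Real.exp (-16 * -y.re) ≤ Real.exp (16 * (u.re + 1)) := by
  apply Real.exp_le_exp.mpr
  have h1 := abs_re_le_norm (y - u)
  rw [Metric.mem_ball, dist_eq_norm] at hy
  have h2 := (abs_le.mp h1).2
  simp only [sub_re] at h2
  linarith

theorem ser_cls0 {g : ℤ → ℝ → ℝ} (h : SB g) (hc : ∀ n, Continuous (g n)) : Cls0 16 (ser g) := by
  have hs := h.summ_norm
  obtain ⟨c, c1, c2, c3⟩ := h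
  refine ⟨continuous_iff_continuousAt.mpr fun u => ?_, fun u => ?_, ∑' n, c n, tsum_nonneg c2,
    fun u => ?_⟩
  · refine (continuousOn_tsum (s := Metric.ball u 1) (fun n => Continuous.continuousOn ?_)
      (c1.mul_right (Real.exp (16 * (u.re + 1)))) (fun n y hy => ?_)).continuousAt
      (Metric.ball_mem_nhds u one_pos)
    · have := hc n
      unfold st ch
      fun_prop
    · rw [norm_st]
      exact (c3 n _).trans (mul_le_mul_of_nonneg_left (exp_ball hy) (c2 n))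
  · unfold ser
    congr 1
    funext n
    have e : ch n (u + 2 * π * I).im = ch n u.im := by
      unfold ch
      apply exp_eq_exp_iff_exists_int.mpr ⟨n * 64, ?_⟩
      simp
      ring
    simp only [st, e]
    simp
  · refine (norm_tsum_le_tsum_norm (hs u)).trans ?_
    rw [← tsum_mul_right]
    refine (hs u).tsum_le_tsum (fun n => ?_) (c1.mul_right _)
    rw [norm_st]
    simpa using c3 n (-u.re)

theorem ch_deriv (n : ℤ) (θ : ℝ) : HasDerivAt (ch n) (I * (64 * n) * ch n θ) θ := by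
  have h1 : HasDerivAt (fun θ : ℝ => ((n * 64 * θ : ℝ) : ℂ) * I) (((n * 64 : ℝ) : ℂ) * I) θ := by
    simpa using ((hasDerivAt_id θ).const_mul ((n : ℝ) * 64)).ofReal_comp.mul_const I
  refine h1.cexp.congr_deriv ?_
  unfold ch
  push_cast
  ring

theorem st_fderiv {g g1 : ℤ → ℝ → ℝ} (hd : ∀ n s, HasDerivAt (g n) (g1 n s) s) (n : ℤ) (u : ℂ) :
    HasFDerivAt (st g n) (dd (-st g1 n u) (I * st (fr g) n u)) u := by
  have h1 := ((hd n (-u.re)).ofReal_comp).hasFDerivAt.comp u (reCLM.hasFDerivAt (x := u)).neg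
  have h2 := (ch_deriv n u.im).hasFDerivAt.comp u (imCLM.hasFDerivAt (x := u))
  refine (h1.mul h2).congr_fderiv ?_
  ext1 v
  simp [dd_apply, st, fr]
  ring

theorem norm_dd (a b : ℂ) : ‖dd a b‖ ≤ ‖a‖ + ‖b‖ := by
  refine ContinuousLinearMap.opNorm_le_bound _ (by positivity) fun v => ?_
  rw [dd_apply]
  refine (norm_add_le _ _).trans ?_
  rw [norm_mul, norm_mul, norm_real, norm_real, Real.norm_eq_abs, Real.norm_eq_abs]
  nlinarith [abs_re_le_norm v, abs_im_le_norm v, norm_nonneg a, norm_nonneg b]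

theorem ser_fderiv {g g1 : ℤ → ℝ → ℝ} (h : SB g) (h1 : SB g1) (h2 : SB (fr g))
    (hd : ∀ n s, HasDerivAt (g n) (g1 n s) s) (u : ℂ) :
    HasFDerivAt (ser g) (dd (-ser g1 u) (I * ser (fr g) u)) u := by
  have s1 := h1.summ u
  have s2 := h2.summ u
  obtain ⟨c, c1, c2, c3⟩ := h1
  obtain ⟨d, d1, d2, d3⟩ := h2
  have hb : ∀ n y, y ∈ Metric.ball u 1 → ‖dd (-st g1 n y) (I * st (fr g) n y)‖ ≤
      (c n + d n) * Real.exp (16 * (u.re + 1)) := fun n y hy => by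
    refine (norm_dd _ _).trans ?_
    rw [norm_neg, norm_mul, norm_I, one_mul, norm_st, norm_st, add_mul]
    exact add_le_add ((c3 n _).trans (mul_le_mul_of_nonneg_left (exp_ball hy) (c2 n)))
      ((d3 n _).trans (mul_le_mul_of_nonneg_left (exp_ball hy) (d2 n)))
  have hsum := (c1.add d1).mul_right (Real.exp (16 * (u.re + 1)))
  have key := hasFDerivAt_tsum_of_isPreconnected (𝕜 := ℝ) hsum Metric.isOpen_ball
    (convex_ball u 1).isPreconnected (fun n y _ => st_fderiv hd n y) hb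
    (Metric.mem_ball_self one_pos) (h.summ u) (Metric.mem_ball_self one_pos)
  refine key.congr_fderiv ?_
  have hs : Summable fun n => dd (-st g1 n u) (I * st (fr g) n u) :=
    Summable.of_norm_bounded hsum fun n => hb n u (Metric.mem_ball_self one_pos)
  ext1 v
  have := (ContinuousLinearMap.apply ℝ ℂ v).map_tsum hs
  simp only [ContinuousLinearMap.apply_apply] at this
  rw [this]
  simp only [dd_apply, ser]
  rw [(s1.neg.mul_left _).tsum_add ((s2.mul_left I).mul_left _), tsum_mul_left, tsum_mul_left,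
    tsum_mul_left, tsum_neg]

theorem fr_deriv {g g1 : ℤ → ℝ → ℝ} (hd : ∀ n s, HasDerivAt (g n) (g1 n s) s) (n : ℤ) (s : ℝ) :
    HasDerivAt (fr g n) (fr g1 n s) s := (hd n s).const_mul _

theorem fr_cont {g : ℤ → ℝ → ℝ} (hc : ∀ n, Continuous (g n)) (n : ℤ) : Continuous (fr g n) :=
  continuous_const.mul (hc n)

theorem cont_of_deriv {g g1 : ℤ → ℝ → ℝ} (hd : ∀ n s, HasDerivAt (g n) (g1 n s) s) (n : ℤ) :
    Continuous (g n) := continuous_iff_continuousAt.mpr fun s => (hd n s).continuousAt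

theorem ser_cls1 {g g1 : ℤ → ℝ → ℝ} (h : SB g) (h1 : SB g1) (h2 : SB (fr g))
    (hd : ∀ n s, HasDerivAt (g n) (g1 n s) s) (hc : ∀ n, Continuous (g1 n)) :
    Cls 1 16 (ser g) :=
  ⟨ser_cls0 h (cont_of_deriv hd), _, _, (ser_cls0 h1 hc).cmul (-1),
    (ser_cls0 h2 (fr_cont (cont_of_deriv hd))).cmul I, fun u => by
      simpa using ser_fderiv h h1 h2 hd u⟩

theorem ser_cls2 {g g1 g2 : ℤ → ℝ → ℝ} (h : SB g) (h1 : SB g1) (h2 : SB g2) (k : SB (fr g))
    (k1 : SB (fr g1)) (l : SB (fr (fr g))) (hd : ∀ n s, HasDerivAt (g n) (g1 n s) s)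
    (hd1 : ∀ n s, HasDerivAt (g1 n) (g2 n s) s) (hc : ∀ n, Continuous (g2 n)) :
    Cls 2 16 (ser g) :=
  ⟨ser_cls0 h (cont_of_deriv hd), _, _, (ser_cls1 h1 h2 k1 hd1 hc).cmul (-1),
    (ser_cls1 k k1 l (fr_deriv hd) (fr_cont (cont_of_deriv hd1))).cmul I, fun u => by
      simpa using ser_fderiv h h1 k hd u⟩

noncomputable def pt (s θ : ℝ) : ℂ := -s + θ * I

@[simp] theorem pt_re (s θ : ℝ) : (pt s θ).re = -s := by simp [pt]
@[simp] theorem pt_im (s θ : ℝ) : (pt s θ).im = θ := by simp [pt]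

theorem pt_ds (s θ : ℝ) : HasDerivAt (fun s => pt s θ) (-1) s := by
  simpa [pt] using ((hasDerivAt_id s).ofReal_comp.neg).add_const (θ * I)

theorem pt_dt (s θ : ℝ) : HasDerivAt (fun θ => pt s θ) I θ := by
  simpa [pt] using ((hasDerivAt_id θ).ofReal_comp.mul_const I).const_add (-(s : ℂ))

theorem ser_ds {g g1 : ℤ → ℝ → ℝ} (h : SB g) (h1 : SB g1) (h2 : SB (fr g))
    (hd : ∀ n s, HasDerivAt (g n) (g1 n s) s) (s θ : ℝ) :
    HasDerivAt (fun s => ser g (pt s θ)) (ser g1 (pt s θ)) s := by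
  refine ((ser_fderiv h h1 h2 hd (pt s θ)).comp_hasDerivAt s (pt_ds s θ)).congr_deriv ?_
  simp [dd_apply]

theorem ser_dt {g g1 : ℤ → ℝ → ℝ} (h : SB g) (h1 : SB g1) (h2 : SB (fr g))
    (hd : ∀ n s, HasDerivAt (g n) (g1 n s) s) (s θ : ℝ) :
    HasDerivAt (fun θ => ser g (pt s θ)) (I * ser (fr g) (pt s θ)) θ := by
  refine ((ser_fderiv h h1 h2 hd (pt s θ)).comp_hasDerivAt θ (pt_dt s θ)).congr_deriv ?_
  simp [dd_apply]

theorem conj_ser {g : ℤ → ℝ → ℝ} {ε : ℝ} (h : ∀ n s, g (-n) s = ε * g n s) (u : ℂ) :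
    (starRingEnd ℂ) (ser g u) = ε * ser g u := by
  unfold ser
  rw [Complex.conj_tsum, ← (Equiv.neg ℤ).tsum_eq, ← tsum_mul_left]
  congr 1
  funext n
  simp only [st, Equiv.neg_apply, map_mul, Complex.conj_ofReal, conj_ch, neg_neg, h n]
  push_cast
  ring

theorem ser_eq_ev {g : ℤ → ℝ → ℝ} {G : Al} {s : ℝ}
    (h : ∀ n, g n s = Real.exp (-16 * s) * G n s / wt n) (θ : ℝ) :
    ser g (pt s θ) = ev G s θ := by
  unfold ser ev
  congr 1
  funext n
  simp only [st, et, pt_re, pt_im, neg_neg, h n]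

end Pool.Agent.Lib.MP_28d281_gt
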