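import Pool.Agent.Lib.MP_28d281_gt.Defs
import Pool.Agent.Lib.MP_28d281_gt.Series

open Matrix Metric Complex Filter Topology

namespace Pool.Agent.Lib.MP_28d281_gt

noncomputable def numer (X : ℂ → Fin 3 → ℝ) (z : ℂ) : ℝ :=
  (pd X 1 z ⬝ᵥ pd X 1 z) * (pd (pd X I) I z ⬝ᵥ nrm X z) -
    2 * (pd X 1 z ⬝ᵥ pd X I z) * (pd (pd X 1) I z ⬝ᵥ nrm X z) +
    (pd X I z ⬝ᵥ pd X I z) * (pd (pd X 1) 1 z ⬝ᵥ nrm X z)

theorem meanCurv_eq {X : ℂ → Fin 3 → ℝ} {z : ℂ} {H : ℝ} (hn : 0 < nrm X z ⬝ᵥ nrm X z)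
    (h : numer X z = 2 * H * √(nrm X z ⬝ᵥ nrm X z) ^ 3) : meanCurv X z = H := by
  have e : (pd X 1 z ⬝ᵥ pd X 1 z) * (pd X I z ⬝ᵥ pd X I z) - (pd X 1 z ⬝ᵥ pd X I z) ^ 2 =
      √(nrm X z ⬝ᵥ nrm X z) ^ 2 := by
    rw [Real.sq_sqrt hn.le, nrm, cross_dot_cross, dotProduct_comm (pd X I z) (pd X 1 z)]
    ring
  have hs : 0 < √(nrm X z ⬝ᵥ nrm X z) := Real.sqrt_pos.mpr hn
  simp only [meanCurv, dotProduct_smul, smul_eq_mul]
  rw [e]
  unfold numer at h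
  field_simp
  linear_combination h

theorem pd_contDiff {X : ℂ → Fin 3 → ℝ} (hX : ContDiff ℝ 2 X) (v : ℂ) : ContDiff ℝ 1 (pd X v) :=
  (hX.fderiv_right (m := 1) (by norm_num)).clm_apply contDiff_const

theorem pd_cont {X : ℂ → Fin 3 → ℝ} (hX : ContDiff ℝ 1 X) (v : ℂ) : Continuous (pd X v) :=
  (hX.continuous_fderiv (by norm_num)).clm_apply continuous_const

theorem nrm_cont {X : ℂ → Fin 3 → ℝ} (hX : ContDiff ℝ 2 X) : Continuous (nrm X) := by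
  have h1 := (pd_contDiff hX 1).continuous
  have h2 := (pd_contDiff hX I).continuous
  unfold nrm
  simp only [cross_apply]
  fun_prop

theorem numer_cont {X : ℂ → Fin 3 → ℝ} (hX : ContDiff ℝ 2 X) : Continuous (numer X) := by
  have h1 := (pd_contDiff hX 1).continuous
  have h2 := (pd_contDiff hX I).continuous
  have h3 := pd_cont (pd_contDiff hX 1) 1
  have h4 := pd_cont (pd_contDiff hX 1) I
  have h5 := pd_cont (pd_contDiff hX I) I
  have h6 := nrm_cont hX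
  unfold numer
  fun_prop

theorem pd_pd {X : ℂ → Fin 3 → ℝ} (hX : ContDiff ℝ 2 X) (v w z : ℂ) :
    pd (pd X v) w z = fderiv ℝ (fderiv ℝ X) z w v := by
  have hd : DifferentiableAt ℝ (fderiv ℝ X) z :=
    (hX.fderiv_right (m := 1) (by norm_num)).differentiable (by norm_num) z
  have := (hd.hasFDerivAt.clm_apply (hasFDerivAt_const v z)).fderiv
  unfold pd
  rw [this]
  simp

theorem lin_expand (L : ℂ →L[ℝ] Fin 3 → ℝ) (w : ℂ) : L w = w.re • L 1 + w.im • L I := by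
  conv_lhs => rw [show w = w.re • (1 : ℂ) + w.im • I by simp]
  rw [map_add, map_smul, map_smul]

theorem bil_expand {X : ℂ → Fin 3 → ℝ} (hX : ContDiff ℝ 2 X) (z v w : ℂ) :
    fderiv ℝ (fderiv ℝ X) z v w = (v.re * w.re) • pd (pd X 1) 1 z +
      (v.re * w.im + v.im * w.re) • pd (pd X 1) I z + (v.im * w.im) • pd (pd X I) I z := by
  have hs : IsSymmSndFDerivAt ℝ X z := hX.contDiffAt.isSymmSndFDerivAt (by simp)
  rw [pd_pd hX, pd_pd hX, pd_pd hX, lin_expand _ w, hs.eq v 1, hs.eq v I, lin_expand _ v,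
    lin_expand (fderiv ℝ (fderiv ℝ X) z I) v, hs.eq 1 I]
  module

noncomputable def xp (s θ : ℝ) : ℂ := exp (pt s θ)

theorem xp_ds (s θ : ℝ) : HasDerivAt (fun s => xp s θ) (-xp s θ) s := by
  simpa [xp] using (pt_ds s θ).cexp

theorem xp_dt (s θ : ℝ) : HasDerivAt (fun θ => xp s θ) (I * xp s θ) θ := by
  simpa [xp, mul_comm] using (pt_dt s θ).cexp

noncomputable def vA (X : ℂ → Fin 3 → ℝ) (s θ : ℝ) : Fin 3 → ℝ := fderiv ℝ X (xp s θ) (-xp s θ)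
noncomputable def vB (X : ℂ → Fin 3 → ℝ) (s θ : ℝ) : Fin 3 → ℝ :=
  fderiv ℝ X (xp s θ) (I * xp s θ)

theorem chain {X : ℂ → Fin 3 → ℝ} (hX : ContDiff ℝ 2 X) (s θ : ℝ) :
    HasDerivAt (fun s => X (xp s θ)) (vA X s θ) s ∧
    HasDerivAt (fun θ => X (xp s θ)) (vB X s θ) θ ∧
    ∃ A' M' B' : Fin 3 → ℝ, HasDerivAt (fun s => vA X s θ) A' s ∧
      HasDerivAt (fun s => vB X s θ) M' s ∧ HasDerivAt (fun θ => vB X s θ) B' θ ∧
      crossProduct (vB X s θ) (vA X s θ) = normSq (xp s θ) • nrm X (xp s θ) ∧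
      (vA X s θ ⬝ᵥ vA X s θ) * (B' ⬝ᵥ crossProduct (vB X s θ) (vA X s θ)) -
        2 * (vA X s θ ⬝ᵥ vB X s θ) * (M' ⬝ᵥ crossProduct (vB X s θ) (vA X s θ)) +
        (vB X s θ ⬝ᵥ vB X s θ) * (A' ⬝ᵥ crossProduct (vB X s θ) (vA X s θ)) =
        normSq (xp s θ) ^ 3 * numer X (xp s θ) := by
  have h1 : HasFDerivAt X (fderiv ℝ X (xp s θ)) (xp s θ) :=
    (hX.differentiable (by norm_num) _).hasFDerivAt
  have h2 : HasFDerivAt (fderiv ℝ X) (fderiv ℝ (fderiv ℝ X) (xp s θ)) (xp s θ) :=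
    ((hX.fderiv_right (m := 1) (by norm_num)).differentiable (by norm_num) _).hasFDerivAt
  have a := h2.comp_hasDerivAt s (xp_ds s θ)
  have b := h2.comp_hasDerivAt θ (xp_dt s θ)
  refine ⟨h1.comp_hasDerivAt s (xp_ds s θ), h1.comp_hasDerivAt θ (xp_dt s θ), _, _, _,
    a.clm_apply (xp_ds s θ).neg, a.clm_apply ((xp_ds s θ).const_mul I),
    b.clm_apply ((xp_dt s θ).const_mul I), ?_, ?_⟩
  · simp only [vA, vB, nrm, pd]
    rw [lin_expand _ (I * xp s θ), lin_expand _ (-xp s θ)]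
    generalize fderiv ℝ X (xp s θ) 1 = X1
    generalize fderiv ℝ X (xp s θ) I = X2
    ext i
    fin_cases i <;> simp [cross_apply, normSq_apply] <;> ring
  · simp only [vA, vB, numer, nrm, Function.comp_apply, bil_expand hX]
    rw [lin_expand _ (I * xp s θ), lin_expand _ (-xp s θ), lin_expand _ (I * -xp s θ),
      lin_expand _ (I * (I * xp s θ)), lin_expand _ (- -xp s θ)]
    generalize pd (pd X 1) 1 (xp s θ) = X11
    generalize pd (pd X 1) I (xp s θ) = X12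
    generalize pd (pd X I) I (xp s θ) = X22
    unfold pd
    generalize fderiv ℝ X (xp s θ) 1 = X1
    generalize fderiv ℝ X (xp s θ) I = X2
    generalize xp s θ = x
    simp [cross_apply, normSq_apply, dotProduct, Fin.sum_univ_three]
    ring

theorem at_zero {f : ℂ → ℝ} (hf : Continuous f) {ρ : ℝ} (hρ : 0 < ρ)
    (h : ∀ x, x ≠ 0 → ‖x‖ ≤ ρ → 0 ≤ f x) : 0 ≤ f 0 := by
  refine ge_of_tendsto (hf.continuousAt.tendsto.mono_left (nhdsWithin_le_nhds (s := {0}ᶜ))) ?_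
  filter_upwards [self_mem_nhdsWithin, mem_nhdsWithin_of_mem_nhds (closedBall_mem_nhds 0 hρ)]
    with x hx hx' using h x hx (mem_closedBall_zero_iff.mp hx')

theorem xp_eq (s θ : ℝ) : xp s θ = (Real.exp (-s) : ℂ) * exp (θ * I) := by
  rw [xp, pt, exp_add]; simp

theorem norm_xp (s θ : ℝ) : ‖xp s θ‖ = Real.exp (-s) := by
  rw [xp, norm_exp, pt_re]

theorem normSq_xp (s θ : ℝ) : normSq (xp s θ) = Real.exp (-s) ^ 2 := by
  rw [normSq_eq_norm_sq, norm_xp]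

theorem exists_xp {x : ℂ} (hx : x ≠ 0) : xp (-Real.log ‖x‖) (arg x) = x := by
  rw [xp_eq, neg_neg, Real.exp_log (norm_pos_iff.mpr hx), norm_mul_exp_arg_mul_I]

theorem log_nonneg' {x : ℂ} (hx : ‖x‖ ≤ 1) : 0 ≤ -Real.log ‖x‖ :=
  neg_nonneg.mpr (Real.log_nonpos (norm_nonneg _) hx)

end Pool.Agent.Lib.MP_28d281_gt
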