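import Pool.Agent.Lib.MP_28d281_gt.Surf

open Matrix Metric Complex Filter Topology MeasureTheory Set
open scoped Real

namespace Pool.Agent.Lib.MP_28d281_gt

variable {κ δ : ℝ}

theorem ta_zero (κ : ℝ) : ta κ 0 = (1 - κ ^ 2) / (1 + κ ^ 2) := by simp [ta]

theorem sg_zero (κ : ℝ) : sg κ 0 = 2 * κ / (1 + κ ^ 2) := by simp [sg]

theorem ta_mono (κ : ℝ) {s : ℝ} (hs : 0 ≤ s) : ta κ 0 ≤ ta κ s := by
  have h1 : Real.exp (-s) ≤ 1 := Real.exp_le_one_iff.mpr (by linarith)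
  have h2 : Real.exp (-s) ^ 2 ≤ 1 := pow_le_one₀ (Real.exp_pos _).le h1
  rw [ta_zero, ta, div_le_div_iff₀ (by positivity) (by positivity)]
  nlinarith [mul_le_mul_of_nonneg_left h2 (sq_nonneg κ)]

theorem aux_w {τ v vs σ : ℝ} (h1 : -1 ≤ τ ∧ τ ≤ 1) (b1 : -(1 / 100) ≤ v ∧ v ≤ 1 / 100)
    (b2 : -(1 / 100) ≤ vs ∧ vs ≤ 1 / 100) (hsq : σ ^ 2 = 1 - τ ^ 2) :
    9 / 10 ≤ σ ^ 2 + (vs - τ * (1 + v)) ^ 2 := by
  have d1 : -(1 / 50) ≤ vs - τ * v := by nlinarith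
  have d2 : vs - τ * v ≤ 1 / 50 := by nlinarith
  have e : (vs - τ * (1 + v)) = (vs - τ * v) - τ := by ring
  rw [e, hsq]
  generalize vs - τ * v = d at *
  nlinarith [sq_nonneg d]

theorem aux_low {τ τ0 v vs σ : ℝ} (h1 : -1 ≤ τ ∧ τ ≤ 1) (h0 : -1 ≤ τ0 ∧ τ0 ≤ 1) (hm : τ0 ≤ τ)
    (b1 : -(1 / 100) ≤ v ∧ v ≤ 1 / 100)
    (b2 : -(1 / 100) ≤ vs ∧ vs ≤ 1 / 100) (hsq : σ ^ 2 = 1 - τ ^ 2) :
    0 ≤ 1 - τ * τ0 ∧
    49 / 50 * (1 - τ * τ0) ≤ σ ^ 2 * (1 + v) - (vs - τ * (1 + v)) * (τ - τ0) := by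
  have e : σ ^ 2 * (1 + v) - (vs - τ * (1 + v)) * (τ - τ0) =
      (1 + v) * (1 - τ * τ0) - vs * (τ - τ0) := by
    rw [hsq]; ring
  have h2 : τ - τ0 ≤ 1 - τ * τ0 := by nlinarith
  have h3 : 0 ≤ τ - τ0 := by linarith
  rw [e]
  refine ⟨by linarith, ?_⟩
  generalize 1 - τ * τ0 = A at *
  generalize τ - τ0 = B at *
  nlinarith

theorem pointwise (hκ : 1 ≤ κ) (S : Sol (ta κ) δ) {c : ℝ} (hc : 0 < c) {x : ℂ} (hx : x ≠ 0)
    (hx1 : ‖x‖ ≤ 1) :
    c ^ 4 * (κ / (1 + κ ^ 2)) ^ 4 ≤ nrm (surf κ c S.Y) x ⬝ᵥ nrm (surf κ c S.Y) x ∧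
    numer (surf κ c S.Y) x = 2 * (-c⁻¹) * √(nrm (surf κ c S.Y) x ⬝ᵥ nrm (surf κ c S.Y) x) ^ 3 ∧
    0 ≤ surf κ c S.Y x ⬝ᵥ nrm (surf κ c S.Y) x ∧
    (‖x‖ ≤ κ⁻¹ → c ^ 3 * κ ^ 2 / 2 ≤ surf κ c S.Y x ⬝ᵥ nrm (surf κ c S.Y) x) := by
  have hs := log_nonneg' hx1
  obtain ⟨g1, g2, g3⟩ := local_geom S c (-Real.log ‖x‖) (arg x)
  obtain ⟨b1, b2, b3, b4⟩ := S.bd _ hs (arg x)
  have hp := S.pde _ hs (arg x)
  have hm := ta_mono κ hs
  have hE : Real.exp (- -Real.log ‖x‖) = ‖x‖ := by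
    rw [neg_neg, Real.exp_log (norm_pos_iff.mpr hx)]
  have hσ : sg κ (-Real.log ‖x‖) = 2 * κ * ‖x‖ / (1 + κ ^ 2 * ‖x‖ ^ 2) := by rw [sg, hE]
  have hτ : ta κ (-Real.log ‖x‖) = (1 - κ ^ 2 * ‖x‖ ^ 2) / (1 + κ ^ 2 * ‖x‖ ^ 2) := by rw [ta, hE]
  have hsq := sg_sq κ (-Real.log ‖x‖)
  have hτ1 := abs_le.mp (abs_ta κ (-Real.log ‖x‖))
  have hτ0 := abs_le.mp (abs_ta κ 0)
  have hτ0' : ta κ 0 ≤ 0 := by
    rw [ta_zero]
    exact div_nonpos_of_nonpos_of_nonneg (sub_nonpos.mpr (one_le_pow₀ hκ)) (by positivity)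
  rw [exists_xp hx, hE] at g1 g2 g3
  rw [← hsq] at hp
  have hE0 : 0 < ‖x‖ := norm_pos_iff.mpr hx
  generalize nrm (surf κ c S.Y) x ⬝ᵥ nrm (surf κ c S.Y) x = NN at *
  generalize surf κ c S.Y x ⬝ᵥ nrm (surf κ c S.Y) x = XN at *
  generalize numer (surf κ c S.Y) x = nu at *
  generalize S.v (-Real.log ‖x‖) (arg x) = v at *
  generalize S.vs (-Real.log ‖x‖) (arg x) = vs at *
  generalize S.vss (-Real.log ‖x‖) (arg x) = vss at *
  generalize S.vtt (-Real.log ‖x‖) (arg x) = vtt at *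
  generalize S.vst (-Real.log ‖x‖) (arg x) - ta κ (-Real.log ‖x‖) * S.vt (-Real.log ‖x‖) (arg x)
    = b at *
  generalize sg κ (-Real.log ‖x‖) = σ at *
  generalize ta κ (-Real.log ‖x‖) = τ at *
  generalize ta κ 0 = τ0 at *
  generalize ‖x‖ = E at *
  rw [abs_le] at b1 b2 b3 b4
  have hq : 0 < 1 + κ ^ 2 * E ^ 2 := by positivity
  have hr : 49 / 50 ≤ 1 + v + vtt := by linarith
  set r := 1 + v + vtt
  have hw := aux_w hτ1 b1 b2 hsq
  obtain ⟨h01, hlow⟩ := aux_low hτ1 hτ0 hm b1 b2 hsq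
  set a := vs - τ * (1 + v) with ha
  set w2 := σ ^ 2 + a ^ 2
  set k := 2 * κ / (1 + κ ^ 2 * E ^ 2) with hk
  have hσk : σ = k * E := by rw [hσ, hk]; ring
  have hk0 : 0 < k := by positivity
  have hNN : NN = c ^ 4 * k ^ 4 * r ^ 2 * w2 := by
    apply mul_left_cancel₀ (a := (E ^ 2) ^ 2) (by positivity)
    rw [g1, hσk]; ring
  have hXN : XN = c ^ 3 * k ^ 2 * r * (σ ^ 2 * (1 + v) - a * (τ - τ0)) := by
    apply mul_left_cancel₀ (a := E ^ 2) (by positivity)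
    rw [g3]
    nth_rewrite 1 [hσk]
    ring
  refine ⟨?_, ?_, ?_, fun hxκ => ?_⟩
  · have h1 : 2 * (κ / (1 + κ ^ 2)) ≤ k := by
      rw [hk, ← mul_div_assoc]
      have : E ^ 2 ≤ 1 := pow_le_one₀ hE0.le hx1
      have := mul_le_mul_of_nonneg_left this (sq_nonneg κ)
      exact div_le_div_of_nonneg_left (by positivity) hq (by linarith)
    have h2 : 0 ≤ κ / (1 + κ ^ 2) := by positivity
    rw [hNN]
    calc _ = c ^ 4 * (2 * (κ / (1 + κ ^ 2))) ^ 4 * (1 / 2) ^ 2 * (1 / 4) := by ring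
      _ ≤ _ := by gcongr <;> linarith
  · have hw0 : 0 ≤ w2 := by linarith
    have hA : w2 + b ^ 2 + r * (1 + v - vss) = 2 * r * √w2 ^ 3 := by
      have h1 : 0 ≤ w2 + b ^ 2 + r * (1 + v - vss) := by
        have : 0 ≤ r * (1 + v - vss) := mul_nonneg (by linarith) (by linarith)
        positivity
      have h2 : 0 ≤ 2 * r * √w2 ^ 3 := by positivity
      rw [← sq_eq_sq₀ h1 h2, hp]
      have := Real.sq_sqrt hw0
      nth_rewrite 1 [← this]
      ring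
    have hS : √NN = c ^ 2 * k ^ 2 * r * √w2 := by
      rw [hNN, show c ^ 4 * k ^ 4 * r ^ 2 * w2 = (c ^ 2 * k ^ 2 * r) ^ 2 * w2 by ring,
        Real.sqrt_mul (sq_nonneg _), Real.sqrt_sq (by positivity)]
    apply mul_left_cancel₀ (a := (E ^ 2) ^ 3) (by positivity)
    rw [g2, hA, hS, hσk]
    field_simp
  · rw [hXN]
    have : 0 ≤ σ ^ 2 * (1 + v) - a * (τ - τ0) := by linarith
    positivity
  · have h1 : κ * E ≤ 1 := by
      calc κ * E ≤ κ * κ⁻¹ := by gcongr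
        _ = 1 := mul_inv_cancel₀ (by linarith)
    have h2 : κ ^ 2 * E ^ 2 ≤ 1 := by
      rw [← mul_pow]; exact pow_le_one₀ (by positivity) h1
    have h3 : 0 ≤ τ := by rw [hτ]; exact div_nonneg (by linarith) hq.le
    have h4 : κ ≤ k := by
      rw [hk, le_div_iff₀ hq]
      have := mul_le_mul_of_nonneg_left h2 (by linarith : 0 ≤ κ)
      linarith
    have h5 : 49 / 50 ≤ σ ^ 2 * (1 + v) - a * (τ - τ0) := by
      have := mul_nonpos_of_nonneg_of_nonpos h3 hτ0'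
      linarith
    rw [hXN]
    calc _ ≤ c ^ 3 * κ ^ 2 * (49 / 50) * (49 / 50) := by
          have : 0 ≤ c ^ 3 * κ ^ 2 := by positivity
          linarith
      _ ≤ _ := by gcongr

theorem Sol.supp (S : Sol (ta κ) δ) {s : ℝ} (hs : 0 ≤ s) :
    Supp (fun θ => 1 + S.v s θ) (S.vt s) (S.vtt s) := by
  have hper : ∀ θ, S.v s (θ + 2 * π) = S.v s θ ∧ S.vt s (θ + 2 * π) = S.vt s θ := fun θ => by
    have h1 := S.Yexp s (θ + 2 * π)
    have h2 : exp (pt s (θ + 2 * π)) = exp (pt s θ) :=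
      exp_eq_exp_iff_exists_int.mpr ⟨1, by simp [pt]; ring⟩
    rw [h2, S.Yexp] at h1
    have h3 := congrArg re h1
    have h4 := congrArg im h1
    simp at h3 h4
    exact ⟨h3.symm, h4.symm⟩
  refine ⟨fun θ => (S.dt s θ).const_add 1, S.dtt s, fun θ => ?_, fun θ => ?_, fun θ => (hper θ).2⟩
  · obtain ⟨b1, -, -, b4⟩ := S.bd s hs θ
    rw [abs_le] at b1 b4
    linarith
  · simp only [(hper θ).1]

theorem surf_inj (hκ : 1 ≤ κ) (S : Sol (ta κ) δ) {c : ℝ} (hc : 0 < c) :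
    InjOn (surf κ c S.Y) (closedBall 0 1) := by
  intro x hx x' _ e
  have e0 := congrFun e 0
  have e1 := congrFun e 1
  have e2 := congrFun e 2
  simp only [surf, cons_val_zero, cons_val_one, cons_val, mul_eq_mul_left_iff, hc.ne',
    or_false] at e0 e1 e2
  have hn : normSq x = normSq x' := by
    have a := normSq_nonneg x
    have b := normSq_nonneg x'
    unfold ver at e2
    rw [sub_left_inj, div_eq_div_iff (by positivity) (by positivity)] at e2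
    have : κ ^ 2 * (normSq x - normSq x') = 0 := by linarith
    rcases mul_eq_zero.mp this with h | h
    · exact absurd h (by positivity)
    · linarith
  have hn' : ‖x‖ = ‖x'‖ := by rw [norm_def, norm_def, hn]
  by_cases h0 : x = 0
  · rw [h0, norm_zero] at hn'
    rw [h0, norm_eq_zero.mp hn'.symm]
  · have h0' : x' ≠ 0 := by
      rw [← norm_pos_iff, ← hn']; exact norm_pos_iff.mpr h0
    have hh : hor κ S.Y x = hor κ S.Y x' := Complex.ext e0 e1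
    have hs := log_nonneg' (mem_closedBall_zero_iff.mp hx)
    have a := exists_xp h0
    have a' := exists_xp h0'
    rw [← hn'] at a'
    rw [← a, ← a', hor_xp, hor_xp] at hh
    have hσ : (sg κ (-Real.log ‖x‖) : ℂ) ≠ 0 := by
      have : 0 < sg κ (-Real.log ‖x‖) := by unfold sg; positivity
      exact_mod_cast this.ne'
    obtain ⟨n, hn⟩ := (S.supp hs).inj (mul_left_cancel₀ hσ hh)
    rw [← a, ← a', hn, xp_eq, xp_eq]
    congr 1
    exact exp_eq_exp_iff_exists_int.mpr ⟨n, by push_cast; ring⟩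

theorem surf_bdry (hκ : 1 ≤ κ) (S : Sol (ta κ) δ) (θ : ℝ) :
    surf κ (sg κ 0 * S.μ)⁻¹ S.Y (xp 0 θ) = inP (crv (q0 δ) (q1 δ) θ) := by
  have h1 : ∀ θ, 1 + S.v 0 θ = S.μ * q0 δ θ := S.bdry
  have h2 : S.vt 0 θ = S.μ * q1 δ θ := by
    have a := (S.dt 0 θ).const_add 1
    simp only [h1] at a
    exact a.unique ((q0_deriv δ θ).const_mul _)
  have hσ : sg κ 0 ≠ 0 := by rw [sg_zero]; positivity
  have hμ : S.μ ≠ 0 := by linarith [S.hμ.1]
  simp only [surf, inP, hor_xp, ver_xp, re_ofReal_mul, im_ofReal_mul, crv_re, crv_im, h1, h2]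
  congr 1
  · field_simp
  · congr 1
    · field_simp
    · simp

theorem exists_disk (h0 : 0 ≤ δ) (h1 : δ ≤ 1 / 10 ^ 13) (V : ℝ) :
    ∃ X, IsCMCDisk X (range (crv (q0 δ) (q1 δ))) ∧ V < vol X ∧
      ∀ z ∈ closedBall (0 : ℂ) 1, 0 ≤ X z 2 := by
  obtain ⟨κ, hκ, hV⟩ : ∃ κ : ℝ, 1 ≤ κ ∧ 128 * V < κ :=
    ⟨max 1 (128 * V + 1), le_max_left _ _, lt_of_lt_of_le (lt_add_one _) (le_max_right _ _)⟩
  obtain ⟨S⟩ : Nonempty (Sol (ta κ) δ) := exists_sol h0 h1 (norm_taB κ)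
  have hσ : 0 < sg κ 0 := by rw [sg_zero]; positivity
  have hμ : 0 < S.μ := by linarith [S.hμ.1]
  set c := (sg κ 0 * S.μ)⁻¹ with hcdef
  have hc : 0 < c := by positivity
  set X := surf κ c S.Y with hXdef
  have hX : ContDiff ℝ 2 X := surf_smooth κ c S.hY
  have cN : Continuous fun x => nrm X x ⬝ᵥ nrm X x := by
    have := nrm_cont hX
    fun_prop
  have cX : Continuous fun x => X x ⬝ᵥ nrm X x := by
    have := nrm_cont hX
    have := hX.continuous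
    fun_prop
  have cH : Continuous fun x => numer X x - 2 * (-c⁻¹) * √(nrm X x ⬝ᵥ nrm X x) ^ 3 :=
    (numer_cont hX).sub (continuous_const.mul (cN.sqrt.pow 3))
  have all : ∀ {f : ℂ → ℝ}, Continuous f → ∀ {ρ : ℝ}, 0 < ρ →
      (∀ x, x ≠ 0 → ‖x‖ ≤ ρ → 0 ≤ f x) → ∀ x ∈ closedBall (0 : ℂ) ρ, 0 ≤ f x :=
    fun hf ρ hρ h x hx => by
      by_cases hx0 : x = 0
      · rw [hx0]; exact at_zero hf hρ h
      · exact h x hx0 (mem_closedBall_zero_iff.mp hx)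
  have p1 := all (cN.sub (continuous_const (y := c ^ 4 * (κ / (1 + κ ^ 2)) ^ 4))) one_pos
    fun x hx hx1 => sub_nonneg.mpr (pointwise hκ S hc hx hx1).1
  have p2 := all cH one_pos fun x hx hx1 => sub_nonneg.mpr (pointwise hκ S hc hx hx1).2.1.ge
  have p2' := all cH.neg one_pos fun x hx hx1 =>
    neg_nonneg.mpr (sub_nonpos.mpr (pointwise hκ S hc hx hx1).2.1.le)
  have p3 := all cX one_pos fun x hx hx1 => (pointwise hκ S hc hx hx1).2.2.1
  have hκ1 : κ⁻¹ ≤ 1 := inv_le_one_of_one_le₀ hκ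
  have p4 := all (cX.sub (continuous_const (y := c ^ 3 * κ ^ 2 / 2)))
    (inv_pos.mpr (by linarith : 0 < κ))
    fun x hx hx1 => sub_nonneg.mpr ((pointwise hκ S hc hx (hx1.trans hκ1)).2.2.2 hx1)
  have hpos : ∀ z ∈ closedBall (0 : ℂ) 1, 0 < nrm X z ⬝ᵥ nrm X z := fun z hz => by
    have a := p1 z hz
    have b : 0 < c ^ 4 * (κ / (1 + κ ^ 2)) ^ 4 := by positivity
    simp only [Pi.sub_apply] at a
    linarith
  refine ⟨X, ⟨hX, surf_inj hκ S hc, fun z hz e => ?_, ⟨-c⁻¹, fun z hz => ?_⟩, ?_⟩, ?_,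
    fun z hz => ?_⟩
  · have := hpos z hz
    rw [e, zero_dotProduct] at this
    exact lt_irrefl _ this
  · refine meanCurv_eq (hpos z hz) ?_
    have a := p2 z hz
    have b := p2' z hz
    simp only [Pi.neg_apply] at b
    linarith
  · ext p
    constructor
    · rintro ⟨z, hz, rfl⟩
      rw [mem_sphere_zero_iff_norm] at hz
      have hz0 : z ≠ 0 := by rw [← norm_pos_iff, hz]; exact one_pos
      have a := exists_xp hz0
      rw [hz, Real.log_one, neg_zero] at a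
      exact ⟨_, ⟨arg z, rfl⟩, by rw [← surf_bdry hκ S, a]⟩
    · rintro ⟨_, ⟨θ, rfl⟩, rfl⟩
      exact ⟨xp 0 θ, by rw [mem_sphere_zero_iff_norm, norm_xp]; simp, surf_bdry hκ S θ⟩
  · have i1 : IntegrableOn (fun x => X x ⬝ᵥ nrm X x) (closedBall (0 : ℂ) 1) :=
      cX.continuousOn.integrableOn_compact (isCompact_closedBall _ _)
    have i2 : ∫ z in closedBall (0 : ℂ) κ⁻¹, X z ⬝ᵥ nrm X z ≤
        ∫ z in closedBall (0 : ℂ) 1, X z ⬝ᵥ nrm X z :=
      setIntegral_mono_set i1 ((ae_restrict_iff' measurableSet_closedBall).mpr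
        (Eventually.of_forall p3)) (closedBall_subset_closedBall hκ1).eventuallyLE
    have i3 : (c ^ 3 * κ ^ 2 / 2) * (volume : Measure ℂ).real (closedBall (0 : ℂ) κ⁻¹) ≤
        ∫ z in closedBall (0 : ℂ) κ⁻¹, X z ⬝ᵥ nrm X z :=
      setIntegral_ge_of_const_le_real measurableSet_closedBall measure_closedBall_lt_top.ne
        (fun x hx => by have := p4 x hx; simp only [Pi.sub_apply] at this; linarith)
        (i1.mono_set (closedBall_subset_closedBall hκ1))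
    have i4 : (volume : Measure ℂ).real (closedBall (0 : ℂ) κ⁻¹) = κ⁻¹ ^ 2 * π := by
      rw [Measure.real, Complex.volume_closedBall]
      simp [ENNReal.toReal_ofReal (inv_nonneg.mpr (by linarith : 0 ≤ κ))]
    have i5 : κ / 4 ≤ c := by
      rw [hcdef, le_inv_comm₀ (by positivity) (by positivity), sg_zero]
      calc _ ≤ 2 * κ / κ ^ 2 * 2 := by
            gcongr
            · linarith
            · exact S.hμ.2
        _ = _ := by field_simp; norm_num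
    have i6 : κ / 64 ≤ c ^ 3 := by
      calc κ / 64 ≤ (κ / 4) ^ 3 := by nlinarith [mul_le_mul hκ hκ zero_le_one (by linarith)]
        _ ≤ _ := by gcongr
    have i7 : c ^ 3 * κ ^ 2 / 2 * (κ⁻¹ ^ 2 * π) = c ^ 3 * π / 2 := by field_simp
    rw [i4, i7] at i3
    unfold vol
    nlinarith [Real.pi_gt_three, pow_pos hc 3]
  · have : X z 2 = c * ver κ z := by simp [hXdef, surf]
    rw [this]
    refine mul_nonneg hc.le ?_
    have a := normSq_nonneg z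
    have b : normSq z ≤ 1 := by
      rw [normSq_eq_norm_sq]
      exact pow_le_one₀ (norm_nonneg _) (mem_closedBall_zero_iff.mp hz)
    rw [ver, ta_zero, sub_nonneg, div_le_div_iff₀ (by positivity) (by positivity)]
    nlinarith [mul_le_mul_of_nonneg_left b (sq_nonneg κ)]

end Pool.Agent.Lib.MP_28d281_gt
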