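import Pool.Agent.Lib.MP_28d281_gt.Fix
import Pool.Agent.Lib.MP_28d281_gt.Series

open Filter Topology Set

namespace Pool.Agent.Lib.MP_28d281_gt

noncomputable def p0 (x : ℝ) : ℝ := Real.exp (-x) * Real.smoothTransition (x + 2)
noncomputable def p1 : ℝ → ℝ := deriv p0
noncomputable def p2 : ℝ → ℝ := deriv p1

theorem p0_smooth : ContDiff ℝ 2 p0 := by
  unfold p0
  exact (Real.contDiff_exp.comp contDiff_neg).mul
    (Real.smoothTransition.contDiff.comp (contDiff_id.add contDiff_const))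

theorem p1_smooth : ContDiff ℝ 1 p1 := p0_smooth.deriv' (n := 1)

theorem p0_deriv (x : ℝ) : HasDerivAt p0 (p1 x) x :=
  (p0_smooth.differentiable (by norm_num) x).hasDerivAt

theorem p1_deriv (x : ℝ) : HasDerivAt p1 (p2 x) x :=
  (p1_smooth.differentiable (by norm_num) x).hasDerivAt

theorem p2_cont : Continuous p2 := p1_smooth.continuous_deriv le_rfl

theorem p0_eq {x : ℝ} (hx : -1 < x) : p0 x = Real.exp (-x) := by
  rw [p0, Real.smoothTransition.one_of_one_le (by linarith), mul_one]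

theorem p1_eq {x : ℝ} (hx : -1 < x) : p1 x = -Real.exp (-x) := by
  have h : p0 =ᶠ[𝓝 x] fun x => Real.exp (-x) := by
    filter_upwards [lt_mem_nhds hx] with y hy using p0_eq hy
  rw [p1, h.deriv_eq]
  simpa using (hasDerivAt_neg x).exp.deriv

theorem p2_eq {x : ℝ} (hx : -1 < x) : p2 x = Real.exp (-x) := by
  have h : p1 =ᶠ[𝓝 x] fun x => -Real.exp (-x) := by
    filter_upwards [lt_mem_nhds hx] with y hy using p1_eq hy
  rw [p2, h.deriv_eq]
  simpa using (hasDerivAt_neg x).exp.neg.deriv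

theorem p0_z {x : ℝ} (hx : x < -2) : p0 x = 0 := by
  rw [p0, Real.smoothTransition.zero_of_nonpos (by linarith), mul_zero]

theorem p1_z {x : ℝ} (hx : x < -2) : p1 x = 0 := by
  have h : p0 =ᶠ[𝓝 x] fun _ => 0 := by
    filter_upwards [gt_mem_nhds hx] with y hy using p0_z hy
  rw [p1, h.deriv_eq, deriv_const]

theorem p2_z {x : ℝ} (hx : x < -2) : p2 x = 0 := by
  have h : p1 =ᶠ[𝓝 x] fun _ => 0 := by
    filter_upwards [gt_mem_nhds hx] with y hy using p1_z hy
  rw [p2, h.deriv_eq, deriv_const]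

theorem bdd_aux {f : ℝ → ℝ} (hf : Continuous f) (h1 : ∀ x < -2, f x = 0)
    (h2 : ∀ x, 0 ≤ x → |f x| ≤ 1) : ∃ C, 1 ≤ C ∧ ∀ x, |f x| ≤ C := by
  obtain ⟨C, hC⟩ := (isCompact_Icc (a := (-2 : ℝ)) (b := 0)).exists_bound_of_continuousOn
    hf.continuousOn
  refine ⟨max C 1, le_max_right _ _, fun x => ?_⟩
  by_cases a : x < -2
  · rw [h1 x a, abs_zero]; positivity
  · by_cases b : 0 ≤ x
    · exact (h2 x b).trans (le_max_right _ _)
    · exact (hC x ⟨by linarith, by linarith⟩).trans (le_max_left _ _)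

theorem p_bdd : ∃ C, 0 ≤ C ∧ ∀ x, |p0 x| ≤ C ∧ |p1 x| ≤ C ∧ |p2 x| ≤ C := by
  have he : ∀ x : ℝ, 0 ≤ x → |Real.exp (-x)| ≤ 1 := fun x hx => by
    rw [abs_of_pos (Real.exp_pos _)]; exact Real.exp_le_one_iff.mpr (by linarith)
  obtain ⟨a, a1, a2⟩ := bdd_aux p0_smooth.continuous (fun x => p0_z)
    (fun x hx => by rw [p0_eq (by linarith)]; exact he x hx)
  obtain ⟨b, b1, b2⟩ := bdd_aux p1_smooth.continuous (fun x => p1_z)
    (fun x hx => by rw [p1_eq (by linarith), abs_neg]; exact he x hx)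
  obtain ⟨c, c1, c2⟩ := bdd_aux p2_cont (fun x => p2_z)
    (fun x hx => by rw [p2_eq (by linarith)]; exact he x hx)
  exact ⟨a + b + c, by linarith, fun x => ⟨by linarith [a2 x], by linarith [b2 x],
    by linarith [c2 x]⟩⟩

noncomputable def am (n : ℤ) (F : BC) (β : ℝ) : ℝ := β + (Sn n F 0 + Tn n F 0) / (2 * fa n)

noncomputable def m0 (n : ℤ) (F : BC) (β s : ℝ) : ℝ :=
  if n = 0 then Tn 0 (Tn 0 F) s else
    -(Sn n F s + Tn n F s) / (2 * fa n) + am n F β * p0 (fb n * s)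

noncomputable def m1 (n : ℤ) (F : BC) (β s : ℝ) : ℝ :=
  if n = 0 then -Tn 0 F s else
    (Sn n F s - Tn n F s) / 2 + am n F β * (fb n * p1 (fb n * s) - 16 * p0 (fb n * s))

noncomputable def m2 (n : ℤ) (F : BC) (β s : ℝ) : ℝ :=
  if n = 0 then F s else
    F s - fa n * (Sn n F s + Tn n F s) / 2 + am n F β *
      (fb n ^ 2 * p2 (fb n * s) - 32 * fb n * p1 (fb n * s) + 256 * p0 (fb n * s))

theorem Sn_deriv (n : ℤ) (F : BC) (s : ℝ) :
    HasDerivAt (Sn n F) (-fb n * Sn n F s + F s) s := bw_deriv _ _ F s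

theorem Tn_deriv (n : ℤ) (F : BC) (s : ℝ) :
    HasDerivAt (Tn n F) (fc n * Tn n F s - F s) s := fw_deriv _ _ F s

theorem m0_deriv (n : ℤ) (F : BC) (β s : ℝ) :
    HasDerivAt (m0 n F β) (m1 n F β s + 16 * m0 n F β s) s := by
  unfold m0 m1
  by_cases hn : n = 0
  · simp only [if_pos hn]
    refine (Tn_deriv 0 (Tn 0 F) s).congr_deriv ?_
    simp [fc, fa]
    ring
  · simp only [if_neg hn]
    have h := fa_ge hn
    have hp := (p0_deriv (fb n * s)).comp s ((hasDerivAt_id s).const_mul (fb n))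
    refine ((((Sn_deriv n F s).add (Tn_deriv n F s)).neg.div_const (2 * fa n)).add
      (hp.const_mul (am n F β))).congr_deriv ?_
    simp only [fc, fb_eq hn]
    field_simp
    ring

theorem m1_deriv (n : ℤ) (F : BC) (β s : ℝ) :
    HasDerivAt (m1 n F β) (m2 n F β s + 16 * m1 n F β s) s := by
  unfold m1 m2
  by_cases hn : n = 0
  · simp only [if_pos hn]
    refine (Tn_deriv 0 F s).neg.congr_deriv ?_
    simp [fc, fa]
    ring
  · simp only [if_neg hn]
    have hp := (p0_deriv (fb n * s)).comp s ((hasDerivAt_id s).const_mul (fb n))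
    have hq := (p1_deriv (fb n * s)).comp s ((hasDerivAt_id s).const_mul (fb n))
    refine ((((Sn_deriv n F s).sub (Tn_deriv n F s)).div_const 2).add
      (((hq.const_mul (fb n)).sub (hp.const_mul 16)).const_mul (am n F β))).congr_deriv ?_
    simp only [fc, fb_eq hn]
    ring

theorem m2_cont (n : ℤ) (F : BC) (β : ℝ) : Continuous (m2 n F β) := by
  unfold m2
  have h0 := p0_smooth.continuous
  have h1 := p1_smooth.continuous
  have h2 := p2_cont
  by_cases hn : n = 0
  · simp only [if_pos hn]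
    exact F.continuous
  · simp only [if_neg hn]
    fun_prop

theorem m_bound {C : ℝ} (hC : 0 ≤ C) (hp : ∀ x, |p0 x| ≤ C ∧ |p1 x| ≤ C ∧ |p2 x| ≤ C)
    (n : ℤ) (F : BC) (β s : ℝ) :
    (1 + fa n) ^ 2 * |m0 n F β s| ≤ 6 * ‖F‖ + 4 * C * (fa n ^ 2 * |β| + 2 * ‖F‖) ∧
    (1 + fa n) * |m1 n F β s| ≤ 6 * ‖F‖ + 4 * C * (fa n ^ 2 * |β| + 2 * ‖F‖) ∧
    |m2 n F β s| ≤ 6 * ‖F‖ + 4 * C * (fa n ^ 2 * |β| + 2 * ‖F‖) := by
  have hF := norm_nonneg F
  have ev : ∀ G : BC, ∀ x, |G x| ≤ ‖G‖ := fun G x => by simpa using G.norm_coe_le_norm x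
  by_cases hn : n = 0
  · subst hn
    have h0 : 0 ≤ 4 * C * (fa 0 ^ 2 * |β| + 2 * ‖F‖) := by positivity
    simp only [m0, m1, m2, if_true, fa_zero, add_zero, one_pow, one_mul, abs_neg] at h0 ⊢
    have a1 := norm_T0 F
    have a2 := norm_T0 (Tn 0 F)
    refine ⟨?_, ?_, ?_⟩
    · linarith [ev (Tn 0 (Tn 0 F)) s]
    · linarith [ev (Tn 0 F) s]
    · linarith [ev F s]
  · have ha := fa_ge hn
    have hb := fb_eq hn
    obtain ⟨q0, q1, q2⟩ := hp (fb n * s)
    have hST : fa n * (|Sn n F s| + |Tn n F s|) ≤ 3 * ‖F‖ := by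
      have := norm_ST hn F
      have h2 : |Sn n F s| + |Tn n F s| ≤ 3 / fa n * ‖F‖ := by
        linarith [ev (Sn n F) s, ev (Tn n F) s]
      calc _ ≤ fa n * (3 / fa n * ‖F‖) := by gcongr
        _ = _ := by field_simp
    have hA : fa n ^ 2 * |am n F β| ≤ fa n ^ 2 * |β| + 2 * ‖F‖ := by
      have h1 : |am n F β| ≤ |β| + (3 / fa n * ‖F‖) / (2 * fa n) := by
        refine (abs_add_le _ _).trans ?_
        rw [abs_div, abs_of_pos (by positivity : 0 < 2 * fa n)]
        gcongr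
        exact abs_ST0 hn F
      calc _ ≤ fa n ^ 2 * (|β| + (3 / fa n * ‖F‖) / (2 * fa n)) := by gcongr
        _ = fa n ^ 2 * |β| + 3 / 2 * ‖F‖ := by field_simp
        _ ≤ _ := by linarith
    simp only [m0, m1, m2, if_neg hn]
    set a := fa n
    set b := fb n
    set S := Sn n F s
    set T := Tn n F s
    set A := am n F β
    set Z := a ^ 2 * |β| + 2 * ‖F‖
    have hb0 : 0 ≤ b := by linarith
    have hZ : C * (a ^ 2 * |A|) ≤ C * Z := by gcongr
    have hCA : 0 ≤ C * (a ^ 2 * |A|) := by positivity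
    refine ⟨?_, ?_, ?_⟩
    · have h1 : |-(S + T) / (2 * a) + A * p0 (b * s)| ≤ (|S| + |T|) / (2 * a) + |A| * C := by
        refine (abs_add_le _ _).trans ?_
        rw [abs_div, abs_neg, abs_of_pos (by positivity : 0 < 2 * a), abs_mul]
        gcongr
        exact abs_add_le _ _
      calc _ ≤ (2 * a) ^ 2 * ((|S| + |T|) / (2 * a) + |A| * C) := by gcongr; linarith
        _ = 2 * (a * (|S| + |T|)) + 4 * (C * (a ^ 2 * |A|)) := by field_simp; ring
        _ ≤ _ := by linarith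
    · have h1 : |(S - T) / 2 + A * (b * p1 (b * s) - 16 * p0 (b * s))| ≤
          (|S| + |T|) / 2 + |A| * (b * C + 16 * C) := by
        refine (abs_add_le _ _).trans ?_
        rw [abs_div, abs_two, abs_mul]
        gcongr
        · exact abs_sub _ _
        · refine (abs_sub _ _).trans ?_
          rw [abs_mul, abs_mul, abs_of_nonneg hb0, abs_of_pos (by norm_num : (0 : ℝ) < 16)]
          gcongr
      calc _ ≤ (2 * a) * ((|S| + |T|) / 2 + |A| * (b * C + 16 * C)) := by gcongr; linarith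
        _ = a * (|S| + |T|) + 2 * (C * (a ^ 2 * |A|)) := by rw [hb]; ring
        _ ≤ _ := by linarith
    · have h1 : |F s - a * (S + T) / 2 + A *
          (b ^ 2 * p2 (b * s) - 32 * b * p1 (b * s) + 256 * p0 (b * s))| ≤
          ‖F‖ + a * (|S| + |T|) / 2 + |A| * (b ^ 2 * C + 32 * b * C + 256 * C) := by
        refine (abs_add_le _ _).trans ?_
        rw [abs_mul]
        gcongr
        · refine (abs_sub _ _).trans ?_
          rw [abs_div, abs_two, abs_mul, abs_of_pos (by linarith : 0 < a)]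
          gcongr
          · exact ev F s
          · exact abs_add_le _ _
        · refine (abs_add_le _ _).trans (add_le_add ((abs_sub _ _).trans ?_) ?_)
          · rw [abs_mul, abs_mul, abs_of_nonneg (by positivity : 0 ≤ b ^ 2),
              abs_of_nonneg (by positivity : 0 ≤ 32 * b)]
            gcongr
          · rw [abs_mul, abs_of_pos (by norm_num : (0 : ℝ) < 256)]
            gcongr
      calc _ ≤ _ := h1
        _ = ‖F‖ + a * (|S| + |T|) / 2 + C * (a ^ 2 * |A|) := by rw [hb]; ring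
        _ ≤ _ := by linarith

noncomputable def ind (n : ℤ) : ℝ := if n = 1 ∨ n = -1 then 1 else 0

theorem ind_neg (n : ℤ) : ind (-n) = ind n := by
  unfold ind
  congr 1
  apply propext
  omega

theorem hb_eq (n : ℤ) (s : ℝ) : hb n s = ind n * eta n s := by
  unfold hb ind
  split_ifs <;> simp

theorem eta_eq (n : ℤ) {s : ℝ} (hs : 0 ≤ s) : eta n s = Real.exp (-(fb n * s)) := by
  rw [eta, expPlus_apply _ _ _ hs, neg_mul]

theorem m0_eq (n : ℤ) (F : BC) (β : ℝ) {s : ℝ} (hs : 0 ≤ s) :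
    m0 n F (β * ind n) s = G0 n F s + β * hb n s := by
  rw [hb_eq]
  by_cases hn : n = 0
  · subst hn
    simp [m0, G0_zero, ind]
  · have h := fa_ge hn
    have hx : -1 < fb n * s := by nlinarith [fb_pos n]
    simp only [m0, if_neg hn, G0_ne hn, am, p0_eq hx, BoundedContinuousFunction.smul_apply,
      BoundedContinuousFunction.sub_apply, BoundedContinuousFunction.add_apply, Hn_apply,
      eta_eq n hs, smul_eq_mul]
    field_simp
    ring

theorem m1_eq (n : ℤ) (F : BC) (β : ℝ) {s : ℝ} (hs : 0 ≤ s) :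
    m1 n F (β * ind n) s = G1 n F s + β * -fa n * hb n s := by
  rw [hb_eq]
  by_cases hn : n = 0
  · subst hn
    simp [m1, G1_zero, ind]
  · have h := fa_ge hn
    have hx : -1 < fb n * s := by nlinarith [fb_pos n]
    simp only [m1, if_neg hn, G1_ne hn, am, p0_eq hx, p1_eq hx,
      BoundedContinuousFunction.smul_apply,
      BoundedContinuousFunction.sub_apply, Hn_apply, eta_eq n hs, smul_eq_mul]
    generalize Real.exp (-(fb n * s)) = e
    rw [fb_eq hn]
    field_simp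
    ring

theorem m2_eq (n : ℤ) (F : BC) (β : ℝ) {s : ℝ} (hs : 0 ≤ s) :
    m2 n F β s = F s + fa n ^ 2 * m0 n F β s := by
  by_cases hn : n = 0
  · subst hn
    simp [m2, fa_zero]
  · have h := fa_ge hn
    have hx : -1 < fb n * s := by nlinarith [fb_pos n]
    simp only [m0, m2, if_neg hn, p0_eq hx, p1_eq hx, p2_eq hx]
    generalize Real.exp (-(fb n * s)) = e
    rw [fb_eq hn]
    field_simp
    ring

theorem m0_bdry {n : ℤ} (hn : n ≠ 0) (F : BC) (β : ℝ) : m0 n F β 0 = β := by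
  have h := fa_ge hn
  simp only [m0, if_neg hn, am, mul_zero, p0_eq (by norm_num : (-1 : ℝ) < 0)]
  simp
  ring

theorem m0_neg (n : ℤ) (F : BC) (β s : ℝ) : m0 (-n) F β s = m0 n F β s := by
  simp only [m0, am, neg_eq_zero, fa_neg, fb_neg, Sn_neg, Tn_neg]

theorem m1_neg (n : ℤ) (F : BC) (β s : ℝ) : m1 (-n) F β s = m1 n F β s := by
  simp only [m1, am, neg_eq_zero, fa_neg, fb_neg, Sn_neg, Tn_neg]

theorem m2_neg (n : ℤ) (F : BC) (β s : ℝ) : m2 (-n) F β s = m2 n F β s := by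
  simp only [m2, am, neg_eq_zero, fa_neg, fb_neg, Sn_neg, Tn_neg]

end Pool.Agent.Lib.MP_28d281_gt
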