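import Pool.Agent.Lib.MP_28d281_gt.Alg

open BoundedContinuousFunction MeasureTheory Set

namespace Pool.Agent.Lib.MP_28d281_gt

noncomputable def raw (c : ℝ) (F : BC) (s : ℝ) : ℝ :=
  Real.exp (c * s) * ∫ y in Ioi s, Real.exp (-c * y) * F y

theorem raw_int {c : ℝ} (hc : 0 < c) (F : BC) (s : ℝ) :
    IntegrableOn (fun y => Real.exp (-c * y) * F y) (Ioi s) := by
  refine Integrable.mono' ((integrableOn_exp_mul_Ioi (neg_lt_zero.mpr hc) s).mul_const ‖F‖)
    (by fun_prop : Continuous fun y => Real.exp (-c * y) * F y).aestronglyMeasurable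
    (Filter.Eventually.of_forall fun y => ?_)
  rw [norm_mul, Real.norm_of_nonneg (Real.exp_pos _).le]
  gcongr
  exact F.norm_coe_le_norm y

theorem raw_bound {c : ℝ} (hc : 0 < c) (F : BC) (s : ℝ) : ‖raw c F s‖ ≤ c⁻¹ * ‖F‖ := by
  unfold raw
  have h1 : ‖∫ y in Ioi s, Real.exp (-c * y) * F y‖ ≤ ∫ y in Ioi s, Real.exp (-c * y) * ‖F‖ := by
    refine norm_integral_le_of_norm_le
      ((integrableOn_exp_mul_Ioi (neg_lt_zero.mpr hc) s).mul_const ‖F‖)
      (Filter.Eventually.of_forall fun y => ?_)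
    rw [norm_mul, Real.norm_of_nonneg (Real.exp_pos _).le]
    gcongr
    exact F.norm_coe_le_norm y
  rw [integral_mul_const, integral_exp_mul_Ioi (neg_lt_zero.mpr hc)] at h1
  rw [norm_mul, Real.norm_of_nonneg (Real.exp_pos _).le]
  have h2 : Real.exp (c * s) * Real.exp (-c * s) = 1 := by
    rw [← Real.exp_add]; simp
  calc _ ≤ Real.exp (c * s) * (-Real.exp (-c * s) / -c * ‖F‖) := by gcongr
    _ = (Real.exp (c * s) * Real.exp (-c * s)) * (c⁻¹ * ‖F‖) := by field_simp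
    _ = _ := by rw [h2, one_mul]

theorem raw_deriv {c : ℝ} (hc : 0 < c) (F : BC) (s : ℝ) :
    HasDerivAt (raw c F) (c * raw c F s - F s) s := by
  have hcont : Continuous fun y => Real.exp (-c * y) * F y := by fun_prop
  have h1 : (fun s => ∫ y in Ioi s, Real.exp (-c * y) * F y) = fun s =>
      (∫ y in Ioi 0, Real.exp (-c * y) * F y) - ∫ y in (0 : ℝ)..s, Real.exp (-c * y) * F y := by
    funext s
    rw [← intervalIntegral.integral_interval_add_Ioi (raw_int hc F 0) (raw_int hc F s)]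
    ring
  have h2 : HasDerivAt (fun s => ∫ y in Ioi s, Real.exp (-c * y) * F y)
      (-(Real.exp (-c * s) * F s)) s := by
    rw [h1]
    exact (hcont.deriv_integral _ 0 s ▸
      (intervalIntegral.integral_hasDerivAt_right (hcont.intervalIntegrable _ _)
        (hcont.stronglyMeasurableAtFilter _ _) hcont.continuousAt).differentiableAt.hasDerivAt).const_sub _
  have h3 : HasDerivAt (fun s => Real.exp (c * s)) (Real.exp (c * s) * c) s := by
    simpa using ((hasDerivAt_id s).const_mul c).exp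
  have h4 : Real.exp (c * s) * Real.exp (-c * s) = 1 := by
    rw [← Real.exp_add]; simp
  refine (h3.mul h2).congr_deriv ?_
  unfold raw
  linear_combination (-F s) * h4

noncomputable def fwF (c : ℝ) (hc : 0 < c) (F : BC) : BC :=
  BoundedContinuousFunction.ofNormedAddCommGroup (raw c F)
    (continuous_iff_continuousAt.mpr fun s => (raw_deriv hc F s).continuousAt) _ (raw_bound hc F)

theorem fwF_apply (c : ℝ) (hc : 0 < c) (F : BC) (s : ℝ) : fwF c hc F s = raw c F s := rfl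

theorem norm_fwF (c : ℝ) (hc : 0 < c) (F : BC) : ‖fwF c hc F‖ ≤ c⁻¹ * ‖F‖ :=
  BoundedContinuousFunction.norm_ofNormedAddCommGroup_le _
    (mul_nonneg (inv_nonneg.mpr hc.le) (norm_nonneg _)) (raw_bound hc F)

noncomputable def fw (c : ℝ) (hc : 0 < c) : BC →L[ℝ] BC :=
  LinearMap.mkContinuous
    { toFun := fwF c hc
      map_add' := fun F G => by
        ext s
        simp only [fwF_apply, raw, BoundedContinuousFunction.add_apply, mul_add]
        rw [integral_add (raw_int hc F s) (raw_int hc G s), mul_add]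
      map_smul' := fun a F => by
        ext s
        simp only [fwF_apply, raw, BoundedContinuousFunction.smul_apply,
          smul_eq_mul, RingHom.id_apply]
        rw [mul_left_comm a, ← integral_const_mul a]
        congr 2
        funext y
        ring } c⁻¹ (norm_fwF c hc)

theorem norm_fw (c : ℝ) (hc : 0 < c) : Bd (fw c hc) c⁻¹ := norm_fwF c hc

theorem fw_deriv (c : ℝ) (hc : 0 < c) (F : BC) (s : ℝ) :
    HasDerivAt (fw c hc F) (c * fw c hc F s - F s) s := raw_deriv hc F s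

noncomputable def refl : BC →L[ℝ] BC :=
  BoundedContinuousFunction.compContinuousCLM ℝ ℝ ⟨fun s : ℝ => -s, continuous_neg⟩

theorem refl_apply (F : BC) (s : ℝ) : refl F s = F (-s) := rfl

theorem norm_refl (F : BC) : ‖refl F‖ ≤ ‖F‖ :=
  BoundedContinuousFunction.norm_compContinuous_le _ _

noncomputable def bw (c : ℝ) (hc : 0 < c) : BC →L[ℝ] BC := refl ∘L fw c hc ∘L refl

theorem norm_bw (c : ℝ) (hc : 0 < c) : Bd (bw c hc) c⁻¹ := fun F => by
  have := inv_nonneg.mpr hc.le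
  calc ‖refl (fw c hc (refl F))‖ ≤ ‖fw c hc (refl F)‖ := norm_refl _
    _ ≤ c⁻¹ * ‖refl F‖ := norm_fw c hc _
    _ ≤ _ := by gcongr; exact norm_refl _

theorem bw_deriv (c : ℝ) (hc : 0 < c) (F : BC) (s : ℝ) :
    HasDerivAt (bw c hc F) (-c * bw c hc F s + F s) s := by
  have h := (fw_deriv c hc (refl F) (-s)).comp s (hasDerivAt_neg s)
  have e : bw c hc F s = fw c hc (refl F) (-s) := rfl
  refine HasDerivAt.congr_deriv (f := fun x => fw c hc (refl F) (-x)) h ?_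
  rw [e, refl_apply, neg_neg]
  ring

noncomputable def fa (n : ℤ) : ℝ := 64 * |(n : ℝ)|
noncomputable def fb (n : ℤ) : ℝ := max (fa n - 16) 1
noncomputable def fc (n : ℤ) : ℝ := fa n + 16

theorem fa_nonneg (n : ℤ) : 0 ≤ fa n := by unfold fa; positivity
theorem fb_pos (n : ℤ) : 0 < fb n := lt_of_lt_of_le one_pos (le_max_right _ _)
theorem fc_pos (n : ℤ) : 0 < fc n := by unfold fc; linarith [fa_nonneg n]
theorem fa_ge {n : ℤ} (hn : n ≠ 0) : 64 ≤ fa n := by
  unfold fa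
  have : (1 : ℝ) ≤ |(n : ℝ)| := by exact_mod_cast Int.one_le_abs hn
  linarith
theorem fb_eq {n : ℤ} (hn : n ≠ 0) : fb n = fa n - 16 :=
  max_eq_left (by linarith [fa_ge hn])
theorem fa_neg (n : ℤ) : fa (-n) = fa n := by simp [fa]
theorem fb_neg (n : ℤ) : fb (-n) = fb n := by simp [fb, fa_neg]
theorem fc_neg (n : ℤ) : fc (-n) = fc n := by simp [fc, fa_neg]
theorem fa_sq (n : ℤ) : fa n ^ 2 = (64 * (n : ℝ)) ^ 2 := by
  unfold fa; rw [mul_pow, sq_abs, mul_pow]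
theorem fa_zero : fa 0 = 0 := by simp [fa]

noncomputable def Sn (n : ℤ) : BC →L[ℝ] BC := bw (fb n) (fb_pos n)
noncomputable def Tn (n : ℤ) : BC →L[ℝ] BC := fw (fc n) (fc_pos n)
noncomputable def eta (n : ℤ) : BC := expPlus (fb n) (fb_pos n).le
noncomputable def Hn (n : ℤ) : BC →L[ℝ] BC :=
  ((BoundedContinuousFunction.evalCLM ℝ (0 : ℝ)) ∘L (Sn n + Tn n)).smulRight (eta n)

theorem Sn_neg (n : ℤ) : Sn (-n) = Sn n := by simp only [Sn, fb_neg]
theorem Tn_neg (n : ℤ) : Tn (-n) = Tn n := by simp only [Tn, fc_neg]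
theorem eta_neg (n : ℤ) : eta (-n) = eta n := by simp only [eta, fb_neg]
theorem Hn_neg (n : ℤ) : Hn (-n) = Hn n := by simp only [Hn, Sn_neg, Tn_neg, eta_neg]

theorem Hn_apply (n : ℤ) (F : BC) (s : ℝ) :
    Hn n F s = (Sn n F 0 + Tn n F 0) * eta n s := rfl

theorem norm_ST {n : ℤ} (hn : n ≠ 0) (F : BC) : ‖Sn n F‖ + ‖Tn n F‖ ≤ 3 / fa n * ‖F‖ := by
  have h := fa_ge hn
  have h1 : ‖Sn n F‖ ≤ 2 / fa n * ‖F‖ := by
    refine (norm_bw _ _ F).trans (mul_le_mul_of_nonneg_right ?_ (norm_nonneg _))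
    rw [fb_eq hn, inv_eq_one_div, div_le_div_iff₀ (by linarith) (by linarith)]
    linarith
  have h2 : ‖Tn n F‖ ≤ 1 / fa n * ‖F‖ := by
    refine (norm_fw _ _ F).trans (mul_le_mul_of_nonneg_right ?_ (norm_nonneg _))
    rw [fc, inv_eq_one_div, div_le_div_iff₀ (by linarith) (by linarith)]
    linarith
  calc _ ≤ 2 / fa n * ‖F‖ + 1 / fa n * ‖F‖ := add_le_add h1 h2
    _ = _ := by ring

theorem abs_ST0 {n : ℤ} (hn : n ≠ 0) (F : BC) : |Sn n F 0 + Tn n F 0| ≤ 3 / fa n * ‖F‖ := by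
  refine (abs_add_le _ _).trans (le_trans (add_le_add ?_ ?_) (norm_ST hn F))
  · simpa using (Sn n F).norm_coe_le_norm 0
  · simpa using (Tn n F).norm_coe_le_norm 0

theorem norm_Hn {n : ℤ} (hn : n ≠ 0) (F : BC) : ‖Hn n F‖ ≤ 3 / fa n * ‖F‖ := by
  have h0 : 0 ≤ 3 / fa n := div_nonneg (by norm_num) (fa_nonneg n)
  have e : Hn n F = (Sn n F 0 + Tn n F 0) • eta n := rfl
  rw [e, norm_smul, Real.norm_eq_abs]
  calc _ ≤ (3 / fa n * ‖F‖) * 1 := by
        gcongr
        · exact abs_ST0 hn F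
        · exact norm_expPlus _ _
    _ = _ := mul_one _

noncomputable def G0 (n : ℤ) : BC →L[ℝ] BC :=
  if n = 0 then Tn 0 ∘L Tn 0 else (2 * fa n)⁻¹ • (Hn n - (Sn n + Tn n))

noncomputable def G1 (n : ℤ) : BC →L[ℝ] BC :=
  if n = 0 then -Tn 0 else (2 : ℝ)⁻¹ • (Sn n - Tn n - Hn n)

theorem G0_neg (n : ℤ) : G0 (-n) = G0 n := by
  simp only [G0, neg_eq_zero, fa_neg, Hn_neg, Sn_neg, Tn_neg]

theorem G1_neg (n : ℤ) : G1 (-n) = G1 n := by
  simp only [G1, neg_eq_zero, Hn_neg, Sn_neg, Tn_neg]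

theorem G0_zero (F : BC) : G0 0 F = Tn 0 (Tn 0 F) := by rw [G0, if_pos rfl]; rfl
theorem G1_zero (F : BC) : G1 0 F = -Tn 0 F := by rw [G1, if_pos rfl]; rfl
theorem G0_ne {n : ℤ} (hn : n ≠ 0) (F : BC) :
    G0 n F = (2 * fa n)⁻¹ • (Hn n F - (Sn n F + Tn n F)) := by rw [G0, if_neg hn]; rfl
theorem G1_ne {n : ℤ} (hn : n ≠ 0) (F : BC) :
    G1 n F = (2 : ℝ)⁻¹ • (Sn n F - Tn n F - Hn n F) := by rw [G1, if_neg hn]; rfl

theorem norm_T0 (F : BC) : ‖Tn 0 F‖ ≤ 1 / 16 * ‖F‖ := by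
  refine (norm_fw _ _ F).trans ?_
  simp [fc, fa]

theorem norm_G0 {n : ℤ} (hn : n ≠ 0) : Bd (G0 n) (3 / fa n ^ 2) := fun F => by
  have h := fa_ge hn
  rw [G0_ne hn, norm_smul, Real.norm_of_nonneg (by positivity)]
  have : ‖Hn n F - (Sn n F + Tn n F)‖ ≤ 3 / fa n * ‖F‖ + 3 / fa n * ‖F‖ :=
    (norm_sub_le _ _).trans (add_le_add (norm_Hn hn F) ((norm_add_le _ _).trans (norm_ST hn F)))
  calc _ ≤ (2 * fa n)⁻¹ * (3 / fa n * ‖F‖ + 3 / fa n * ‖F‖) := by gcongr
    _ = _ := by field_simp; ring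

theorem norm_G1 {n : ℤ} (hn : n ≠ 0) : Bd (G1 n) (3 / fa n) := fun F => by
  rw [G1_ne hn, norm_smul, Real.norm_of_nonneg (by positivity)]
  have : ‖Sn n F - Tn n F - Hn n F‖ ≤ 3 / fa n * ‖F‖ + 3 / fa n * ‖F‖ :=
    (norm_sub_le _ _).trans (add_le_add ((norm_sub_le _ _).trans (norm_ST hn F)) (norm_Hn hn F))
  calc _ ≤ (2 : ℝ)⁻¹ * (3 / fa n * ‖F‖ + 3 / fa n * ‖F‖) := by gcongr
    _ = _ := by ring

theorem Bd.mono {L : BC →L[ℝ] BC} {c d : ℝ} (h : Bd L c) (hcd : c ≤ d) : Bd L d := fun F =>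
  (h F).trans (mul_le_mul_of_nonneg_right hcd (norm_nonneg _))

theorem Bd.smul {L : BC →L[ℝ] BC} {c : ℝ} (h : Bd L c) (a : ℝ) : Bd (a • L) (|a| * c) := fun F => by
  have e : (a • L) F = a • L F := rfl
  rw [e, norm_smul, Real.norm_eq_abs, mul_assoc]
  exact mul_le_mul_of_nonneg_left (h F) (abs_nonneg _)

theorem Bd_zero_smul (L : BC →L[ℝ] BC) {c : ℝ} (hc : 0 ≤ c) : Bd ((0 : ℝ) • L) c := fun F => by
  have e : ((0 : ℝ) • L) F = (0 : ℝ) • L F := rfl
  rw [e, zero_smul, norm_zero]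
  positivity

theorem norm_G0_le (n : ℤ) : Bd (G0 n) (1 / 256) := by
  by_cases hn : n = 0
  · intro F
    rw [hn, G0_zero]
    calc _ ≤ 1 / 16 * ‖Tn 0 F‖ := norm_T0 _
      _ ≤ (1 / 16) * (1 / 16 * ‖F‖) := by gcongr; exact norm_T0 _
      _ = _ := by ring
  · refine (norm_G0 hn).mono ?_
    have h := fa_ge hn
    rw [div_le_div_iff₀ (by positivity) (by norm_num)]
    nlinarith

theorem norm_G1_le (n : ℤ) : Bd (G1 n) (1 / 16) := by
  by_cases hn : n = 0
  · intro F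
    rw [hn, G1_zero, norm_neg]
    exact norm_T0 F
  · refine (norm_G1 hn).mono ?_
    have h := fa_ge hn
    rw [div_le_div_iff₀ (by positivity) (by norm_num)]
    nlinarith

theorem abs_freq (n : ℤ) : |64 * (n : ℝ)| = fa n := by
  rw [abs_mul, abs_of_pos (by norm_num : (0 : ℝ) < 64)]; rfl

theorem norm_G0_a (n : ℤ) : Bd ((64 * (n : ℝ)) • G0 n) 1 := by
  by_cases hn : n = 0
  · simpa [hn] using Bd_zero_smul (G0 0) zero_le_one
  · have h := fa_ge hn
    refine ((norm_G0 hn).smul _).mono ?_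
    rw [abs_freq]
    calc _ = 3 / fa n := by field_simp
      _ ≤ 1 := by rw [div_le_one (by linarith)]; linarith

theorem norm_G0_aa (n : ℤ) : Bd ((fa n ^ 2) • G0 n) 3 := by
  by_cases hn : n = 0
  · simpa [hn, fa_zero] using Bd_zero_smul (G0 0) (by norm_num : (0 : ℝ) ≤ 3)
  · have h := fa_ge hn
    refine ((norm_G0 hn).smul _).mono (le_of_eq ?_)
    rw [abs_of_nonneg (by positivity)]
    field_simp

theorem norm_G1_a (n : ℤ) : Bd ((64 * (n : ℝ)) • G1 n) 3 := by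
  by_cases hn : n = 0
  · simpa [hn] using Bd_zero_smul (G0 0) (by norm_num : (0 : ℝ) ≤ 3)
  · have h := fa_ge hn
    refine ((norm_G1 hn).smul _).mono (le_of_eq ?_)
    rw [abs_freq]
    field_simp

end Pool.Agent.Lib.MP_28d281_gt
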