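import Pool.Agent.Lib.MP_28d281_gt.Surf

/-! The fixed point depends continuously on the parameter. -/

open Filter Topology Set

namespace Pool.Agent.Lib.MP_28d281_gt

theorem tendsto_conv {α : Type} {l : Filter α} {f g : α → Al} {F G : Al}
    (hf : Tendsto f l (𝓝 F)) (hg : Tendsto g l (𝓝 G)) :
    Tendsto (fun a => conv (f a) (g a)) l (𝓝 (conv F G)) := by
  rw [tendsto_iff_norm_sub_tendsto_zero] at *
  have h1 : Tendsto (fun a => ‖g a‖) l (𝓝 ‖G‖) :=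
    (tendsto_iff_norm_sub_tendsto_zero.mpr hg).norm
  refine squeeze_zero (fun _ => norm_nonneg _) (fun a => norm_conv_sub _ _ _ _) ?_
  simpa using (hf.mul h1).add (hg.const_mul ‖F‖)

theorem norm_mulB (τ : BC) (F : Al) : ‖mulB τ F‖ ≤ ‖τ‖ * ‖F‖ := norm_diag _ _ _ _

theorem mulB_sub (τ τ' : BC) (F F' : Al) :
    mulB τ F - mulB τ' F' = mulB (τ - τ') F + mulB τ' (F - F') := by
  ext1
  funext n
  simp only [mulB, lp.coeFn_sub, lp.coeFn_add, Pi.sub_apply, Pi.add_apply, diag_apply,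
    ContinuousLinearMap.mul_apply']
  ring

theorem tendsto_mulB {α : Type} {l : Filter α} {t : α → BC} {g : α → Al} {τ : BC} {G : Al}
    (ht : Tendsto t l (𝓝 τ)) (hg : Tendsto g l (𝓝 G)) :
    Tendsto (fun a => mulB (t a) (g a)) l (𝓝 (mulB τ G)) := by
  rw [tendsto_iff_norm_sub_tendsto_zero] at *
  have h1 : Tendsto (fun a => ‖g a‖) l (𝓝 ‖G‖) :=
    (tendsto_iff_norm_sub_tendsto_zero.mpr hg).norm
  refine squeeze_zero (fun _ => norm_nonneg _) (fun a => ?_)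
    (by simpa using (ht.mul h1).add (hg.const_mul ‖τ‖))
  rw [mulB_sub]
  exact (norm_add_le _ _).trans (add_le_add (norm_mulB _ _) (norm_mulB _ _))

theorem tendsto_Phi {α : Type} {l : Filter α} {t : α → BC} {τ : BC} (ht : Tendsto t l (𝓝 τ))
    (δ : ℝ) (F : Al) : Tendsto (fun a => Phi δ (t a) F) l (𝓝 (Phi δ τ F)) := by
  have k : ∀ G : Al, Tendsto (fun _ : α => G) l (𝓝 G) := fun _ => tendsto_const_nhds
  have hM : Tendsto (fun a => nM δ (t a) F) l (𝓝 (nM δ τ F)) :=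
    (((((tendsto_mulB ht (tendsto_mulB ht (k _))).const_smul _).add
      (tendsto_mulB ht (tendsto_mulB ht (k _)))).add ((tendsto_mulB ht (k _)).const_smul _)).add
      ((tendsto_mulB ht (k _)).const_smul _)).add (k _)
  have hA : Tendsto (fun a => nA δ (t a) F) l (𝓝 (nA δ τ F)) :=
    (k _).add ((tendsto_mulB ht (k _)).const_smul _)
  have hA2 : Tendsto (fun a => nA2 δ (t a) F) l (𝓝 (nA2 δ τ F)) :=
    (tendsto_conv hA hA).const_smul _
  have hAl : Tendsto (fun a => nAl δ (t a) F) l (𝓝 (nAl δ τ F)) :=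
    (((hM.add hA2).add (k _)).add (k _)).add (k _)
  have hQ : Tendsto (fun a => nQ δ (t a) F) l (𝓝 (nQ δ τ F)) :=
    ((tendsto_conv hM hM).const_smul _).add (tendsto_conv hM (tendsto_conv hM hM))
  have hR : Tendsto (fun a => nR δ (t a) F) l (𝓝 (nR δ τ F)) :=
    (((k _).add ((tendsto_conv (k _) hM).const_smul _)).add hQ).add (tendsto_conv (k _) hQ)
  exact ((((hM.const_smul _).add hA2).add (k _)).add
    ((tendsto_conv hAl hAl).const_smul _)).add (hR.const_smul _)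

theorem norm_taB_sub (κ : ℝ) {κ' : ℝ} (h : 0 < κ') :
    ‖taB κ - taB κ'‖ ≤ 2 * |κ ^ 2 - κ' ^ 2| / κ' ^ 2 := by
  refine (BoundedContinuousFunction.norm_le (by positivity)).mpr fun s => ?_
  change ‖ta κ s - ta κ' s‖ ≤ _
  unfold ta
  have hE : 0 < Real.exp (-s) ^ 2 := by positivity
  generalize Real.exp (-s) ^ 2 = E at hE
  have e : (1 - κ ^ 2 * E) / (1 + κ ^ 2 * E) - (1 - κ' ^ 2 * E) / (1 + κ' ^ 2 * E) =
      -(2 * (κ ^ 2 - κ' ^ 2)) * (E / ((1 + κ ^ 2 * E) * (1 + κ' ^ 2 * E))) := by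
    field_simp
    ring
  have h1 : E / ((1 + κ ^ 2 * E) * (1 + κ' ^ 2 * E)) ≤ 1 / κ' ^ 2 := by
    rw [div_le_div_iff₀ (by positivity) (by positivity)]
    have : 0 ≤ κ ^ 2 * E * (1 + κ' ^ 2 * E) := by positivity
    nlinarith
  rw [e, Real.norm_eq_abs, abs_mul, abs_neg, abs_mul, abs_two,
    abs_of_nonneg (a := E / _) (by positivity), div_eq_mul_one_div _ (κ' ^ 2)]
  gcongr

theorem taB_cont {κ : ℝ} (h : 0 < κ) : ContinuousAt taB κ := by
  rw [ContinuousAt, tendsto_iff_norm_sub_tendsto_zero]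
  refine squeeze_zero (fun _ => norm_nonneg _) (fun a => norm_taB_sub a h) ?_
  have : Continuous fun a : ℝ => 2 * |a ^ 2 - κ ^ 2| / κ ^ 2 := by fun_prop
  simpa using this.tendsto κ

variable {δ : ℝ}

theorem exists_branch (hδ : 0 ≤ δ) (hδ' : δ ≤ 1 / 10 ^ 13) : ∃ F : ℝ → Al,
    (∀ κ, F κ ∈ SS ∧ Phi δ (taB κ) (F κ) = F κ) ∧ ∀ κ, 0 < κ → ContinuousAt F κ := by
  choose F h1 h2 using fun κ => exists_fixed (good_Phi hδ hδ' (norm_taB κ))
  refine ⟨F, fun κ => ⟨h1 κ, h2 κ⟩, fun κ hκ => ?_⟩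
  rw [ContinuousAt, tendsto_iff_norm_sub_tendsto_zero]
  have h3 := tendsto_iff_norm_sub_tendsto_zero.mp (tendsto_Phi (taB_cont hκ) δ (F κ))
  refine squeeze_zero (fun _ => norm_nonneg _) (fun a => ?_) (by simpa using h3.const_mul 2)
  have a1 := (good_Phi hδ hδ' (norm_taB a)).2.2 _ (h1 a) _ (h1 κ)
  have a2 := norm_sub_le_norm_sub_add_norm_sub (F a) (Phi δ (taB a) (F κ)) (F κ)
  rw [h2 a] at a1
  rw [h2 κ]
  linarith

theorem ev_sub (F G : Al) (s θ : ℝ) : ev (F - G) s θ = ev F s θ - ev G s θ := by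
  have := ev_add (F - G) G s θ
  rw [sub_add_cancel] at this
  rw [this, add_sub_cancel_right]

theorem Good.ev_le {ε K : ℝ} {Φ : Al → Al} (h : Good ε K Φ) {F G : Al} (hF : F ∈ SS)
    (hG : G ∈ SS) {s : ℝ} (hs : 0 ≤ s) (θ : ℝ) :
    ‖ev (Φ F) s θ - ev (Φ G) s θ‖ ≤ K * ‖F - G‖ := by
  rw [← ev_sub]
  exact (norm_ev _ hs θ).trans (h.2.2 F hF G hG)

theorem Good.ev_cont {ε K : ℝ} {Φ : Al → Al} (h : Good ε K Φ) {F : ℝ → Al} (hF : ∀ κ, F κ ∈ SS)
    {κ : ℝ} (hc : ContinuousAt F κ) {s : ℝ} (hs : 0 ≤ s) (θ : ℝ) :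
    ContinuousAt (fun a => ev (Φ (F a)) s θ) κ := by
  rw [ContinuousAt, tendsto_iff_norm_sub_tendsto_zero] at *
  exact squeeze_zero (fun _ => norm_nonneg _) (fun a => h.ev_le (hF a) (hF κ) hs θ)
    (by simpa using hc.const_mul K)

theorem mu_cont {F : ℝ → Al} {κ : ℝ} (hc : ContinuousAt F κ) :
    ContinuousAt (fun a => mu (F a)) κ := by
  rw [ContinuousAt, tendsto_iff_norm_sub_tendsto_zero] at *
  exact squeeze_zero (fun _ => norm_nonneg _) (fun a => abs_mu_sub (F a) (F κ))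
    (by simpa only [mul_zero] using hc.const_mul (1 / 256))

end Pool.Agent.Lib.MP_28d281_gt
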