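import Pool.Agent.Lib.MP_28d281_gt.Geom
import Pool.Agent.Lib.MP_28d281_gt.Sol
import Pool.Agent.Lib.MP_28d281_gt.Curve

open Matrix Metric Complex Filter Topology

namespace Pool.Agent.Lib.MP_28d281_gt

noncomputable def ta (κ s : ℝ) : ℝ := (1 - κ ^ 2 * Real.exp (-s) ^ 2) / (1 + κ ^ 2 * Real.exp (-s) ^ 2)
noncomputable def sg (κ s : ℝ) : ℝ := 2 * κ * Real.exp (-s) / (1 + κ ^ 2 * Real.exp (-s) ^ 2)

theorem sg_sq (κ s : ℝ) : sg κ s ^ 2 = 1 - ta κ s ^ 2 := by
  unfold sg ta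
  field_simp
  ring

theorem abs_ta (κ s : ℝ) : |ta κ s| ≤ 1 := by
  rw [← sq_le_one_iff_abs_le_one]
  nlinarith [sg_sq κ s, sq_nonneg (sg κ s)]

theorem exp_neg_deriv (s : ℝ) : HasDerivAt (fun s => Real.exp (-s)) (-Real.exp (-s)) s := by
  simpa using (hasDerivAt_neg s).exp

theorem ta_deriv (κ s : ℝ) : HasDerivAt (ta κ) (sg κ s ^ 2) s := by
  have h := ((exp_neg_deriv s).pow 2).const_mul (κ ^ 2)
  refine ((h.const_sub 1).div (h.const_add 1)
    (by simp only [Pi.pow_apply]; positivity)).congr_deriv ?_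
  simp only [sg, Pi.pow_apply]
  field_simp
  ring

theorem sg_deriv (κ s : ℝ) : HasDerivAt (sg κ) (-(sg κ s * ta κ s)) s := by
  have h := ((exp_neg_deriv s).pow 2).const_mul (κ ^ 2)
  refine (((exp_neg_deriv s).const_mul (2 * κ)).div (h.const_add 1)
    (by simp only [Pi.pow_apply]; positivity)).congr_deriv ?_
  simp only [sg, ta, Pi.pow_apply]
  field_simp
  ring

noncomputable def taB (κ : ℝ) : BC :=
  BoundedContinuousFunction.ofNormedAddCommGroup (ta κ)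
    (continuous_iff_continuousAt.mpr fun s => (ta_deriv κ s).continuousAt) 1 (abs_ta κ)

theorem norm_taB (κ : ℝ) : ‖taB κ‖ ≤ 1 :=
  BoundedContinuousFunction.norm_ofNormedAddCommGroup_le _ zero_le_one (abs_ta κ)

noncomputable def hor (κ : ℝ) (Y : ℂ → ℂ) (x : ℂ) : ℂ :=
  ((2 * κ / (1 + κ ^ 2 * normSq x) : ℝ) : ℂ) * x * (1 + Y x)

noncomputable def ver (κ : ℝ) (x : ℂ) : ℝ :=
  (1 - κ ^ 2 * normSq x) / (1 + κ ^ 2 * normSq x) - ta κ 0

noncomputable def surf (κ c : ℝ) (Y : ℂ → ℂ) (x : ℂ) : Fin 3 → ℝ :=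
  ![c * (hor κ Y x).re, c * (hor κ Y x).im, c * ver κ x]

theorem surf_smooth (κ c : ℝ) {Y : ℂ → ℂ} (hY : ContDiff ℝ 2 Y) : ContDiff ℝ 2 (surf κ c Y) := by
  have hn : ContDiff ℝ 2 fun x : ℂ => normSq x := by
    simp only [normSq_apply]
    exact (reCLM.contDiff.mul reCLM.contDiff).add (imCLM.contDiff.mul imCLM.contDiff)
  have hq : ∀ x : ℂ, 1 + κ ^ 2 * normSq x ≠ 0 := fun x => by
    have := normSq_nonneg x
    positivity
  have hq' : ContDiff ℝ 2 fun x : ℂ => 1 + κ ^ 2 * normSq x :=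
    contDiff_const.add (contDiff_const.mul hn)
  have hh : ContDiff ℝ 2 (hor κ Y) :=
    ((ofRealCLM.contDiff.comp (contDiff_const.div hq' hq)).mul contDiff_id).mul
      (contDiff_const.add hY)
  have hv : ContDiff ℝ 2 (ver κ) :=
    ((contDiff_const.sub (contDiff_const.mul hn)).div hq' hq).sub contDiff_const
  refine contDiff_pi.mpr fun i => ?_
  fin_cases i
  · exact contDiff_const.mul (reCLM.contDiff.comp hh)
  · exact contDiff_const.mul (imCLM.contDiff.comp hh)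
  · exact contDiff_const.mul hv

variable {κ δ : ℝ}

theorem hor_xp (S : Sol (ta κ) δ) (s θ : ℝ) :
    hor κ S.Y (xp s θ) = sg κ s * crv (fun θ => 1 + S.v s θ) (S.vt s) θ := by
  have h := S.Yexp s θ
  change S.Y (xp s θ) = _ at h
  rw [hor, h, normSq_xp, xp_eq, sg, crv]
  push_cast
  ring

theorem ver_xp (κ s θ : ℝ) : ver κ (xp s θ) = ta κ s - ta κ 0 := by
  rw [ver, normSq_xp]; rfl

theorem local_geom (S : Sol (ta κ) δ) (c s θ : ℝ) :
    let X := surf κ c S.Y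
    let σ := sg κ s
    let τ := ta κ s
    let y := 1 + S.v s θ
    let a := S.vs s θ - τ * y
    let b := S.vst s θ - τ * S.vt s θ
    let r := y + S.vtt s θ
    let e := Real.exp (-s) ^ 2
    e ^ 2 * (nrm X (xp s θ) ⬝ᵥ nrm X (xp s θ)) = c ^ 4 * σ ^ 4 * r ^ 2 * (σ ^ 2 + a ^ 2) ∧
    e ^ 3 * numer X (xp s θ) =
      -(c ^ 5 * σ ^ 6 * r ^ 2 * (σ ^ 2 + a ^ 2 + b ^ 2 + r * (y - S.vss s θ))) ∧
    e * (X (xp s θ) ⬝ᵥ nrm X (xp s θ)) =
      c ^ 3 * σ ^ 2 * r * (σ ^ 2 * y - a * (τ - ta κ 0)) := by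
  intro X σ τ y a b r e
  have hX : ContDiff ℝ 2 X := surf_smooth κ c S.hY
  have hX0 : ∀ s θ, X (xp s θ) 0 =
      c * (sg κ s * ((1 + S.v s θ) * Real.cos θ - S.vt s θ * Real.sin θ)) := fun s θ => by
    simp only [X, surf, cons_val_zero, hor_xp, re_ofReal_mul, crv_re]
  have hX1 : ∀ s θ, X (xp s θ) 1 =
      c * (sg κ s * ((1 + S.v s θ) * Real.sin θ + S.vt s θ * Real.cos θ)) := fun s θ => by
    simp only [X, surf, cons_val_one, cons_val_zero, hor_xp, im_ofReal_mul, crv_im]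
  have hX2 : ∀ s θ, X (xp s θ) 2 = c * (ta κ s - ta κ 0) := fun s θ => by
    simp [X, surf, ver_xp]
  have hA0 : ∀ s θ, vA X s θ 0 = c * sg κ s * ((S.vs s θ - ta κ s * (1 + S.v s θ)) * Real.cos θ -
      (S.vst s θ - ta κ s * S.vt s θ) * Real.sin θ) := fun s θ => by
    have h1 := hasDerivAt_pi.mp (chain hX s θ).1 0
    simp only [hX0] at h1
    rw [h1.unique (((sg_deriv κ s).mul ((((S.ds s θ).const_add 1).mul_const _).sub
      ((S.dst s θ).mul_const _))).const_mul c)]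
    simp only [Pi.sub_apply]
    ring
  have hA1 : ∀ s θ, vA X s θ 1 = c * sg κ s * ((S.vs s θ - ta κ s * (1 + S.v s θ)) * Real.sin θ +
      (S.vst s θ - ta κ s * S.vt s θ) * Real.cos θ) := fun s θ => by
    have h1 := hasDerivAt_pi.mp (chain hX s θ).1 1
    simp only [hX1] at h1
    rw [h1.unique (((sg_deriv κ s).mul ((((S.ds s θ).const_add 1).mul_const _).add
      ((S.dst s θ).mul_const _))).const_mul c)]
    simp only [Pi.add_apply]
    ring
  have hA2 : ∀ s θ, vA X s θ 2 = c * sg κ s ^ 2 := fun s θ => by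
    have h1 := hasDerivAt_pi.mp (chain hX s θ).1 2
    simp only [hX2] at h1
    exact h1.unique (((ta_deriv κ s).sub_const _).const_mul c)
  have hB0 : ∀ s θ, vB X s θ 0 = -(c * sg κ s * ((1 + S.v s θ + S.vtt s θ) * Real.sin θ)) :=
    fun s θ => by
    have h1 := hasDerivAt_pi.mp (chain hX s θ).2.1 0
    simp only [hX0] at h1
    rw [h1.unique ((((((S.dt s θ).const_add 1).mul (Real.hasDerivAt_cos θ)).sub
      ((S.dtt s θ).mul (Real.hasDerivAt_sin θ))).const_mul _).const_mul c)]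
    ring
  have hB1 : ∀ s θ, vB X s θ 1 = c * sg κ s * ((1 + S.v s θ + S.vtt s θ) * Real.cos θ) :=
    fun s θ => by
    have h1 := hasDerivAt_pi.mp (chain hX s θ).2.1 1
    simp only [hX1] at h1
    rw [h1.unique ((((((S.dt s θ).const_add 1).mul (Real.hasDerivAt_sin θ)).add
      ((S.dtt s θ).mul (Real.hasDerivAt_cos θ))).const_mul _).const_mul c)]
    ring
  have hB2 : ∀ s θ, vB X s θ 2 = 0 := fun s θ => by
    have h1 := hasDerivAt_pi.mp (chain hX s θ).2.1 2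
    simp only [hX2] at h1
    exact h1.unique (hasDerivAt_const _ _)
  obtain ⟨-, -, A', M', B', dA, dM, dB, hN, hnum⟩ := chain hX s θ
  have tr : ∀ θ, Real.sin θ ^ 2 + Real.cos θ ^ 2 = 1 := Real.sin_sq_add_cos_sq
  have kA : A' 0 * Real.cos θ + A' 1 * Real.sin θ =
      c * σ * (S.vss s θ - σ ^ 2 * y - τ * S.vs s θ - τ * a) := by
    have h1 := ((hasDerivAt_pi.mp dA 0).mul_const (Real.cos θ)).add
      ((hasDerivAt_pi.mp dA 1).mul_const (Real.sin θ))
    have h2 : ((fun s => vA X s θ 0 * Real.cos θ) + fun s => vA X s θ 1 * Real.sin θ) =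
        fun s => c * (sg κ s * (S.vs s θ - ta κ s * (1 + S.v s θ))) := by
      funext s
      simp only [Pi.add_apply, hA0, hA1]
      linear_combination (c * (sg κ s * (S.vs s θ - ta κ s * (1 + S.v s θ)))) * tr θ
    rw [h2] at h1
    rw [h1.unique (((sg_deriv κ s).mul ((S.dss s θ).sub ((ta_deriv κ s).mul
      ((S.ds s θ).const_add 1)))).const_mul c)]
    simp only [Pi.sub_apply, Pi.mul_apply, σ, τ, a, y]
    ring
  have kA2 : A' 2 = -(2 * c * σ ^ 2 * τ) := by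
    have h1 := hasDerivAt_pi.mp dA 2
    simp only [hA2] at h1
    rw [h1.unique (((sg_deriv κ s).pow 2).const_mul c)]
    simp only [σ, τ]
    ring
  have kM : M' 0 * Real.cos θ + M' 1 * Real.sin θ = 0 := by
    have h1 := ((hasDerivAt_pi.mp dM 0).mul_const (Real.cos θ)).add
      ((hasDerivAt_pi.mp dM 1).mul_const (Real.sin θ))
    have h2 : ((fun s => vB X s θ 0 * Real.cos θ) + fun s => vB X s θ 1 * Real.sin θ) =
        fun _ => 0 := by
      funext s
      simp only [Pi.add_apply, hB0, hB1]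
      ring
    rw [h2] at h1
    exact h1.unique (hasDerivAt_const _ _)
  have kM2 : M' 2 = 0 := by
    have h1 := hasDerivAt_pi.mp dM 2
    simp only [hB2] at h1
    exact h1.unique (hasDerivAt_const _ _)
  have kB : B' 0 * Real.cos θ + B' 1 * Real.sin θ = -(c * σ * r) := by
    have h0 := hasDerivAt_pi.mp dB 0
    have h1 := hasDerivAt_pi.mp dB 1
    simp only [hB0, hB1] at h0 h1
    have hr := ((S.dt s θ).const_add 1).add (S.dttt s θ)
    rw [h0.unique ((hr.mul (Real.hasDerivAt_sin θ)).const_mul _).neg,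
      h1.unique ((hr.mul (Real.hasDerivAt_cos θ)).const_mul _)]
    simp only [Pi.add_apply, σ, r, y]
    linear_combination (-(c * sg κ s * (1 + S.v s θ + S.vtt s θ))) * tr θ
  have kB2 : B' 2 = 0 := by
    have h1 := hasDerivAt_pi.mp dB 2
    simp only [hB2] at h1
    exact h1.unique (hasDerivAt_const _ _)
  have hc : crossProduct (vB X s θ) (vA X s θ) =
      ![c ^ 2 * σ ^ 3 * r * Real.cos θ, c ^ 2 * σ ^ 3 * r * Real.sin θ,
        -(c ^ 2 * σ ^ 2 * r * a)] := by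
    rw [cross_apply, hA0, hA1, hA2, hB0, hB1, hB2]
    ext i
    fin_cases i
    · simp [σ, r, y]; ring
    · simp [σ, r, y]; ring
    · simp only [σ, r, y, a, τ]
      simp
      linear_combination (-(c ^ 2 * sg κ s ^ 2 * (1 + S.v s θ + S.vtt s θ) *
        (S.vs s θ - ta κ s * (1 + S.v s θ)))) * tr θ
  have he : normSq (xp s θ) = e := normSq_xp s θ
  rw [he] at hN hnum
  have dotN : ∀ W : Fin 3 → ℝ, W ⬝ᵥ crossProduct (vB X s θ) (vA X s θ) =
      c ^ 2 * σ ^ 3 * r * (W 0 * Real.cos θ + W 1 * Real.sin θ) - c ^ 2 * σ ^ 2 * r * a * W 2 :=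
    fun W => by
    rw [hc]
    simp [dotProduct, Fin.sum_univ_three]
    ring
  have hσ : σ ^ 2 = 1 - τ ^ 2 := sg_sq κ s
  refine ⟨?_, ?_, ?_⟩
  · have h1 := dotN (crossProduct (vB X s θ) (vA X s θ))
    nth_rewrite 3 [hc] at h1
    nth_rewrite 3 [hc] at h1
    nth_rewrite 3 [hc] at h1
    rw [hN, smul_dotProduct, dotProduct_smul] at h1
    simp at h1
    linear_combination h1 + (c ^ 4 * σ ^ 6 * r ^ 2) * tr θ
  · rw [← hnum, dotN, dotN, dotN, kA, kA2, kM, kM2, kB, kB2]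
    have e1 : vA X s θ ⬝ᵥ vA X s θ = c ^ 2 * σ ^ 2 * (σ ^ 2 + a ^ 2 + b ^ 2) := by
      simp only [dotProduct, Fin.sum_univ_three, hA0, hA1, hA2]
      linear_combination (c ^ 2 * σ ^ 2 * (a ^ 2 + b ^ 2)) * tr θ
    have e2 : vB X s θ ⬝ᵥ vB X s θ = c ^ 2 * σ ^ 2 * r ^ 2 := by
      simp only [dotProduct, Fin.sum_univ_three, hB0, hB1, hB2]
      linear_combination (c ^ 2 * σ ^ 2 * r ^ 2) * tr θ
    rw [e1, e2]
    have ha : a = S.vs s θ - τ * y := rfl
    linear_combination (c ^ 5 * σ ^ 6 * r ^ 3 * τ) * ha - (c ^ 5 * σ ^ 6 * r ^ 3 * y) * hσ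
  · have h1 := dotN (X (xp s θ))
    rw [hN, dotProduct_smul, hX0, hX1, hX2, smul_eq_mul] at h1
    linear_combination h1 + (c ^ 3 * σ ^ 4 * r * y) * tr θ

end Pool.Agent.Lib.MP_28d281_gt
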